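import Pool.Agent.LibTH93.Defs
import Pool.Agent.LibTP53.DA

/-
PLAN (DA). Copy of exists_levW (LibTP53.DA) / exists_lev (LibSR53.D1): card instead of ww, radii i <= k+6. m p = greatest j with: p in sc k T, some i <= k+6, 2^(j+i) <= card (nb (sc k T) p (2^i)).
-/

set_option autoImplicit false

noncomputable section

open MeasureTheory Metric Set Filter

namespace Pool.LibTH93

open Pool.LibSR53 Pool.LibTP53

private theorem DA_mem_sc {d : ℕ} {k : ℕ} {S : Finset (P d)} {p : P d} :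
    p ∈ sc k S ↔ p ∈ S ∧ (2 : ℝ) ^ k ≤ p.2 ∧ p.2 < (2 : ℝ) ^ (k + 1) := by
  unfold sc; rw [Finset.mem_filter]

private theorem DA_mem_nb {d : ℕ} {S : Finset (P d)} {p q : P d} {h : ℝ} :
    q ∈ nb S p h ↔ q ∈ S ∧ dist q p ≤ h := by
  unfold nb; rw [Finset.mem_filter]

private theorem DA_mem_lev {d : ℕ} {S : Finset (P d)} {m : P d → ℕ} {n : ℕ} {q : P d} :
    q ∈ lev S m n ↔ q ∈ S ∧ m q = n := by
  unfold lev; rw [Finset.mem_filter]

private theorem DA_unique {d : ℕ} {k j : ℕ} {S T : Finset (P d)} {p : P d} (h1 : p ∈ sc k S)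
    (h2 : p ∈ sc j T) : k = j := by
  rw [DA_mem_sc] at h1 h2
  have h6 : j < k + 1 :=
    (pow_lt_pow_iff_right₀ (one_lt_two (α := ℝ))).mp (h2.2.1.trans_lt h1.2.2)
  have h7 : k < j + 1 :=
    (pow_lt_pow_iff_right₀ (one_lt_two (α := ℝ))).mp (h1.2.1.trans_lt h2.2.2)
  omega

/-- existence of the level function -/
theorem exists_levT {d : ℕ} (T : Finset (P d)) : ∃ m : P d → ℕ, LevT T m := by
  classical
  obtain ⟨Q, hQ⟩ : ∃ Q : P d → ℕ → Prop, ∀ p j, Q p j ↔ ∃ k, p ∈ sc k T ∧ ∃ i, i ≤ k + 6 ∧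
      (2 : ℝ) ^ (j + i) ≤ ((nb (sc k T) p ((2 : ℝ) ^ i)).card : ℝ) := ⟨_, fun _ _ => Iff.rfl⟩
  set N : ℕ := T.card with hNdef
  have hb : ∀ p j, Q p j → j ≤ N := by
    intro p j h
    obtain ⟨k, -, i, -, h2⟩ := (hQ p j).mp h
    have h3 : (nb (sc k T) p ((2 : ℝ) ^ i)).card ≤ N := by
      refine Finset.card_le_card fun q hq => ?_
      exact (DA_mem_sc.mp (DA_mem_nb.mp hq).1).1
    have h4 : (2 : ℝ) ^ j ≤ (N : ℝ) := by
      calc (2 : ℝ) ^ j ≤ (2 : ℝ) ^ (j + i) :=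
            pow_le_pow_right₀ one_le_two (Nat.le_add_right _ _)
        _ ≤ _ := h2
        _ ≤ _ := by exact_mod_cast h3
    have h5 : 2 ^ j ≤ N := by exact_mod_cast h4
    exact (Nat.lt_two_pow_self).le.trans h5
  refine ⟨fun p => Nat.findGreatest (Q p) N, ?_, ?_⟩
  · intro j k p hp i hi
    by_contra hcon
    push Not at hcon
    have hp' := DA_mem_sc.mp hp
    have hp1 := DA_mem_lev.mp hp'.1
    have h2 : p ∈ sc k T := by
      rw [DA_mem_sc]
      exact ⟨hp1.1, hp'.2⟩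
    have h4 : Q p (j + 1) := by
      rw [hQ]
      refine ⟨k, h2, i, hi, ?_⟩
      rw [pow_add]
      exact hcon.le
    have h5 := Nat.le_findGreatest (hb p _ h4) h4
    have h6 : Nat.findGreatest (Q p) N = j := hp1.2
    omega
  · intro k p hp
    have h0 : Q p 0 := by
      rw [hQ]
      refine ⟨k, hp, 0, Nat.zero_le _, ?_⟩
      rw [add_zero, pow_zero]
      have hp' := DA_mem_sc.mp hp
      have hmem : p ∈ nb (sc k T) p 1 := by
        rw [DA_mem_nb]
        exact ⟨hp, by rw [dist_self]; exact zero_le_one⟩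
      have h2 : 0 < (nb (sc k T) p 1).card := Finset.card_pos.2 ⟨p, hmem⟩
      exact_mod_cast h2
    have h2 : Q p (Nat.findGreatest (Q p) N) :=
      Nat.findGreatest_spec (Nat.zero_le _) h0
    obtain ⟨k', hk', i, hi, h3⟩ := (hQ p _).mp h2
    have h4 : k' = k := DA_unique hk' hp
    subst h4
    exact ⟨i, hi, h3⟩

end Pool.LibTH93
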