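import Pool.Agent.LibTH93.Defs
import Pool.Agent.LibTP53.DB

/-
PLAN (DB). Copy of exceptionalW (LibTP53.DB) with card instead of ww and radii 2^i, i <= k+6: only the constant of the annulus changes: 2^i <= 2^(k+6) <= 64 b.2, so (b.2 + 15 lam 2^i)^(d-1) <= (961 lam b.2)^(d-1).
The balls lie in sc k T (nb (sc k T)), b.2^(d-1) <= 2^(d-1) q.2^(d-1) for q in sc k T; disjoint balls: sum <= wt T.
-/

set_option autoImplicit false

noncomputable section

open MeasureTheory Metric Set Filter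

namespace Pool.LibTH93

open Pool.LibSR53 Pool.LibTP53

private theorem DB_scale {d : ℕ} (T : Finset (P d))
    (m : P d → ℕ) (h1 : ∀ p ∈ T, 1 ≤ p.2) (hL : LevT T m) (p : P d)
    (hp : p ∈ T) :
    ∃ k i : ℕ, i ≤ k + 6 ∧ (2 : ℝ) ^ k ≤ p.2 ∧ p.2 < (2 : ℝ) ^ (k + 1) ∧
      (2 : ℝ) ^ (m p + i) ≤ ((nb (sc k T) p ((2 : ℝ) ^ i)).card : ℝ) := by
  classical
  obtain ⟨k, hk1, hk2⟩ := exists_nat_pow_near (h1 p hp) (by norm_num : (1 : ℝ) < 2)
  have hpk : p ∈ sc k T := by
    unfold sc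
    rw [Finset.mem_filter]
    exact ⟨hp, hk1, hk2⟩
  obtain ⟨i, hik, hi⟩ := hL.big k p hpk
  exact ⟨k, i, hik, hk1, hk2, hi⟩

/-- the exceptional set of the points of density level j -/
theorem exceptionalT (d : ℕ) (hd : 2 ≤ d) : ∃ C : ℝ, 0 < C ∧ ∀ (T : Finset (P d))
    (m : P d → ℕ), (∀ p ∈ T, 1 ≤ p.2) → LevT T m →
    ∀ (j : ℕ) (lam : ℝ), 1 ≤ lam → ∃ A : Set (E d), MeasurableSet A ∧
      volume A ≤ ENNReal.ofReal (C * lam ^ d * wt T / 2 ^ j) ∧
      ∀ p ∈ T, m p = j → ∀ x : E d, |‖x - p.1‖ - p.2| ≤ lam → x ∈ A := by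
  classical
  obtain ⟨C2, hC2, hann⟩ := annulus_volume d (by omega)
  refine ⟨C2 * 1922 ^ (d - 1) * 15, by positivity, ?_⟩
  intro T m h1 hL j lam hlam
  have hlam0 : (0 : ℝ) < lam := by linarith
  have hsc := DB_scale T m h1 hL
  choose! k i hik hk1 hk2 hbig using hsc
  -- the finite family
  let t : Set (P d) := {p | p ∈ T ∧ m p = j}
  obtain ⟨u, hut, hdisj, hcov⟩ :=
    Vitali.exists_disjoint_subfamily_covering_enlargement_closedBall t (fun p : P d => p)
      (fun p => (2 : ℝ) ^ (i p)) (∑ p ∈ T, (2 : ℝ) ^ (i p))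
      (fun c hc => Finset.single_le_sum (f := fun p => (2 : ℝ) ^ (i p))
        (fun _ _ => by positivity) hc.1) 5 (by norm_num)
  let U : Finset (P d) := T.filter (fun p => p ∈ u)
  have hU : ∀ c, c ∈ U ↔ c ∈ u := by
    intro c
    simp only [U, Finset.mem_filter]
    exact ⟨fun h => h.2, fun h => ⟨(hut h).1, h⟩⟩
  let ann : P d → Set (E d) :=
    fun c => {x : E d | |‖x - c.1‖ - c.2| ≤ 15 * lam * (2 : ℝ) ^ (i c)}
  refine ⟨⋃ c ∈ U, ann c, ?_, ?_, ?_⟩
  · refine Finset.measurableSet_biUnion U (fun c _ => ?_)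
    refine (isClosed_le ?_ continuous_const).measurableSet
    fun_prop
  · -- volume
    have hstep : ∀ c ∈ U, volume (ann c) ≤ ENNReal.ofReal
        (C2 * 1922 ^ (d - 1) * 15 * lam ^ d / 2 ^ j *
          ∑ q ∈ nb (sc (k c) T) c ((2 : ℝ) ^ (i c)), q.2 ^ (d - 1)) := by
      intro c hc
      have hcS : c ∈ T := (hut ((hU c).1 hc)).1
      have hcn : m c = j := (hut ((hU c).1 hc)).2
      have hc1 : 1 ≤ c.2 := h1 c hcS
      have h2i : (0 : ℝ) < 2 ^ (i c) := by positivity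
      refine (hann c.1 c.2 (15 * lam * (2 : ℝ) ^ (i c)) (by linarith) (by positivity)).trans ?_
      apply ENNReal.ofReal_le_ofReal
      have hib : (2 : ℝ) ^ (i c) ≤ 64 * c.2 := by
        have r1 : (2 : ℝ) ^ (i c) ≤ (2 : ℝ) ^ (k c + 6) :=
          pow_le_pow_right₀ (by norm_num) (hik c hcS)
        have r2 : (2 : ℝ) ^ (k c + 6) = 64 * 2 ^ (k c) := by
          rw [pow_add]; norm_num; ring
        have r3 := hk1 c hcS
        linarith
      have e1 : (c.2 + 15 * lam * (2 : ℝ) ^ (i c)) ^ (d - 1) ≤ (961 * lam * c.2) ^ (d - 1) := by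
        apply pow_le_pow_left₀ (by positivity)
        have s1 : c.2 ≤ lam * c.2 := le_mul_of_one_le_left (by linarith) hlam
        have s2 : lam * (2 : ℝ) ^ (i c) ≤ lam * (64 * c.2) :=
          mul_le_mul_of_nonneg_left hib hlam0.le
        linarith
      have e2 : c.2 ^ (d - 1) * ((nb (sc (k c) T) c ((2 : ℝ) ^ (i c))).card : ℝ) ≤
          2 ^ (d - 1) *
            ∑ q ∈ nb (sc (k c) T) c ((2 : ℝ) ^ (i c)), q.2 ^ (d - 1) := by
        rw [Finset.mul_sum, mul_comm, ← nsmul_eq_mul]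
        apply Finset.card_nsmul_le_sum
        intro q hq
        have hq' : (2 : ℝ) ^ (k c) ≤ q.2 := by
          unfold nb at hq
          rw [Finset.mem_filter] at hq
          have := hq.1
          unfold sc at this
          rw [Finset.mem_filter] at this
          exact this.2.1
        rw [← mul_pow]
        apply pow_le_pow_left₀ (by linarith)
        have := hk2 c hcS
        rw [pow_succ] at this
        linarith
      have e3 : (2 : ℝ) ^ (i c) * 2 ^ j ≤ ((nb (sc (k c) T) c ((2 : ℝ) ^ (i c))).card : ℝ) := by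
        have := hbig c hcS
        rw [hcn, pow_add] at this
        linarith
      have hpos : (0 : ℝ) < 2 ^ j := by positivity
      have hb2 : (0 : ℝ) ≤ c.2 ^ (d - 1) := by positivity
      have hlamd : lam ^ (d - 1) * lam = lam ^ d := by
        rw [← pow_succ]
        congr 1
        omega
      calc C2 * (c.2 + 15 * lam * (2 : ℝ) ^ (i c)) ^ (d - 1) * (15 * lam * (2 : ℝ) ^ (i c))
          ≤ C2 * (961 * lam * c.2) ^ (d - 1) * (15 * lam * (2 : ℝ) ^ (i c)) := by gcongr
        _ = C2 * 961 ^ (d - 1) * 15 * (lam ^ (d - 1) * lam) / 2 ^ j *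
              (c.2 ^ (d - 1) * ((2 : ℝ) ^ (i c) * 2 ^ j)) := by
            rw [mul_pow, mul_pow]; field_simp
        _ = C2 * 961 ^ (d - 1) * 15 * lam ^ d / 2 ^ j *
              (c.2 ^ (d - 1) * ((2 : ℝ) ^ (i c) * 2 ^ j)) := by rw [hlamd]
        _ ≤ C2 * 961 ^ (d - 1) * 15 * lam ^ d / 2 ^ j * (c.2 ^ (d - 1) *
              ((nb (sc (k c) T) c ((2 : ℝ) ^ (i c))).card : ℝ)) := by
            gcongr
        _ ≤ C2 * 961 ^ (d - 1) * 15 * lam ^ d / 2 ^ j *
              (2 ^ (d - 1) *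
                ∑ q ∈ nb (sc (k c) T) c ((2 : ℝ) ^ (i c)), q.2 ^ (d - 1)) := by
            gcongr
        _ = C2 * 1922 ^ (d - 1) * 15 * lam ^ d / 2 ^ j *
              ∑ q ∈ nb (sc (k c) T) c ((2 : ℝ) ^ (i c)), q.2 ^ (d - 1) := by
            rw [show (1922 : ℝ) = 961 * 2 by norm_num, mul_pow]; ring
    have hnn : ∀ c ∈ U, (0 : ℝ) ≤ C2 * 1922 ^ (d - 1) * 15 * lam ^ d / 2 ^ j *
        ∑ q ∈ nb (sc (k c) T) c ((2 : ℝ) ^ (i c)), q.2 ^ (d - 1) := by
      intro c hc
      apply mul_nonneg (by positivity)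
      apply Finset.sum_nonneg
      intro q hq
      unfold nb sc at hq
      rw [Finset.mem_filter, Finset.mem_filter] at hq
      have := h1 q hq.1.1
      positivity
    refine (measure_biUnion_finset_le U ann).trans ((Finset.sum_le_sum hstep).trans ?_)
    rw [← ENNReal.ofReal_sum_of_nonneg hnn]
    apply ENNReal.ofReal_le_ofReal
    rw [← Finset.mul_sum]
    have hwt : ∑ c ∈ U, ∑ q ∈ nb (sc (k c) T) c ((2 : ℝ) ^ (i c)), q.2 ^ (d - 1) ≤
        wt T := by
      rw [← Finset.sum_biUnion]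
      · unfold wt
        apply Finset.sum_le_sum_of_subset_of_nonneg
        · intro q hq
          rw [Finset.mem_biUnion] at hq
          obtain ⟨c, _, hq⟩ := hq
          unfold nb sc at hq
          rw [Finset.mem_filter, Finset.mem_filter] at hq
          exact hq.1.1
        · intro q hq _
          have := h1 q hq
          positivity
      · intro c hc e he hce
        have hd' := hdisj ((hU c).1 hc) ((hU e).1 he) hce
        simp only [Function.onFun] at hd' ⊢
        rw [Finset.disjoint_left]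
        intro q hq1 hq2
        rw [Set.disjoint_left] at hd'
        apply hd' (a := q)
        · unfold nb at hq1
          rw [Finset.mem_filter] at hq1
          exact mem_closedBall.2 hq1.2
        · unfold nb at hq2
          rw [Finset.mem_filter] at hq2
          exact mem_closedBall.2 hq2.2
    calc C2 * 1922 ^ (d - 1) * 15 * lam ^ d / 2 ^ j *
          ∑ c ∈ U, ∑ q ∈ nb (sc (k c) T) c ((2 : ℝ) ^ (i c)), q.2 ^ (d - 1)
        ≤ C2 * 1922 ^ (d - 1) * 15 * lam ^ d / 2 ^ j * wt T := by gcongr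
      _ = C2 * 1922 ^ (d - 1) * 15 * lam ^ d * wt T / 2 ^ j := by ring
  · intro p hp hmp x hx
    obtain ⟨c, hcu, hsub⟩ := hcov p ⟨hp, hmp⟩
    replace hsub : closedBall p ((2 : ℝ) ^ (i p)) ⊆ closedBall c (5 * (2 : ℝ) ^ (i c)) := hsub
    have h2i : (0 : ℝ) < 2 ^ (i p) := by positivity
    have h2c : (1 : ℝ) ≤ 2 ^ (i c) := one_le_pow₀ (by norm_num)
    rw [Set.mem_iUnion₂]
    refine ⟨c, (hU c).2 hcu, ?_⟩
    change |‖x - c.1‖ - c.2| ≤ 15 * lam * (2 : ℝ) ^ (i c)
    have hp0 : p ∈ closedBall c (5 * (2 : ℝ) ^ (i c)) :=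
      hsub (mem_closedBall_self h2i.le)
    rw [mem_closedBall, Prod.dist_eq] at hp0
    have a1 : dist p.1 c.1 ≤ 5 * (2 : ℝ) ^ (i c) := (le_max_left _ _).trans hp0
    have a2 : |p.2 - c.2| ≤ 5 * (2 : ℝ) ^ (i c) := by
      have := (le_max_right _ _).trans hp0
      rwa [Real.dist_eq] at this
    have a6 : |‖x - c.1‖ - ‖x - p.1‖| ≤ dist p.1 c.1 := by
      have := abs_norm_sub_norm_le (x - c.1) (x - p.1)
      refine this.trans ?_
      rw [dist_eq_norm]
      apply le_of_eq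
      congr 1
      abel
    have a7 := abs_le.1 a6
    have a8 := abs_le.1 a2
    have a9 := abs_le.1 hx
    have s1 : (2 : ℝ) ^ (i c) ≤ lam * 2 ^ (i c) := le_mul_of_one_le_left (by positivity) hlam
    have s2 : lam ≤ lam * 2 ^ (i c) := le_mul_of_one_le_right hlam0.le h2c
    rw [abs_le]
    constructor <;> linarith [a7.1, a7.2, a8.1, a8.2, a9.1, a9.2]

end Pool.LibTH93
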