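import Pool.Agent.LibTH93.DB
import Pool.Agent.LibTP53.DC

/-
PLAN (DC). Copy of levelW (LibTP53.DC) with DensT, LevT, wt (Y x R) instead of DensW, LevW, wtW; S = lev (Y x R) m j has DensT (Y x R) (2^(j+1)) S by LevT.dens, wt S <= wt (Y x R).
-/

set_option autoImplicit false

noncomputable section

open MeasureTheory Metric Set Filter

namespace Pool.LibTH93

open Pool.LibSR53 Pool.LibTP53

private lemma DC_pow {a b W X e1 e2 s t δ : ℝ} (ha : 0 ≤ a) (hb : 0 ≤ b) (hW : 0 ≤ W)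
    (hX : 1 ≤ X) (hs : 0 ≤ s) (ht : 0 ≤ t) (hst : s + t = 1) (h : e1 * s + e2 * t ≤ -δ) :
    (a * W * X ^ e1) ^ s * (b * W * X ^ e2) ^ t ≤ a ^ s * b ^ t * (W * X ^ (-δ)) := by
  have hX0 : 0 < X := lt_of_lt_of_le one_pos hX
  have h1 : W ^ s * W ^ t = W := by
    rw [← Real.rpow_add_of_nonneg hW hs ht, hst, Real.rpow_one]
  have h2 : (X ^ e1) ^ s * (X ^ e2) ^ t = X ^ (e1 * s + e2 * t) := by
    rw [← Real.rpow_mul hX0.le, ← Real.rpow_mul hX0.le, ← Real.rpow_add hX0]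
  have h3 : X ^ (e1 * s + e2 * t) ≤ X ^ (-δ) := Real.rpow_le_rpow_of_exponent_le hX h
  calc (a * W * X ^ e1) ^ s * (b * W * X ^ e2) ^ t
      = a ^ s * b ^ t * ((W ^ s * W ^ t) * ((X ^ e1) ^ s * (X ^ e2) ^ t)) := by
        rw [Real.mul_rpow (mul_nonneg ha hW) (Real.rpow_nonneg hX0.le _), Real.mul_rpow ha hW,
          Real.mul_rpow (mul_nonneg hb hW) (Real.rpow_nonneg hX0.le _), Real.mul_rpow hb hW]
        ring
    _ ≤ a ^ s * b ^ t * (W * X ^ (-δ)) := by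
        rw [h1, h2]
        have : 0 ≤ a ^ s * b ^ t := mul_nonneg (Real.rpow_nonneg ha _) (Real.rpow_nonneg hb _)
        exact mul_le_mul_of_nonneg_left (mul_le_mul_of_nonneg_left h3 hW) this

private lemma DC_lin {δ : ℝ} (hδ : 0 < δ) (n : ℕ) :
    (n : ℝ) + 2 ≤ (2 + 1 / (δ * Real.log 2)) * ((2 : ℝ) ^ n) ^ δ := by
  have hl : 0 < Real.log 2 := Real.log_pos (by norm_num)
  have h1 : ((2 : ℝ) ^ n) ^ δ = Real.exp (n * (δ * Real.log 2)) := by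
    rw [← Real.rpow_natCast, ← Real.rpow_mul (by norm_num), Real.rpow_def_of_pos (by norm_num)]
    congr 1
    ring
  rw [h1]
  have h2 := Real.add_one_le_exp ((n : ℝ) * (δ * Real.log 2))
  have h3 : 1 ≤ Real.exp (n * (δ * Real.log 2)) := Real.one_le_exp (by positivity)
  have h4 : (n : ℝ) ≤ 1 / (δ * Real.log 2) * Real.exp (n * (δ * Real.log 2)) := by
    rw [one_div, inv_mul_eq_div, le_div_iff₀ (by positivity)]
    linarith
  linarith

private lemma DC_wt {d : ℕ} {T S : Finset (P d)} (hS : S ⊆ T) (h1 : ∀ p ∈ T, 1 ≤ p.2) :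
    0 ≤ wt S ∧ wt S ≤ wt T := by
  constructor
  · exact Finset.sum_nonneg fun p hp => pow_nonneg (zero_le_one.trans (h1 p (hS hp))) _
  · exact Finset.sum_le_sum_of_subset_of_nonneg hS fun p hp _ =>
      pow_nonneg (zero_le_one.trans (h1 p hp)) _

/-- Hoelder on a set of finite measure -/
private lemma DC_A {d : ℕ} {g : E d → ENNReal} (hg : AEMeasurable g volume) (A : Set (E d)) {q : ℝ}
    (hq1 : 1 < q) (hq2 : q < 2) :
    ∫⁻ x in A, g x ^ q ≤ (volume A) ^ (1 - q / 2) * (∫⁻ x, g x ^ (2 : ℝ)) ^ (q / 2) := by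
  have h := ENNReal.lintegral_mul_norm_pow_le (μ := volume.restrict A) (f := fun _ => 1)
    (g := fun x => g x ^ (2 : ℝ)) aemeasurable_const (hg.restrict.pow_const 2)
    (p := 1 - q / 2) (q := q / 2) (by linarith) (by linarith) (by ring)
  have e : ∀ x, (1 : ENNReal) ^ (1 - q / 2) * (g x ^ (2 : ℝ)) ^ (q / 2) = g x ^ q := by
    intro x
    rw [ENNReal.one_rpow, one_mul, ← ENNReal.rpow_mul]
    congr 1
    ring
  simp only [e] at h
  refine h.trans ?_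
  rw [lintegral_const, Measure.restrict_apply_univ, one_mul]
  gcongr
  exact Measure.restrict_le_self

/-- Hoelder between 1 and 2 -/
private lemma DC_B {d : ℕ} {g : E d → ENNReal} (hg : AEMeasurable g volume) (A : Set (E d)) {q : ℝ}
    (hq1 : 1 < q) (hq2 : q < 2) :
    ∫⁻ x in A, g x ^ q ≤ (∫⁻ x in A, g x) ^ (2 - q) * (∫⁻ x, g x ^ (2 : ℝ)) ^ (q - 1) := by
  have h := ENNReal.lintegral_mul_norm_pow_le (μ := volume.restrict A) (f := g)
    (g := fun x => g x ^ (2 : ℝ)) hg.restrict (hg.restrict.pow_const 2)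
    (p := 2 - q) (q := q - 1) (by linarith) (by linarith) (by ring)
  have e : ∀ x, (g x) ^ (2 - q) * (g x ^ (2 : ℝ)) ^ (q - 1) = g x ^ q := by
    intro x
    rw [← ENNReal.rpow_mul, ← ENNReal.rpow_add_of_nonneg _ _ (by linarith) (by linarith)]
    congr 1
    ring
  simp only [e] at h
  refine h.trans ?_
  gcongr
  exact Measure.restrict_le_self

private lemma DC_L1 {d : ℕ} (F : P d → E d → ℂ) (T : Finset (P d))
    (hF : ∀ p ∈ T, AEStronglyMeasurable (F p) volume) (A : Set (E d)) (c : ℝ) (hc : 0 ≤ c)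
    (h1 : ∀ p ∈ T, 1 ≤ p.2)
    (h : ∀ p ∈ T, ∫⁻ x in A, ‖F p x‖ₑ ≤ ENNReal.ofReal (c * p.2 ^ (d - 1)))
    (γ : P d → ℂ) (hγ : ∀ p, ‖γ p‖ ≤ 1) :
    ∫⁻ x in A, ‖∑ p ∈ T, γ p * F p x‖ₑ ≤ ENNReal.ofReal (c * wt T) := by
  have e1 : ∀ x, ‖∑ p ∈ T, γ p * F p x‖ₑ ≤ ∑ p ∈ T, ‖F p x‖ₑ := by
    intro x
    refine (enorm_sum_le _ _).trans (Finset.sum_le_sum fun p _ => ?_)
    rw [enorm_mul]
    have : ‖γ p‖ₑ ≤ 1 := by
      rw [← ofReal_norm]
      exact ENNReal.ofReal_le_one.2 (hγ p)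
    calc ‖γ p‖ₑ * ‖F p x‖ₑ ≤ 1 * ‖F p x‖ₑ := mul_le_mul_left this _
      _ = ‖F p x‖ₑ := one_mul _
  calc ∫⁻ x in A, ‖∑ p ∈ T, γ p * F p x‖ₑ ≤ ∫⁻ x in A, ∑ p ∈ T, ‖F p x‖ₑ := lintegral_mono e1
    _ = ∑ p ∈ T, ∫⁻ x in A, ‖F p x‖ₑ :=
        lintegral_finsetSum' _ fun p hp => (hF p hp).restrict.enorm
    _ ≤ ∑ p ∈ T, ENNReal.ofReal (c * p.2 ^ (d - 1)) := Finset.sum_le_sum h
    _ = ENNReal.ofReal (c * wt T) := by
        rw [← ENNReal.ofReal_sum_of_nonneg, wt, Finset.mul_sum]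
        intro p hp
        exact mul_nonneg hc (pow_nonneg (zero_le_one.trans (h1 p hp)) _)

/-- the estimate for one density level -/
theorem levelT (d : ℕ) (hd : 2 ≤ d) (F : P d → E d → ℂ) (θ C0 : ℝ) (hθ : 0 ≤ θ)
    (hF : ∀ p : P d, 1 ≤ p.2 → AEStronglyMeasurable (F p) volume)
    (hL2 : ∀ (Y : Finset (E d)) (R : Finset ℝ) (S : Finset (P d)) (u : ℝ), Pool.LibTP53.Sep Y R →
      S ⊆ Y ×ˢ R → 1 ≤ u → DensT (Y ×ˢ R) u S → ∀ γ : P d → ℂ, (∀ p, ‖γ p‖ ≤ 1) →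
      ∫⁻ x, ‖∑ p ∈ S, γ p * F p x‖ₑ ^ (2 : ℝ) ≤
        ENNReal.ofReal (C0 * (1 + Real.log u) ^ 2 * u ^ θ * wt S))
    (hT : ∀ M : ℕ, ∃ C : ℝ, 0 < C ∧ ∀ (p : P d) (D : ℝ), 1 ≤ p.2 → 1 ≤ D →
      ∫⁻ x in {x : E d | D < |‖x - p.1‖ - p.2|}, ‖F p x‖ₑ ≤
        ENNReal.ofReal (C * p.2 ^ (d - 1) / D ^ M))
    (q : ℝ) (hq1 : 1 < q) (hq2 : q * (1 + θ) < 2) :
    ∃ C δ : ℝ, 0 < C ∧ 0 < δ ∧ ∀ (Y : Finset (E d)) (R : Finset ℝ) (m : P d → ℕ), Pool.LibTP53.Sep Y R →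
      LevT (Y ×ˢ R) m → ∀ (j : ℕ) (γ : P d → ℂ), (∀ p, ‖γ p‖ ≤ 1) →
      ∫⁻ x, ‖∑ p ∈ lev (Y ×ˢ R) m j, γ p * F p x‖ₑ ^ q ≤
        ENNReal.ofReal (C * (2 : ℝ) ^ (-(δ * j)) * wt (Y ×ˢ R)) := by
  classical
  obtain ⟨CA, hCA, hA⟩ := exceptionalT d hd
  set δ0 : ℝ := (2 - q * (1 + θ)) / 4 with hδdef
  have hδ0 : 0 < δ0 := by
    rw [hδdef]
    linarith
  have hq2' : q < 2 := by
    have : 0 ≤ q * θ := mul_nonneg (by linarith) hθ
    linarith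
  have hd0 : (0 : ℝ) < d := by
    have : 0 < d := by omega
    exact_mod_cast this
  set ε : ℝ := δ0 / (2 * d) with hεdef
  have hε : 0 < ε := by positivity
  have hεd : ε * d = δ0 / 2 := by
    rw [hεdef]
    field_simp
  obtain ⟨N, hN⟩ := exists_nat_ge (((θ + δ0) * (q - 1) + δ0 / 2) / ((2 - q) * ε))
  rw [div_le_iff₀ (mul_pos (by linarith) hε)] at hN
  obtain ⟨CM, hCM, hTM⟩ := hT N
  set C0' : ℝ := max C0 0 with hC0'
  have hC00 : 0 ≤ C0' := le_max_right _ _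
  set C2 : ℝ := 2 + 1 / (δ0 / 2 * Real.log 2) with hC2
  have hlog : 0 < Real.log 2 := Real.log_pos (by norm_num)
  have hC20 : 0 ≤ C2 := by positivity
  set B : ℝ := C0' * C2 ^ 2 * (2 : ℝ) ^ θ with hB
  have hB0 : 0 ≤ B := by positivity
  refine ⟨CA ^ (1 - q / 2) * B ^ (q / 2) + CM ^ (2 - q) * B ^ (q - 1) + 1, δ0 / 2,
    by positivity, by positivity, ?_⟩
  intro Y R m hYR hm j γ hγ
  have h1T : ∀ p ∈ Y ×ˢ R, 1 ≤ p.2 := fun p hp => hYR.one_le p.2 (Finset.mem_product.1 hp).2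
  have hTS : lev (Y ×ˢ R) m j ⊆ Y ×ˢ R := Finset.filter_subset _ _
  set T := lev (Y ×ˢ R) m j with hTdef
  obtain ⟨hwT0, hwTS⟩ := DC_wt hTS h1T
  have h1p : ∀ p ∈ T, 1 ≤ p.2 := fun p hp => h1T p (hTS hp)
  set W := wt (Y ×ˢ R) with hW
  have hW0 : 0 ≤ W := hwT0.trans hwTS
  set X : ℝ := (2 : ℝ) ^ j with hX
  have hX1 : 1 ≤ X := one_le_pow₀ (by norm_num)
  have hX0 : 0 < X := lt_of_lt_of_le one_pos hX1
  have hFT : ∀ p ∈ T, AEStronglyMeasurable (F p) volume := fun p hp => hF p (h1p p hp)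
  have hfm : AEStronglyMeasurable (fun x => ∑ p ∈ T, γ p * F p x) volume :=
    Finset.aestronglyMeasurable_fun_sum T fun p hp => (hFT p hp).const_mul (γ p)
  have hg : AEMeasurable (fun x => ‖∑ p ∈ T, γ p * F p x‖ₑ) volume := hfm.enorm
  -- the L2 bound
  have hL : ∫⁻ x, ‖∑ p ∈ T, γ p * F p x‖ₑ ^ (2 : ℝ) ≤
      ENNReal.ofReal (B * W * X ^ (θ + δ0)) := by
    refine (hL2 Y R T ((2 : ℝ) ^ (j + 1)) hYR hTS (one_le_pow₀ (by norm_num))
      (hm.dens j) γ hγ).trans (ENNReal.ofReal_le_ofReal ?_)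
    have h1 : 1 + Real.log ((2 : ℝ) ^ (j + 1)) ≤ (j : ℝ) + 2 := by
      rw [Real.log_pow]
      have h2 : Real.log 2 ≤ 1 := by
        have := Real.log_le_sub_one_of_pos (show (0 : ℝ) < 2 by norm_num)
        linarith
      have h3 : ((j + 1 : ℕ) : ℝ) * Real.log 2 ≤ ((j + 1 : ℕ) : ℝ) * 1 :=
        mul_le_mul_of_nonneg_left h2 (Nat.cast_nonneg _)
      push_cast at h3 ⊢
      linarith
    have h1' : 0 ≤ 1 + Real.log ((2 : ℝ) ^ (j + 1)) := by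
      have := Real.log_nonneg (show (1 : ℝ) ≤ 2 ^ (j + 1) from one_le_pow₀ (by norm_num))
      linarith
    have h2 : (j : ℝ) + 2 ≤ C2 * X ^ (δ0 / 2) := DC_lin (δ := δ0 / 2) (by positivity) j
    have h2' : ((j : ℝ) + 2) ^ 2 ≤ C2 ^ 2 * X ^ δ0 := by
      have h8 : (X ^ (δ0 / 2)) ^ 2 = X ^ δ0 := by
        rw [← Real.rpow_natCast, ← Real.rpow_mul hX0.le]
        congr 1
        push_cast
        ring
      have h9 : ((j : ℝ) + 2) ^ 2 ≤ (C2 * X ^ (δ0 / 2)) ^ 2 :=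
        pow_le_pow_left₀ (by positivity) h2 2
      rwa [mul_pow, h8] at h9
    have h3 : ((2 : ℝ) ^ (j + 1)) ^ θ = (2 : ℝ) ^ θ * X ^ θ := by
      rw [pow_succ, mul_comm, Real.mul_rpow (by norm_num) hX0.le]
    rw [h3]
    have h4 : C0 ≤ C0' := le_max_left _ _
    have h5 : 0 ≤ (2 : ℝ) ^ θ * X ^ θ := by positivity
    have h1sq : (1 + Real.log ((2 : ℝ) ^ (j + 1))) ^ 2 ≤ ((j : ℝ) + 2) ^ 2 :=
      pow_le_pow_left₀ h1' h1 2
    calc C0 * (1 + Real.log ((2 : ℝ) ^ (j + 1))) ^ 2 * ((2 : ℝ) ^ θ * X ^ θ) * wt T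
        ≤ C0' * ((j : ℝ) + 2) ^ 2 * ((2 : ℝ) ^ θ * X ^ θ) * W := by
          have h6 : C0 * (1 + Real.log ((2 : ℝ) ^ (j + 1))) ^ 2 ≤ C0' * ((j : ℝ) + 2) ^ 2 :=
            (mul_le_mul_of_nonneg_right h4 (sq_nonneg _)).trans
              (mul_le_mul_of_nonneg_left h1sq hC00)
          have h7 : 0 ≤ C0' * ((j : ℝ) + 2) ^ 2 := by positivity
          calc C0 * (1 + Real.log ((2 : ℝ) ^ (j + 1))) ^ 2 * ((2 : ℝ) ^ θ * X ^ θ) * wt T
              ≤ C0' * ((j : ℝ) + 2) ^ 2 * ((2 : ℝ) ^ θ * X ^ θ) * wt T :=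
                mul_le_mul_of_nonneg_right (mul_le_mul_of_nonneg_right h6 h5) hwT0
            _ ≤ C0' * ((j : ℝ) + 2) ^ 2 * ((2 : ℝ) ^ θ * X ^ θ) * W :=
                mul_le_mul_of_nonneg_left hwTS (mul_nonneg h7 h5)
      _ ≤ C0' * (C2 ^ 2 * X ^ δ0) * ((2 : ℝ) ^ θ * X ^ θ) * W := by
          gcongr
      _ = B * W * X ^ (θ + δ0) := by
          rw [hB, Real.rpow_add hX0]
          ring
  have hlam : (1 : ℝ) ≤ X ^ ε := Real.one_le_rpow hX1 hε.le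
  obtain ⟨A, hAm, hAv, hAp⟩ := hA (Y ×ˢ R) m h1T hm j (X ^ ε) hlam
  have hAv' : volume A ≤ ENNReal.ofReal (CA * W * X ^ (δ0 / 2 - 1)) := by
    refine hAv.trans (ENNReal.ofReal_le_ofReal (le_of_eq ?_))
    have h8 : (X ^ ε) ^ d = X ^ (δ0 / 2) := by
      rw [← Real.rpow_natCast, ← Real.rpow_mul hX0.le, hεd]
    rw [h8, Real.rpow_sub hX0, Real.rpow_one]
    ring
  have hpA : ∫⁻ x in A, ‖∑ p ∈ T, γ p * F p x‖ₑ ^ q ≤
      ENNReal.ofReal (CA ^ (1 - q / 2) * B ^ (q / 2) * (W * X ^ (-(δ0 / 2)))) := by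
    refine (DC_A hg A hq1 hq2').trans ?_
    calc (volume A) ^ (1 - q / 2) * (∫⁻ x, ‖∑ p ∈ T, γ p * F p x‖ₑ ^ (2 : ℝ)) ^ (q / 2)
        ≤ (ENNReal.ofReal (CA * W * X ^ (δ0 / 2 - 1))) ^ (1 - q / 2) *
          (ENNReal.ofReal (B * W * X ^ (θ + δ0))) ^ (q / 2) := by
          gcongr
          · linarith
      _ = ENNReal.ofReal ((CA * W * X ^ (δ0 / 2 - 1)) ^ (1 - q / 2) *
          (B * W * X ^ (θ + δ0)) ^ (q / 2)) := by
          rw [ENNReal.ofReal_rpow_of_nonneg (by positivity) (by linarith),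
            ENNReal.ofReal_rpow_of_nonneg (by positivity) (by linarith),
            ← ENNReal.ofReal_mul (by positivity)]
      _ ≤ _ := by
          refine ENNReal.ofReal_le_ofReal (DC_pow hCA.le hB0 hW0 hX1 (by linarith) (by linarith)
            (by ring) ?_)
          have h1 : δ0 * (q / 2) ≤ δ0 * 1 := mul_le_mul_of_nonneg_left (by linarith) hδ0.le
          have h2 : (δ0 / 2 - 1) * (1 - q / 2) + (θ + δ0) * (q / 2) =
              -2 * δ0 + δ0 * (q / 2) + δ0 / 2 * (1 - q / 2) := by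
            rw [hδdef]
            ring
          have h3 : δ0 / 2 * (1 - q / 2) ≤ δ0 / 2 * 1 :=
            mul_le_mul_of_nonneg_left (by linarith) (by positivity)
          rw [h2]
          linarith
  have hLc : ∫⁻ x in Aᶜ, ‖∑ p ∈ T, γ p * F p x‖ₑ ≤
      ENNReal.ofReal (CM * W * X ^ (-(ε * N))) := by
    refine (DC_L1 F T hFT Aᶜ (CM * X ^ (-(ε * N))) (by positivity)
      h1p (fun p hp => ?_) γ hγ).trans
      (ENNReal.ofReal_le_ofReal ?_)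
    · have hpS := hTS hp
      have hmp : m p = j := (Finset.mem_filter.1 hp).2
      have hsub : Aᶜ ⊆ {x : E d | X ^ ε < |‖x - p.1‖ - p.2|} := by
        intro x hx
        by_contra h
        exact hx (hAp p hpS hmp x (not_lt.1 h))
      refine (lintegral_mono_set hsub).trans ((hTM p (X ^ ε) (h1p p hp) hlam).trans
        (ENNReal.ofReal_le_ofReal (le_of_eq ?_)))
      have h8 : (X ^ ε) ^ N = X ^ (ε * N) := by
        rw [← Real.rpow_natCast, ← Real.rpow_mul hX0.le]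
      rw [h8, Real.rpow_neg hX0.le]
      ring
    · have h1 : 0 ≤ CM * X ^ (-(ε * N)) := by positivity
      calc CM * X ^ (-(ε * N)) * wt T ≤ CM * X ^ (-(ε * N)) * W :=
            mul_le_mul_of_nonneg_left hwTS h1
        _ = CM * W * X ^ (-(ε * N)) := by ring
  have hpB : ∫⁻ x in Aᶜ, ‖∑ p ∈ T, γ p * F p x‖ₑ ^ q ≤
      ENNReal.ofReal (CM ^ (2 - q) * B ^ (q - 1) * (W * X ^ (-(δ0 / 2)))) := by
    refine (DC_B hg Aᶜ hq1 hq2').trans ?_
    calc (∫⁻ x in Aᶜ, ‖∑ p ∈ T, γ p * F p x‖ₑ) ^ (2 - q) *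
          (∫⁻ x, ‖∑ p ∈ T, γ p * F p x‖ₑ ^ (2 : ℝ)) ^ (q - 1)
        ≤ (ENNReal.ofReal (CM * W * X ^ (-(ε * N)))) ^ (2 - q) *
          (ENNReal.ofReal (B * W * X ^ (θ + δ0))) ^ (q - 1) := by
          gcongr
      _ = ENNReal.ofReal ((CM * W * X ^ (-(ε * N))) ^ (2 - q) *
          (B * W * X ^ (θ + δ0)) ^ (q - 1)) := by
          rw [ENNReal.ofReal_rpow_of_nonneg (by positivity) (by linarith),
            ENNReal.ofReal_rpow_of_nonneg (by positivity) (by linarith),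
            ← ENNReal.ofReal_mul (by positivity)]
      _ ≤ _ := by
          refine ENNReal.ofReal_le_ofReal (DC_pow hCM.le hB0 hW0 hX1 (by linarith) (by linarith)
            (by ring) ?_)
          linarith
  rw [← lintegral_add_compl _ hAm]
  refine (add_le_add hpA hpB).trans ?_
  rw [← ENNReal.ofReal_add (by positivity) (by positivity)]
  refine ENNReal.ofReal_le_ofReal ?_
  have h1 : X ^ (-(δ0 / 2)) = (2 : ℝ) ^ (-(δ0 / 2 * j)) := by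
    rw [hX, ← Real.rpow_natCast, ← Real.rpow_mul (by norm_num)]
    congr 1
    ring
  rw [h1]
  have h2 : 0 ≤ (2 : ℝ) ^ (-(δ0 / 2 * j)) * W := by positivity
  linarith [h2]

end Pool.LibTH93
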