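import Pool.Agent.LibTP53.Defs

set_option autoImplicit false

noncomputable section

open MeasureTheory Metric Set Filter

namespace Pool.LibTH93

open Pool.LibSR53 Pool.LibTP53

/-- density of T around the points of S at most u, at all radii up to 64 times the scale -/
def DensT {d : ℕ} (T : Finset (P d)) (u : ℝ) (S : Finset (P d)) : Prop :=
  ∀ k : ℕ, ∀ p ∈ sc k S, ∀ i : ℕ, i ≤ k + 6 →
    ((nb (sc k T) p ((2 : ℝ) ^ i)).card : ℝ) ≤ u * 2 ^ i

/-- level function: density about 2^j (radii up to 64 times the scale) -/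
structure LevT {d : ℕ} (T : Finset (P d)) (m : P d → ℕ) : Prop where
  dens : ∀ j : ℕ, DensT T ((2 : ℝ) ^ (j + 1)) (lev T m j)
  big : ∀ k : ℕ, ∀ p ∈ sc k T, ∃ i : ℕ, i ≤ k + 6 ∧
    (2 : ℝ) ^ (m p + i) ≤ ((nb (sc k T) p ((2 : ℝ) ^ i)).card : ℝ)

/-- the two defects -/
def D1 {d : ℕ} (p q : P d) : ℝ := |‖p.1 - q.1‖ - (|p.2 - q.2|)|

def D2 {d : ℕ} (p q : P d) : ℝ := |‖p.1 - q.1‖ - (p.2 + q.2)|

/-- size bounds for the Gram matrix, with localisation also for different scales -/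
structure KerX {H : Type} [NormedAddCommGroup H] [InnerProductSpace ℂ H]
    (d : ℕ) (C : ℝ) (v : P d → H) : Prop extends KerL d C v where
  crossL : ∀ p q : P d, 1 ≤ p.2 → 4 * p.2 ≤ q.2 →
    ‖(inner ℂ (v p) (v q) : ℂ)‖ ≤ C * p.2 ^ (nu d) * Wf p q
  crossF : ∀ p q : P d, 1 ≤ p.2 → 4 * p.2 ≤ q.2 → 4 * q.2 ≤ ‖p.1 - q.1‖ →
    ‖(inner ℂ (v p) (v q) : ℂ)‖ ≤ C * p.2 ^ (nu d) / ‖p.1 - q.1‖ ^ (d + 6)

/-- the radii of R at distance at most h of c -/
def Rn (R : Finset ℝ) (c h : ℝ) : Finset ℝ :=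
  open scoped Classical in R.filter (fun r => |r - c| ≤ h)

/-- the centres of Y at distance at most h of y -/
def Yn {d : ℕ} (Y : Finset (E d)) (y : E d) (h : ℝ) : Finset (E d) :=
  open scoped Classical in Y.filter (fun z => dist z y ≤ h)

end Pool.LibTH93
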