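import Pool.Agent.LibTH93.Defs
import Pool.Agent.LibTP53.CA
import Pool.Agent.LibSR53.C1

/-
PLAN (XA). Norm of the inner product <= sum over q in sc l S of sum over p in sc k S of |<v p, v q>| (|gamma| <= 1). 4 p.2 <= q.2 since k+3 <= l. Fix q. NEAR part norm(p.1-q.1) <= 2^(l+4): every centre y = p.1 is in Y and
(y, q.2) is in nb (sc l (Y x R)) q (2^(l+4)) (l+4 <= l+6): at most u 2^(l+4) centres; for each centre the sum of Wf p q over p = (y,r), r in R, is <= 12 (Wf_sum; Wf (y,r) q = Wf q (y,r) by norm_sub_rev,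
abs_sub_comm, add_comm); crossL: <= C0 p.2^(nu 3) Wf, p.2^(nu 3) = p.2 < 2^(k+1). Total <= C0 2^(k+1) 12 u 2^(l+4). FAR part norm > 2^(l+4) >= 4 q.2: crossF: <= C0 2^(k+1)/norm^9; the points of Y x R are
1-separated (Sep, Prod.dist_eq), shells 2^(l+j) < dist p q <= 2^(l+j+1) (dist = norm there), j >= 4: packing (LibSR53.C1, h = 1): <= C 2^(4(l+j+1)) points: sum <= C 2^(k+1) 2^(-5l) <= C u 2^k 2^l.
-/

set_option autoImplicit false

noncomputable section

open MeasureTheory Metric Set Filter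

namespace Pool.LibTH93

open Pool.LibSR53 Pool.LibTP53

private theorem XA_nu : nu 3 = 1 := by
  unfold nu; norm_num

private theorem XA_Wf_comm {d : ℕ} (p q : P d) : Wf p q = Wf q p := by
  unfold Wf
  rw [norm_sub_rev, abs_sub_comm p.2 q.2, add_comm p.2 q.2]

private theorem XA_Wf_nonneg {d : ℕ} (p q : P d) : 0 ≤ Wf p q := by
  unfold Wf; positivity

private theorem XA_mem_sc {d : ℕ} (k : ℕ) (S : Finset (P d)) (q : P d) : q ∈ sc k S ↔
    q ∈ S ∧ (2 : ℝ) ^ k ≤ q.2 ∧ q.2 < (2 : ℝ) ^ (k + 1) := by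
  simp only [sc, Finset.mem_filter]

/-- the number of centres near q -/
private theorem XA_centres (Y : Finset (E 3)) (R : Finset ℝ) (S : Finset (P 3)) (u : ℝ)
    (hS : S ⊆ Y ×ˢ R) (hD : DensT (Y ×ˢ R) u S) (l : ℕ) (q : P 3) (hq : q ∈ sc l S)
    (Z : Finset (E 3)) (hZ : Z ⊆ Y) (hZq : ∀ y ∈ Z, ‖y - q.1‖ ≤ 2 ^ (l + 4)) :
    (Z.card : ℝ) ≤ u * 2 ^ (l + 4) := by
  classical
  refine le_trans ?_ (hD l q hq (l + 4) (by omega))
  have hinj : Function.Injective (fun y : E 3 => ((y, q.2) : P 3)) := by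
    intro a b h
    exact (Prod.mk.inj h).1
  have h1 : Z.card = (Z.image (fun y : E 3 => ((y, q.2) : P 3))).card :=
    (Finset.card_image_of_injective _ hinj).symm
  rw [h1]
  have h2 : (Z.image (fun y : E 3 => ((y, q.2) : P 3))) ⊆
      nb (sc l (Y ×ˢ R)) q ((2 : ℝ) ^ (l + 4)) := by
    intro x hx
    obtain ⟨y, hy, rfl⟩ := Finset.mem_image.mp hx
    have hq' := (XA_mem_sc l S q).1 hq
    simp only [nb, Finset.mem_filter]
    rw [XA_mem_sc]
    refine ⟨⟨Finset.mem_product.2 ⟨hZ hy, (Finset.mem_product.1 (hS hq'.1)).2⟩, hq'.2⟩, ?_⟩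
    rw [Prod.dist_eq, max_le_iff]
    refine ⟨?_, ?_⟩
    · rw [dist_eq_norm]
      exact hZq y hy
    · rw [dist_self]; positivity
  exact_mod_cast Finset.card_le_card h2

/-- far points: tail of a packing -/
private theorem XA_far : ∃ C : ℝ, 0 < C ∧ ∀ (q : P 3) (T : Finset (P 3)),
    (∀ a ∈ T, ∀ b ∈ T, a ≠ b → 1 ≤ dist a b) → (∀ a ∈ T, 1 ≤ ‖a.1 - q.1‖) →
    (∀ a ∈ T, |a.2 - q.2| ≤ ‖a.1 - q.1‖) →
    ∑ p ∈ T, 1 / ‖p.1 - q.1‖ ^ 9 ≤ C := by
  classical
  obtain ⟨C1, hC1, hp⟩ := packing 3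
  refine ⟨32 * C1, by positivity, fun q T hT h1 h2 => ?_⟩
  set f : P 3 → ℕ := fun p => Nat.log 2 ⌊‖p.1 - q.1‖⌋₊ with hf
  set M : ℕ := T.sup f with hM
  have hmaps : ∀ p ∈ T, f p ∈ Finset.range (M + 1) := by
    intro p hp
    rw [Finset.mem_range]
    exact Nat.lt_succ_of_le (Finset.le_sup (f := f) hp)
  rw [← Finset.sum_fiberwise_of_maps_to hmaps]
  have hlow : ∀ p ∈ T, (2 : ℝ) ^ (f p) ≤ ‖p.1 - q.1‖ := by
    intro p hpT
    have h3 : ⌊‖p.1 - q.1‖⌋₊ ≠ 0 := by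
      have : 1 ≤ ⌊‖p.1 - q.1‖⌋₊ := Nat.le_floor (by exact_mod_cast h1 p hpT)
      omega
    have h4 := Nat.pow_log_le_self 2 h3
    have h5 : ((2 ^ (Nat.log 2 ⌊‖p.1 - q.1‖⌋₊) : ℕ) : ℝ) ≤ (⌊‖p.1 - q.1‖⌋₊ : ℝ) := by
      exact_mod_cast h4
    have h6 := Nat.floor_le (norm_nonneg (p.1 - q.1))
    push_cast at h5
    exact h5.trans h6
  have hup : ∀ p ∈ T, ‖p.1 - q.1‖ ≤ (2 : ℝ) ^ (f p + 1) := by
    intro p hpT
    have h4 : ⌊‖p.1 - q.1‖⌋₊ < 2 ^ (Nat.log 2 ⌊‖p.1 - q.1‖⌋₊ + 1) :=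
      Nat.lt_pow_succ_log_self (by norm_num) _
    have h5 : ((⌊‖p.1 - q.1‖⌋₊ : ℕ) : ℝ) + 1 ≤ ((2 ^ (Nat.log 2 ⌊‖p.1 - q.1‖⌋₊ + 1) : ℕ) : ℝ) := by
      exact_mod_cast h4
    have h6 := (Nat.lt_floor_add_one ‖p.1 - q.1‖).le
    push_cast at h5
    exact h6.trans h5
  have hfib : ∀ n ∈ Finset.range (M + 1),
      ∑ p ∈ T.filter (fun p => f p = n), 1 / ‖p.1 - q.1‖ ^ 9 ≤ 16 * C1 * (1 / 2) ^ n := by
    intro n _
    have hb : ∀ p ∈ T.filter (fun p => f p = n), 1 / ‖p.1 - q.1‖ ^ 9 ≤ 1 / ((2 : ℝ) ^ n) ^ 9 := by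
      intro p hp
      rw [Finset.mem_filter] at hp
      have h3 := hlow p hp.1
      rw [hp.2] at h3
      apply one_div_le_one_div_of_le (by positivity)
      exact pow_le_pow_left₀ (by positivity) h3 9
    refine (Finset.sum_le_card_nsmul _ _ _ hb).trans ?_
    rw [nsmul_eq_mul]
    have hcard : ((T.filter (fun p => f p = n)).card : ℝ) ≤ C1 * ((2 : ℝ) ^ (n + 1) / 1) ^ (3 + 1) := by
      apply hp 1 ((2 : ℝ) ^ (n + 1)) one_pos (one_le_pow₀ (by norm_num)) q
      · intro a ha b hb hab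
        rw [Finset.mem_filter] at ha hb
        exact hT a ha.1 b hb.1 hab
      · intro a ha
        rw [Finset.mem_filter] at ha
        have h3 := hup a ha.1
        rw [ha.2] at h3
        rw [Prod.dist_eq, max_le_iff]
        refine ⟨?_, ?_⟩
        · rw [dist_eq_norm]; exact h3
        · rw [Real.dist_eq]; exact (h2 a ha.1).trans h3
    have h7 : (0 : ℝ) < 2 ^ n := by positivity
    calc ((T.filter (fun p => f p = n)).card : ℝ) * (1 / ((2 : ℝ) ^ n) ^ 9)
        ≤ (C1 * ((2 : ℝ) ^ (n + 1) / 1) ^ (3 + 1)) * (1 / ((2 : ℝ) ^ n) ^ 9) :=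
          mul_le_mul_of_nonneg_right hcard (by positivity)
      _ = 16 * C1 * (1 / ((2 : ℝ) ^ n) ^ 5) := by
          rw [pow_succ (2 : ℝ) n]
          field_simp
          ring
      _ ≤ 16 * C1 * (1 / 2) ^ n := by
          apply mul_le_mul_of_nonneg_left _ (by positivity)
          rw [one_div_pow]
          apply one_div_le_one_div_of_le h7
          have h8 : (1 : ℝ) ≤ 2 ^ n := one_le_pow₀ (by norm_num)
          calc (2 : ℝ) ^ n = (2 ^ n) ^ 1 := (pow_one _).symm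
            _ ≤ (2 ^ n) ^ 5 := pow_le_pow_right₀ h8 (by norm_num)
  refine (Finset.sum_le_sum hfib).trans ?_
  rw [← Finset.mul_sum]
  have h9 := sum_geometric_two_le (M + 1)
  nlinarith [hC1]

/-- two different scales -/
theorem cross_scaleT {H : Type} [NormedAddCommGroup H] [InnerProductSpace ℂ H] (C0 : ℝ)
    (v : P 3 → H) (hv : KerX 3 C0 v) : ∃ C : ℝ, 0 < C ∧
    ∀ (Y : Finset (E 3)) (R : Finset ℝ) (S : Finset (P 3)) (u : ℝ), Pool.LibTP53.Sep Y R → S ⊆ Y ×ˢ R →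
    1 ≤ u → DensT (Y ×ˢ R) u S → ∀ (k l : ℕ), k + 3 ≤ l →
    ∀ γ : P 3 → ℂ, (∀ p, ‖γ p‖ ≤ 1) →
    ‖(inner ℂ (∑ p ∈ sc k S, γ p • v p) (∑ p ∈ sc l S, γ p • v p) : ℂ)‖ ≤
      C * u * 2 ^ k * 2 ^ l * ((sc l S).card : ℝ) := by
  classical
  obtain ⟨C2, hC2, hfar⟩ := XA_far
  have hC0 : 0 < C0 := hv.toKerL.toKer.pos
  refine ⟨384 * C0 + 2 * C0 * C2, by positivity, ?_⟩
  intro Y R S u hsep hS hu hD k l hkl γ hγ
  have hk0 : (0 : ℝ) < 2 ^ k := by positivity
  have hl1 : (1 : ℝ) ≤ 2 ^ l := one_le_pow₀ (by norm_num)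
  -- row sums
  have hrow : ∀ q ∈ sc l S, ∑ p ∈ sc k S, ‖(inner ℂ (v p) (v q) : ℂ)‖ ≤
      (384 * C0 + 2 * C0 * C2) * u * 2 ^ k * 2 ^ l := by
    intro q hq
    have hq' := (XA_mem_sc l S q).1 hq
    have hp1 : ∀ p ∈ sc k S, 1 ≤ p.2 ∧ p.2 < 2 ^ (k + 1) ∧ 4 * p.2 ≤ q.2 := by
      intro p hp
      have hp' := (XA_mem_sc k S p).1 hp
      refine ⟨le_trans (one_le_pow₀ (by norm_num)) hp'.2.1, hp'.2.2, ?_⟩
      have h1 : (2 : ℝ) ^ (k + 3) ≤ 2 ^ l := pow_le_pow_right₀ (by norm_num) hkl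
      have h2 : (2 : ℝ) ^ (k + 3) = 4 * 2 ^ (k + 1) := by ring
      linarith [hp'.2.2, hq'.2.1]
    rw [← Finset.sum_filter_add_sum_filter_not (sc k S) (fun p => ‖p.1 - q.1‖ ≤ 2 ^ (l + 4))]
    have hnear : ∑ p ∈ (sc k S).filter (fun p => ‖p.1 - q.1‖ ≤ 2 ^ (l + 4)),
        ‖(inner ℂ (v p) (v q) : ℂ)‖ ≤ 384 * C0 * u * 2 ^ k * 2 ^ l := by
      set Z : Finset (E 3) := Y.filter (fun y => ‖y - q.1‖ ≤ 2 ^ (l + 4)) with hZ
      have hcard := XA_centres Y R S u hS hD l q hq Z (Finset.filter_subset _ _)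
        (fun y hy => (Finset.mem_filter.1 hy).2)
      calc ∑ p ∈ (sc k S).filter (fun p => ‖p.1 - q.1‖ ≤ 2 ^ (l + 4)),
            ‖(inner ℂ (v p) (v q) : ℂ)‖
          ≤ ∑ p ∈ (sc k S).filter (fun p => ‖p.1 - q.1‖ ≤ 2 ^ (l + 4)),
            C0 * 2 ^ (k + 1) * Wf q p := by
            apply Finset.sum_le_sum
            intro p hp
            rw [Finset.mem_filter] at hp
            obtain ⟨h1, h2, h3⟩ := hp1 p hp.1
            have h4 := hv.crossL p q h1 h3
            rw [XA_nu, Real.rpow_one, XA_Wf_comm] at h4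
            refine h4.trans ?_
            apply mul_le_mul_of_nonneg_right _ (XA_Wf_nonneg q p)
            exact mul_le_mul_of_nonneg_left h2.le hC0.le
        _ ≤ ∑ p ∈ Z ×ˢ R, C0 * 2 ^ (k + 1) * Wf q p := by
            apply Finset.sum_le_sum_of_subset_of_nonneg
            · intro p hp
              rw [Finset.mem_filter] at hp
              have hp' := (XA_mem_sc k S p).1 hp.1
              have h5 := Finset.mem_product.1 (hS hp'.1)
              exact Finset.mem_product.2 ⟨Finset.mem_filter.2 ⟨h5.1, hp.2⟩, h5.2⟩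
            · intro p _ _
              have := XA_Wf_nonneg q p
              positivity
        _ = C0 * 2 ^ (k + 1) * ∑ y ∈ Z, ∑ r ∈ R, Wf q ((y, r) : P 3) := by
            rw [Finset.sum_product, Finset.mul_sum]
            apply Finset.sum_congr rfl
            intro y _
            rw [Finset.mul_sum]
        _ ≤ C0 * 2 ^ (k + 1) * ∑ y ∈ Z, (12 : ℝ) := by
            apply mul_le_mul_of_nonneg_left _ (by positivity)
            apply Finset.sum_le_sum
            intro y _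
            exact Wf_sum R hsep.rsep q y
        _ = C0 * 2 ^ (k + 1) * 12 * (Z.card : ℝ) := by
            rw [Finset.sum_const, nsmul_eq_mul]; ring
        _ ≤ C0 * 2 ^ (k + 1) * 12 * (u * 2 ^ (l + 4)) :=
            mul_le_mul_of_nonneg_left hcard (by positivity)
        _ = 384 * C0 * u * 2 ^ k * 2 ^ l := by ring
    have hfarp : ∑ p ∈ (sc k S).filter (fun p => ¬ ‖p.1 - q.1‖ ≤ 2 ^ (l + 4)),
        ‖(inner ℂ (v p) (v q) : ℂ)‖ ≤ 2 * C0 * C2 * 2 ^ k := by
      calc ∑ p ∈ (sc k S).filter (fun p => ¬ ‖p.1 - q.1‖ ≤ 2 ^ (l + 4)),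
            ‖(inner ℂ (v p) (v q) : ℂ)‖
          ≤ ∑ p ∈ (sc k S).filter (fun p => ¬ ‖p.1 - q.1‖ ≤ 2 ^ (l + 4)),
            C0 * 2 ^ (k + 1) * (1 / ‖p.1 - q.1‖ ^ 9) := by
            apply Finset.sum_le_sum
            intro p hp
            rw [Finset.mem_filter, not_le] at hp
            obtain ⟨h1, h2, h3⟩ := hp1 p hp.1
            have h5 : (2 : ℝ) ^ (l + 4) = 8 * 2 ^ (l + 1) := by ring
            have h6 : 4 * q.2 ≤ ‖p.1 - q.1‖ := by
              have := hq'.2.2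
              have h7 : (0 : ℝ) < 2 ^ (l + 1) := by positivity
              linarith [hp.2]
            have h4 := hv.crossF p q h1 h3 h6
            rw [XA_nu, Real.rpow_one] at h4
            refine h4.trans ?_
            have h8 : 0 < ‖p.1 - q.1‖ := lt_trans (by positivity) hp.2
            rw [mul_one_div]
            exact div_le_div_of_nonneg_right (mul_le_mul_of_nonneg_left h2.le hC0.le) (by positivity)
        _ = C0 * 2 ^ (k + 1) * ∑ p ∈ (sc k S).filter (fun p => ¬ ‖p.1 - q.1‖ ≤ 2 ^ (l + 4)),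
              (1 / ‖p.1 - q.1‖ ^ 9) := by rw [Finset.mul_sum]
        _ ≤ C0 * 2 ^ (k + 1) * C2 := by
            apply mul_le_mul_of_nonneg_left _ (by positivity)
            apply hfar
            · intro a ha b hb hab
              rw [Finset.mem_filter] at ha hb
              have ha' := Finset.mem_product.1 (hS ((XA_mem_sc k S a).1 ha.1).1)
              have hb' := Finset.mem_product.1 (hS ((XA_mem_sc k S b).1 hb.1).1)
              rw [Prod.dist_eq]
              by_cases h9 : a.1 = b.1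
              · have h10 : a.2 ≠ b.2 := fun h => hab (Prod.ext h9 h)
                refine le_trans ?_ (le_max_right _ _)
                rw [Real.dist_eq]
                exact hsep.rsep _ ha'.2 _ hb'.2 h10
              · refine le_trans ?_ (le_max_left _ _)
                exact hsep.ysep _ ha'.1 _ hb'.1 h9
            · intro a ha
              rw [Finset.mem_filter, not_le] at ha
              exact le_trans (one_le_pow₀ (by norm_num)) ha.2.le
            · intro a ha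
              rw [Finset.mem_filter, not_le] at ha
              obtain ⟨h1, h2, h3⟩ := hp1 a ha.1
              have h5 : (2 : ℝ) ^ (l + 4) = 8 * 2 ^ (l + 1) := by ring
              have h7 : (0 : ℝ) < 2 ^ (l + 1) := by positivity
              have h11 := hq'.2.2
              rw [abs_le]
              constructor <;> linarith [ha.2]
        _ = 2 * C0 * C2 * 2 ^ k := by ring
    have h12 : 2 * C0 * C2 * 2 ^ k ≤ 2 * C0 * C2 * u * 2 ^ k * 2 ^ l := by
      have h13 : (1 : ℝ) ≤ u * 2 ^ l := by nlinarith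
      have h14 : 0 ≤ 2 * C0 * C2 * 2 ^ k := by positivity
      calc 2 * C0 * C2 * 2 ^ k = (2 * C0 * C2 * 2 ^ k) * 1 := (mul_one _).symm
        _ ≤ (2 * C0 * C2 * 2 ^ k) * (u * 2 ^ l) := mul_le_mul_of_nonneg_left h13 h14
        _ = 2 * C0 * C2 * u * 2 ^ k * 2 ^ l := by ring
    calc _ ≤ 384 * C0 * u * 2 ^ k * 2 ^ l + 2 * C0 * C2 * 2 ^ k := add_le_add hnear hfarp
      _ ≤ 384 * C0 * u * 2 ^ k * 2 ^ l + 2 * C0 * C2 * u * 2 ^ k * 2 ^ l := by linarith
      _ = (384 * C0 + 2 * C0 * C2) * u * 2 ^ k * 2 ^ l := by ring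
  rw [inner_sum]
  calc ‖∑ q ∈ sc l S, inner ℂ (∑ p ∈ sc k S, γ p • v p) (γ q • v q)‖
      ≤ ∑ q ∈ sc l S, ‖(inner ℂ (∑ p ∈ sc k S, γ p • v p) (γ q • v q) : ℂ)‖ := norm_sum_le _ _
    _ ≤ ∑ q ∈ sc l S, (384 * C0 + 2 * C0 * C2) * u * 2 ^ k * 2 ^ l := by
        apply Finset.sum_le_sum
        intro q hq
        refine le_trans ?_ (hrow q hq)
        rw [sum_inner]
        refine (norm_sum_le _ _).trans ?_
        apply Finset.sum_le_sum
        intro p _
        rw [inner_smul_left, inner_smul_right, norm_mul, norm_mul, RCLike.norm_conj]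
        have h1 := hγ p
        have h2 := hγ q
        have h3 := norm_nonneg (inner ℂ (v p) (v q) : ℂ)
        calc ‖γ p‖ * (‖γ q‖ * ‖(inner ℂ (v p) (v q) : ℂ)‖)
            ≤ 1 * (1 * ‖(inner ℂ (v p) (v q) : ℂ)‖) := by
              apply mul_le_mul h1 _ (by positivity) zero_le_one
              exact mul_le_mul_of_nonneg_right h2 h3
          _ = ‖(inner ℂ (v p) (v q) : ℂ)‖ := by ring
    _ = (384 * C0 + 2 * C0 * C2) * u * 2 ^ k * 2 ^ l * ((sc l S).card : ℝ) := by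
        rw [Finset.sum_const, nsmul_eq_mul]; ring

end Pool.LibTH93
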