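import Pool.Agent.LibTH93.LG
import Pool.Agent.LibTH93.XA
import Pool.Agent.LibSR53.L4

/-
PLAN (XB). S is the disjoint union of sc k S, k <= K (radii >= 1 by Sep.one_le). G k = sum over sc k S. |sum_k G k|^2 <= sum_k sum_l |<G k, G l>|. Let 2^N >= u, N <= C (1 + log u). Pairs with |k - l| < N + 3:
|<G k, G l>| <= (|G k|^2 + |G l|^2)/2, total <= (2N + 6) sum_k |G k|^2 <= C (1+log u)^2 u^(1/2) sum_k 4^k card (same_scaleT). Pairs l >= k + N + 3 (and symmetric): cross_scaleT: <= C u 2^(k-l) 4^l card (sc l S),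
sum over k <= l - N: u 2^(k-l) summed <= 2 u 2^(-N) <= 2. wt S = sum p.2^2 >= sum_k 4^k card (sc k S). u^(1/2) >= 1. (Compare total, LibSR53.L4.)
-/

set_option autoImplicit false

noncomputable section

open MeasureTheory Metric Set Filter

namespace Pool.LibTH93

open Pool.LibSR53 Pool.LibTP53

private theorem xb_sum {H : Type} [NormedAddCommGroup H] [InnerProductSpace ℂ H] (g : ℕ → H)
    (a : ℕ → ℝ) (ha : ∀ k, 0 ≤ a k) (A B : ℝ) (_hA : 0 ≤ A) (hB : 0 ≤ B)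
    (h1 : ∀ k, ‖g k‖ ^ 2 ≤ A * a k)
    (h2 : ∀ k l, k + 3 ≤ l → ‖(inner ℂ (g k) (g l) : ℂ)‖ ≤ B * (1 / 2 : ℝ) ^ (l - k) * a l)
    (m : ℕ) (hm : 3 ≤ m) (N : ℕ) :
    ‖∑ k ∈ Finset.range N, g k‖ ^ 2 ≤
      (2 * (m : ℝ) * A + 4 * (B * (1 / 2 : ℝ) ^ m)) * ∑ k ∈ Finset.range N, a k := by
  classical
  have e1 : ‖∑ k ∈ Finset.range N, g k‖ ^ 2 ≤
      ∑ k ∈ Finset.range N, ∑ l ∈ Finset.range N, ‖(inner ℂ (g k) (g l) : ℂ)‖ := by
    have e2 : ‖∑ k ∈ Finset.range N, g k‖ ^ 2 =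
        RCLike.re (inner ℂ (∑ k ∈ Finset.range N, g k) (∑ k ∈ Finset.range N, g k) : ℂ) :=
      (norm_sq_eq_re_inner (𝕜 := ℂ) _)
    rw [e2]
    calc RCLike.re (inner ℂ (∑ k ∈ Finset.range N, g k) (∑ k ∈ Finset.range N, g k) : ℂ)
        ≤ ‖(inner ℂ (∑ k ∈ Finset.range N, g k) (∑ k ∈ Finset.range N, g k) : ℂ)‖ :=
          RCLike.re_le_norm _
      _ = ‖∑ k ∈ Finset.range N, ∑ l ∈ Finset.range N, (inner ℂ (g k) (g l) : ℂ)‖ := by
          rw [sum_inner]
          congr 1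
          exact Finset.sum_congr rfl fun k _ => inner_sum _ _ _
      _ ≤ ∑ k ∈ Finset.range N, ∑ l ∈ Finset.range N, ‖(inner ℂ (g k) (g l) : ℂ)‖ :=
          (norm_sum_le _ _).trans (Finset.sum_le_sum fun k _ => norm_sum_le _ _)
  have e3 : ∀ k l : ℕ, ‖(inner ℂ (g k) (g l) : ℂ)‖ ≤
      (if (l < k + m ∧ k < l + m) then ‖g k‖ ^ 2 / 2 else 0) +
      (if (k < l + m ∧ l < k + m) then ‖g l‖ ^ 2 / 2 else 0) +
      (if k + m ≤ l then B * (1 / 2 : ℝ) ^ (l - k) * a l else 0) +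
      (if l + m ≤ k then B * (1 / 2 : ℝ) ^ (k - l) * a k else 0) := by
    intro k l
    by_cases h : l < k + m ∧ k < l + m
    · rw [if_pos h, if_pos ⟨h.2, h.1⟩, if_neg (by omega), if_neg (by omega)]
      have e4 := norm_inner_le_norm (𝕜 := ℂ) (g k) (g l)
      nlinarith only [e4, sq_nonneg (‖g k‖ - ‖g l‖)]
    · rw [if_neg h, if_neg (fun h' => h ⟨h'.2, h'.1⟩)]
      by_cases h' : k + m ≤ l
      · rw [if_pos h', if_neg (by omega)]
        have := h2 k l (by omega)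
        linarith only [this]
      · have h'' : l + m ≤ k := by
          by_contra hc
          exact h ⟨by omega, by omega⟩
        rw [if_neg h', if_pos h'']
        have := h2 l k (by omega)
        rw [norm_inner_symm] at this
        linarith only [this]
  have n1 : ∀ k ∈ Finset.range N, ∑ l ∈ Finset.range N,
      (if (l < k + m ∧ k < l + m) then ‖g k‖ ^ 2 / 2 else 0) ≤ (m : ℝ) * A * a k := by
    intro k _
    rw [← Finset.sum_filter, Finset.sum_const, nsmul_eq_mul]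
    have e6 : (((Finset.range N).filter (fun l => l < k + m ∧ k < l + m)).card : ℝ) ≤
        2 * (m : ℝ) := by
      have e7 : (Finset.range N).filter (fun l => l < k + m ∧ k < l + m) ⊆
          Finset.Ico (k + 1 - m) (k + m) := by
        intro l hl
        rw [Finset.mem_filter] at hl
        rw [Finset.mem_Ico]
        omega
      have e8 := Finset.card_le_card e7
      rw [Nat.card_Ico] at e8
      have : ((Finset.range N).filter (fun l => l < k + m ∧ k < l + m)).card ≤ 2 * m := by omega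
      exact_mod_cast this
    have e9 := h1 k
    have e10 : 0 ≤ ‖g k‖ ^ 2 := sq_nonneg _
    have e11 : (0 : ℝ) ≤ (m : ℝ) := Nat.cast_nonneg _
    calc (((Finset.range N).filter (fun l => l < k + m ∧ k < l + m)).card : ℝ) *
          (‖g k‖ ^ 2 / 2)
        ≤ 2 * (m : ℝ) * (‖g k‖ ^ 2 / 2) := mul_le_mul_of_nonneg_right e6 (by positivity)
      _ = (m : ℝ) * ‖g k‖ ^ 2 := by ring
      _ ≤ (m : ℝ) * (A * a k) := mul_le_mul_of_nonneg_left e9 e11
      _ = (m : ℝ) * A * a k := by ring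
  have n2 : ∀ l ∈ Finset.range N, ∑ k ∈ Finset.range N,
      (if k + m ≤ l then B * (1 / 2 : ℝ) ^ (l - k) * a l else 0) ≤
        2 * (B * (1 / 2 : ℝ) ^ m) * a l := by
    intro l _
    have hal := ha l
    have g1 : ∀ M : ℕ, ∑ k ∈ Finset.range M, (if k + m ≤ l then (1 / 2 : ℝ) ^ (l - k) else 0) ≤
        2 * (1 / 2 : ℝ) ^ m := by
      intro M
      have g2 : ∀ M : ℕ, M + m ≤ l + 1 →
          ∑ k ∈ Finset.range M, (1 / 2 : ℝ) ^ (l - k) ≤ 2 * (1 / 2 : ℝ) ^ (l + 1 - M) := by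
        intro M
        induction M with
        | zero =>
          intro _
          rw [Finset.range_zero, Finset.sum_empty]
          positivity
        | succ M ih =>
          intro hM
          rw [Finset.sum_range_succ]
          have i1 := ih (by omega)
          have i2 : l + 1 - M = (l - M) + 1 := by omega
          have i3 : l + 1 - (M + 1) = l - M := by omega
          rw [i2, pow_succ] at i1
          rw [i3]
          linarith only [i1]
      rw [← Finset.sum_filter]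
      by_cases hml : m ≤ l
      · have g3 : (Finset.range M).filter (fun k => k + m ≤ l) ⊆ Finset.range (l + 1 - m) := by
          intro k hk
          rw [Finset.mem_filter] at hk
          rw [Finset.mem_range]
          omega
        refine (Finset.sum_le_sum_of_subset_of_nonneg g3 fun k _ _ => by positivity).trans ?_
        refine (g2 (l + 1 - m) (by omega)).trans ?_
        have g4 : l + 1 - (l + 1 - m) = m := by omega
        rw [g4]
      · have g3 : (Finset.range M).filter (fun k => k + m ≤ l) = ∅ := by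
          rw [Finset.filter_eq_empty_iff]
          intro k _
          omega
        rw [g3, Finset.sum_empty]
        positivity
    have g5 : ∑ k ∈ Finset.range N, (if k + m ≤ l then B * (1 / 2 : ℝ) ^ (l - k) * a l else 0) =
        B * a l * ∑ k ∈ Finset.range N, (if k + m ≤ l then (1 / 2 : ℝ) ^ (l - k) else 0) := by
      rw [Finset.mul_sum]
      refine Finset.sum_congr rfl fun k _ => ?_
      split_ifs
      · ring
      · ring
    rw [g5]
    calc B * a l * ∑ k ∈ Finset.range N, (if k + m ≤ l then (1 / 2 : ℝ) ^ (l - k) else 0)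
        ≤ B * a l * (2 * (1 / 2 : ℝ) ^ m) :=
          mul_le_mul_of_nonneg_left (g1 N) (mul_nonneg hB hal)
      _ = 2 * (B * (1 / 2 : ℝ) ^ m) * a l := by ring
  calc ‖∑ k ∈ Finset.range N, g k‖ ^ 2
      ≤ ∑ k ∈ Finset.range N, ∑ l ∈ Finset.range N, ‖(inner ℂ (g k) (g l) : ℂ)‖ := e1
    _ ≤ ∑ k ∈ Finset.range N, ∑ l ∈ Finset.range N,
        ((if (l < k + m ∧ k < l + m) then ‖g k‖ ^ 2 / 2 else 0) +
      (if (k < l + m ∧ l < k + m) then ‖g l‖ ^ 2 / 2 else 0) +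
      (if k + m ≤ l then B * (1 / 2 : ℝ) ^ (l - k) * a l else 0) +
      (if l + m ≤ k then B * (1 / 2 : ℝ) ^ (k - l) * a k else 0)) :=
        Finset.sum_le_sum fun k _ => Finset.sum_le_sum fun l _ => e3 k l
    _ = ∑ k ∈ Finset.range N, ∑ l ∈ Finset.range N,
          (if (l < k + m ∧ k < l + m) then ‖g k‖ ^ 2 / 2 else 0) +
        ∑ l ∈ Finset.range N, ∑ k ∈ Finset.range N,
          (if (k < l + m ∧ l < k + m) then ‖g l‖ ^ 2 / 2 else 0) +
        ∑ l ∈ Finset.range N, ∑ k ∈ Finset.range N,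
          (if k + m ≤ l then B * (1 / 2 : ℝ) ^ (l - k) * a l else 0) +
        ∑ k ∈ Finset.range N, ∑ l ∈ Finset.range N,
          (if l + m ≤ k then B * (1 / 2 : ℝ) ^ (k - l) * a k else 0) := by
        have s1 : ∑ k ∈ Finset.range N, ∑ l ∈ Finset.range N,
            (if (k < l + m ∧ l < k + m) then ‖g l‖ ^ 2 / 2 else 0) =
            ∑ l ∈ Finset.range N, ∑ k ∈ Finset.range N,
            (if (k < l + m ∧ l < k + m) then ‖g l‖ ^ 2 / 2 else 0) := Finset.sum_comm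
        have s2 : ∑ k ∈ Finset.range N, ∑ l ∈ Finset.range N,
            (if k + m ≤ l then B * (1 / 2 : ℝ) ^ (l - k) * a l else 0) =
            ∑ l ∈ Finset.range N, ∑ k ∈ Finset.range N,
            (if k + m ≤ l then B * (1 / 2 : ℝ) ^ (l - k) * a l else 0) := Finset.sum_comm
        simp only [Finset.sum_add_distrib]
        rw [s1, s2]
    _ ≤ ∑ k ∈ Finset.range N, (m : ℝ) * A * a k + ∑ k ∈ Finset.range N, (m : ℝ) * A * a k +
        ∑ k ∈ Finset.range N, 2 * (B * (1 / 2 : ℝ) ^ m) * a k +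
        ∑ k ∈ Finset.range N, 2 * (B * (1 / 2 : ℝ) ^ m) * a k :=
        add_le_add (add_le_add (add_le_add (Finset.sum_le_sum n1) (Finset.sum_le_sum n1))
          (Finset.sum_le_sum n2)) (Finset.sum_le_sum n2)
    _ = _ := by
        rw [← Finset.mul_sum, ← Finset.mul_sum]; ring

private theorem xb_split {d : ℕ} (S : Finset (P d)) (hS : ∀ p ∈ S, 1 ≤ p.2) :
    ∃ N : ℕ, (∀ (M : Type) [AddCommMonoid M] (f : P d → M),
      ∑ k ∈ Finset.range N, ∑ p ∈ sc k S, f p = ∑ p ∈ S, f p) := by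
  classical
  have h1 : ∀ p : P d, 1 ≤ p.2 → ∃ k : ℕ, (2 : ℝ) ^ k ≤ p.2 ∧ p.2 < (2 : ℝ) ^ (k + 1) :=
    fun p hp => exists_nat_pow_near hp one_lt_two
  choose! κ hκ using h1
  refine ⟨S.sup κ + 1, fun M _ f => ?_⟩
  rw [← Finset.sum_fiberwise_of_maps_to (s := S) (t := Finset.range (S.sup κ + 1)) (g := κ)
    (fun p hp => Finset.mem_range.mpr (Nat.lt_succ_of_le (Finset.le_sup hp)))]
  refine Finset.sum_congr rfl fun k _ => ?_
  refine Finset.sum_congr ?_ fun _ _ => rfl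
  ext p
  unfold sc
  rw [Finset.mem_filter, Finset.mem_filter]
  constructor
  · rintro ⟨hp, h2, h3⟩
    refine ⟨hp, ?_⟩
    obtain ⟨h4, h5⟩ := hκ p (hS p hp)
    have h6 : κ p < k + 1 := (pow_lt_pow_iff_right₀ (one_lt_two (α := ℝ))).mp (h4.trans_lt h3)
    have h7 : k < κ p + 1 := (pow_lt_pow_iff_right₀ (one_lt_two (α := ℝ))).mp (h2.trans_lt h5)
    omega
  · rintro ⟨hp, h2⟩
    subst h2
    exact ⟨hp, hκ p (hS p hp)⟩

/-- the L2 estimate for products in dimension three -/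
theorem totalT {H : Type} [NormedAddCommGroup H] [InnerProductSpace ℂ H] (C0 : ℝ)
    (v : P 3 → H) (hv : KerX 3 C0 v) : ∃ C : ℝ, 0 < C ∧
    ∀ (Y : Finset (E 3)) (R : Finset ℝ) (S : Finset (P 3)) (u : ℝ), Pool.LibTP53.Sep Y R → S ⊆ Y ×ˢ R →
    1 ≤ u → DensT (Y ×ˢ R) u S → ∀ γ : P 3 → ℂ, (∀ p, ‖γ p‖ ≤ 1) →
    ‖∑ p ∈ S, γ p • v p‖ ^ 2 ≤ C * (1 + Real.log u) ^ 2 * u ^ ((1 : ℝ) / 2) * wt S := by
  obtain ⟨C1, hC1, H1⟩ := same_scaleT C0 v hv.toKerL
  obtain ⟨C2, hC2, H2⟩ := cross_scaleT C0 v hv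
  refine ⟨8 * C1 + 4 * C2, by positivity, ?_⟩
  intro Y R S u hsep hSY hu hD γ hγ
  have hS1 : ∀ p ∈ S, 1 ≤ p.2 := fun p hp =>
    hsep.one_le p.2 (Finset.mem_product.1 (hSY hp)).2
  obtain ⟨N, hN⟩ := xb_split S hS1
  have hu0 : 0 < u := by linarith only [hu]
  have hlogu : 0 ≤ Real.log u := Real.log_nonneg hu
  have hlog2 : 0 < Real.log 2 := Real.log_pos one_lt_two
  have hlog2' : (1 / 2 : ℝ) < Real.log 2 := by
    have := Real.log_two_gt_d9
    linarith only [this]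
  obtain ⟨n0, hn0⟩ : ∃ n0 : ℕ, n0 = ⌈Real.log u / Real.log 2⌉₊ := ⟨_, rfl⟩
  have hn1 : (n0 : ℝ) ≤ 2 * Real.log u + 1 := by
    have c1 : (n0 : ℝ) < Real.log u / Real.log 2 + 1 := by
      rw [hn0]; exact Nat.ceil_lt_add_one (div_nonneg hlogu hlog2.le)
    have c2 : Real.log u / Real.log 2 ≤ 2 * Real.log u := by
      rw [div_le_iff₀ hlog2]
      nlinarith only [hlogu, hlog2']
    linarith only [c1, c2]
  have hn2 : u * (1 / 2 : ℝ) ^ n0 ≤ 1 := by
    have c1 : Real.log u / Real.log 2 ≤ (n0 : ℝ) := by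
      rw [hn0]; exact Nat.le_ceil _
    have c2 : Real.log u ≤ (n0 : ℝ) * Real.log 2 := (div_le_iff₀ hlog2).mp c1
    have c3 : u ≤ (2 : ℝ) ^ n0 := by
      rw [← Real.log_le_log_iff hu0 (by positivity), Real.log_pow]
      exact c2
    have c4 : (1 / 2 : ℝ) ^ n0 = 1 / (2 : ℝ) ^ n0 := by rw [div_pow, one_pow]
    rw [c4, mul_one_div]
    exact (div_le_one (by positivity)).2 c3
  have huh : 1 ≤ u ^ ((1 : ℝ) / 2) := Real.one_le_rpow hu (by norm_num)
  have hmain := xb_sum (fun k => ∑ p ∈ sc k S, γ p • v p)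
    (fun k => (4 : ℝ) ^ k * ((sc k S).card : ℝ)) (fun k => by positivity)
    (C1 * (1 + Real.log u) * u ^ ((1 : ℝ) / 2)) (C2 * u) (by positivity) (by positivity)
    (fun k => by
      have := H1 Y R S u hsep hSY hu hD k γ hγ
      rw [← mul_assoc]; exact this)
    (fun k l hkl => by
      have h3 := H2 Y R S u hsep hSY hu hD k l hkl γ hγ
      refine h3.trans (le_of_eq ?_)
      have h4 : (4 : ℝ) ^ l = 2 ^ l * 2 ^ l := by rw [← mul_pow]; norm_num
      have h5 : (2 : ℝ) ^ l = 2 ^ k * 2 ^ (l - k) := by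
        rw [← pow_add]
        congr 1
        omega
      have h6 : (1 / 2 : ℝ) ^ (l - k) * 2 ^ (l - k) = 1 := by
        rw [← mul_pow]; norm_num
      have h7 : (1 / 2 : ℝ) ^ (l - k) * 2 ^ l = 2 ^ k := by
        rw [h5]
        calc (1 / 2 : ℝ) ^ (l - k) * (2 ^ k * 2 ^ (l - k))
            = 2 ^ k * ((1 / 2 : ℝ) ^ (l - k) * 2 ^ (l - k)) := by ring
          _ = 2 ^ k := by rw [h6, mul_one]
      rw [h4, ← h7]
      ring) (n0 + 3) (by omega) N
  simp only [hN] at hmain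
  have hwt : ∑ k ∈ Finset.range N, (4 : ℝ) ^ k * ((sc k S).card : ℝ) ≤ wt S := by
    unfold wt
    rw [← hN ℝ (fun p : P 3 => p.2 ^ (3 - 1))]
    refine Finset.sum_le_sum fun k _ => ?_
    rw [mul_comm, ← nsmul_eq_mul]
    refine Finset.card_nsmul_le_sum _ _ _ fun p hp => ?_
    unfold sc at hp
    rw [Finset.mem_filter] at hp
    have h4 : (4 : ℝ) ^ k = (2 ^ k) ^ (3 - 1) := by
      rw [← pow_mul, mul_comm k (3 - 1), pow_mul]
      norm_num
    rw [h4]
    exact pow_le_pow_left₀ (by positivity) hp.2.1 _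
  have hwt0 : 0 ≤ ∑ k ∈ Finset.range N, (4 : ℝ) ^ k * ((sc k S).card : ℝ) :=
    Finset.sum_nonneg fun k _ => by positivity
  have hcoef : 2 * ((n0 + 3 : ℕ) : ℝ) * (C1 * (1 + Real.log u) * u ^ ((1 : ℝ) / 2)) +
      4 * (C2 * u * (1 / 2 : ℝ) ^ (n0 + 3)) ≤
      (8 * C1 + 4 * C2) * (1 + Real.log u) ^ 2 * u ^ ((1 : ℝ) / 2) := by
    have x1 : 0 < C1 * (1 + Real.log u) * u ^ ((1 : ℝ) / 2) := by positivity
    have t0 : 2 * ((n0 + 3 : ℕ) : ℝ) ≤ 8 * (1 + Real.log u) := by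
      push_cast
      linarith only [hn1, hlogu]
    have t1 : 2 * ((n0 + 3 : ℕ) : ℝ) * (C1 * (1 + Real.log u) * u ^ ((1 : ℝ) / 2)) ≤
        8 * (1 + Real.log u) * (C1 * (1 + Real.log u) * u ^ ((1 : ℝ) / 2)) :=
      mul_le_mul_of_nonneg_right t0 x1.le
    have t3 : C2 * u * (1 / 2 : ℝ) ^ (n0 + 3) ≤ C2 := by
      have e1 : C2 * u * (1 / 2 : ℝ) ^ (n0 + 3) = C2 * (u * (1 / 2 : ℝ) ^ n0) * (1 / 8) := by
        rw [pow_add]; norm_num; ring
      rw [e1]
      have e2 : C2 * (u * (1 / 2 : ℝ) ^ n0) ≤ C2 * 1 :=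
        mul_le_mul_of_nonneg_left hn2 hC2.le
      linarith only [e2, hC2]
    have t4 : (1 : ℝ) ≤ (1 + Real.log u) ^ 2 * u ^ ((1 : ℝ) / 2) := by
      have e1 : (1 : ℝ) ≤ (1 + Real.log u) ^ 2 := by nlinarith only [hlogu]
      nlinarith only [e1, huh]
    have t5 : C2 ≤ C2 * ((1 + Real.log u) ^ 2 * u ^ ((1 : ℝ) / 2)) :=
      le_mul_of_one_le_right hC2.le t4
    calc _ ≤ 8 * (1 + Real.log u) * (C1 * (1 + Real.log u) * u ^ ((1 : ℝ) / 2)) +
          4 * (C2 * ((1 + Real.log u) ^ 2 * u ^ ((1 : ℝ) / 2))) := by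
          linarith only [t1, t3, t5]
      _ = _ := by ring
  calc ‖∑ p ∈ S, γ p • v p‖ ^ 2 ≤ _ := hmain
    _ ≤ (8 * C1 + 4 * C2) * (1 + Real.log u) ^ 2 * u ^ ((1 : ℝ) / 2) *
        ∑ k ∈ Finset.range N, (4 : ℝ) ^ k * ((sc k S).card : ℝ) :=
        mul_le_mul_of_nonneg_right hcoef hwt0
    _ ≤ _ := mul_le_mul_of_nonneg_left hwt (by positivity)

end Pool.LibTH93
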