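import Pool.Agent.LibTH93.FA
import Pool.Agent.LibTP53.IA
import Pool.Agent.LibTP53.FB

/-
PLAN (FB). As discrete_int / discrete_prod (LibTP53.FB), simpler: b r = Int.clog 2 (g r): g r <= 2^(b r) <= 2 g r. J = image of b on R, R_n = R.filter (b = n), f n = sum over Y x R_n of gamma F, m n = wt (Y x R_n) >= 0.
level_Fk3 for Y, R_n (Sep of a subset) with gamma scaled by 2^(-n) (and 0 outside Y x R_n), exponents s (1 < s < p close to p) and (p-1)s/(s-1) as in FB. interp_levels (IA). Last: sum over n in J of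
(2^n)^p wt (Y x R_n) = sum over Y x R of (2^(b q.2))^p q.2^2 <= 2^p sum (g q.2)^p q.2^2 (Finset.sum_fiberwise_of_maps_to).
-/

set_option autoImplicit false

noncomputable section

open MeasureTheory Metric Set Filter

namespace Pool.LibTH93

open Pool.LibSR53 Pool.LibTP53

/-- one level, coefficients at most 2^j -/
private lemma FB_piece {d : ℕ} (F : P d → E d → ℂ) (T : Finset (P d)) (t C0 M : ℝ) (ht : 0 < t)
    (h1 : ∀ γ : P d → ℂ, (∀ i, ‖γ i‖ ≤ 1) →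
      ∫⁻ x, ‖∑ i ∈ T, γ i * F i x‖ₑ ^ t ≤ ENNReal.ofReal (C0 * M))
    (j : ℤ) (γ : P d → ℂ) (hγ : ∀ i ∈ T, ‖γ i‖ ≤ (2 : ℝ) ^ j) :
    ∫⁻ x, ‖∑ i ∈ T, γ i * F i x‖ₑ ^ t ≤
      ENNReal.ofReal (C0 * ((2 : ℝ) ^ j) ^ t * M) := by
  classical
  have h2j : (0 : ℝ) < 2 ^ j := zpow_pos two_pos j
  let γ' : P d → ℂ := fun i => if i ∈ T then γ i / ((2 : ℝ) ^ j : ℝ) else 0
  have hγ' : ∀ i, ‖γ' i‖ ≤ 1 := by
    intro i
    by_cases hi : i ∈ T
    · have h0 : γ' i = γ i / ((2 : ℝ) ^ j : ℝ) := if_pos hi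
      rw [h0, norm_div, Complex.norm_real, Real.norm_of_nonneg h2j.le, div_le_one h2j]
      exact hγ i hi
    · have h0 : γ' i = 0 := if_neg hi
      rw [h0, norm_zero]
      exact zero_le_one
  have e1 : ∀ x, ∑ i ∈ T, γ i * F i x = (((2 : ℝ) ^ j : ℝ) : ℂ) * ∑ i ∈ T, γ' i * F i x := by
    intro x
    rw [Finset.mul_sum]
    refine Finset.sum_congr rfl fun i hi => ?_
    have h0 : γ' i = γ i / ((2 : ℝ) ^ j : ℝ) := if_pos hi
    have h3 : (((2 : ℝ) ^ j : ℝ) : ℂ) ≠ 0 := Complex.ofReal_ne_zero.2 h2j.ne'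
    rw [h0]
    field_simp
  have e2 : ∀ x, ‖∑ i ∈ T, γ i * F i x‖ₑ ^ t =
      ENNReal.ofReal (((2 : ℝ) ^ j) ^ t) * ‖∑ i ∈ T, γ' i * F i x‖ₑ ^ t := by
    intro x
    rw [e1, enorm_mul, ENNReal.mul_rpow_of_nonneg _ _ ht.le]
    congr 1
    rw [← ofReal_norm, Complex.norm_real, Real.norm_of_nonneg h2j.le,
      ENNReal.ofReal_rpow_of_nonneg h2j.le ht.le]
  simp only [e2]
  rw [lintegral_const_mul' _ _ ENNReal.ofReal_ne_top]
  calc ENNReal.ofReal (((2 : ℝ) ^ j) ^ t) * ∫⁻ x, ‖∑ i ∈ T, γ' i * F i x‖ₑ ^ t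
      ≤ ENNReal.ofReal (((2 : ℝ) ^ j) ^ t) * ENNReal.ofReal (C0 * M) := by
        gcongr
        exact h1 γ' hγ'
    _ = ENNReal.ofReal (((2 : ℝ) ^ j) ^ t * (C0 * M)) := by
        rw [ENNReal.ofReal_mul (Real.rpow_nonneg h2j.le _)]
    _ = _ := by
        congr 1
        ring

/-- the discrete inequality for coefficients dominated by a function of the radius -/
theorem discreteR (η : SchwartzMap (E 3) ℂ) (ε : ℝ) (hε : 0 < ε)
    (hη : Van η ε) (p : ℝ) (hp1 : 1 < p) (hp2 : p * (1 + (1 : ℝ) / 2) < 2) :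
    ∃ C : ℝ, 0 < C ∧ ∀ (Y : Finset (E 3)) (R : Finset ℝ) (g : ℝ → ℝ), Pool.LibTP53.Sep Y R →
      (∀ r ∈ R, 0 < g r) →
      ∀ γ : P 3 → ℂ, (∀ q ∈ Y ×ˢ R, ‖γ q‖ ≤ g q.2) →
      ∫⁻ x, ‖∑ q ∈ Y ×ˢ R, γ q * Fk η q.1 q.2 x‖ₑ ^ p ≤
        ENNReal.ofReal (C * ∑ q ∈ Y ×ˢ R, (g q.2) ^ p * q.2 ^ (3 - 1)) := by
  classical
  have hpθ : p < 2 := by nlinarith
  obtain ⟨s, hs1, hs2, hs3⟩ : ∃ s : ℝ, 1 < s ∧ s < p ∧
      (p - 1) * s / (s - 1) * (1 + (1 : ℝ) / 2) < 2 := by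
    have hcont : ContinuousAt (fun s : ℝ => (p - 1) * s / (s - 1) * (1 + (1 : ℝ) / 2)) p := by
      apply ContinuousAt.mul _ continuousAt_const
      apply ContinuousAt.div
      · exact (continuous_const.mul continuous_id).continuousAt
      · exact (continuous_id.sub continuous_const).continuousAt
      · linarith
    have hval : (p - 1) * p / (p - 1) * (1 + (1 : ℝ) / 2) < 2 := by
      rw [mul_div_assoc, mul_div_cancel₀ _ (by linarith : p - 1 ≠ 0)]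
      exact hp2
    have hev : ∀ᶠ s in nhds p, (p - 1) * s / (s - 1) * (1 + (1 : ℝ) / 2) < 2 :=
      hcont.eventually_lt continuousAt_const hval
    obtain ⟨r, hr, hball⟩ := Metric.eventually_nhds_iff.mp hev
    refine ⟨max ((1 + p) / 2) (p - r / 2), ?_, ?_, ?_⟩
    · exact lt_of_lt_of_le (by linarith) (le_max_left _ _)
    · exact max_lt (by linarith) (by linarith)
    · apply hball
      rw [Real.dist_eq, abs_lt]
      constructor
      · have := le_max_right ((1 + p) / 2) (p - r / 2)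
        linarith
      · have : max ((1 + p) / 2) (p - r / 2) < p := max_lt (by linarith) (by linarith)
        linarith
  have hq2 : 1 < (p - 1) * s / (s - 1) := by
    rw [lt_div_iff₀ (by linarith)]
    nlinarith
  obtain ⟨Ca, hCa, ha⟩ := level_Fk3 η ε hε hη s hs1 (by nlinarith)
  obtain ⟨Cb, hCb, hb⟩ := level_Fk3 η ε hε hη _ hq2 hs3
  obtain ⟨Ci, hCi, hi⟩ := interp_levels p s (Ca + Cb) hp1 hpθ hs1 hs2 (by linarith)
  refine ⟨Ci * 2 ^ p, mul_pos hCi (by positivity), ?_⟩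
  intro Y R g hS hg γ hγ
  have hup : ∀ t : ℝ, t ≤ (2 : ℝ) ^ (Int.clog 2 t) := by
    intro t
    have := Int.self_le_zpow_clog (b := 2) (by norm_num) t
    exact_mod_cast this
  have hlow : ∀ t : ℝ, 0 < t → (2 : ℝ) ^ (Int.clog 2 t) ≤ 2 * t := by
    intro t ht
    have h3 := Int.zpow_pred_clog_lt_self (b := 2) (by norm_num) ht
    have h4 : (2 : ℝ) ^ (Int.clog 2 t) = 2 * (2 : ℝ) ^ (Int.clog 2 t - 1) := by
      rw [zpow_sub_one₀ two_ne_zero]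
      field_simp
    rw [h4]
    have h5 : (2 : ℝ) ^ (Int.clog 2 t - 1) ≤ t := by exact_mod_cast h3.le
    linarith
  set b : ℝ → ℤ := fun r => Int.clog 2 (g r) with hb_def
  set J : Finset ℤ := R.image b with hJ
  set Rb : ℤ → Finset ℝ := fun n => R.filter (fun r => b r = n) with hRb
  have hRb_sub : ∀ n, Rb n ⊆ R := fun n => Finset.filter_subset _ _
  have hRb_b : ∀ n, ∀ r ∈ Rb n, b r = n := fun n r hr => (Finset.mem_filter.1 hr).2
  have hSn : ∀ n, Pool.LibTP53.Sep Y (Rb n) := fun n =>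
    ⟨hS.ysep, fun r hr s hs => hS.rsep r (hRb_sub n hr) s (hRb_sub n hs),
      fun r hr => hS.one_le r (hRb_sub n hr)⟩
  have hT1 : ∀ q ∈ Y ×ˢ R, 1 ≤ q.2 := fun q hq => hS.one_le q.2 (Finset.mem_product.1 hq).2
  have hsub : ∀ n, Y ×ˢ Rb n ⊆ Y ×ˢ R := fun n =>
    Finset.product_subset_product_right (hRb_sub n)
  have hm : ∀ n, 0 ≤ wt (Y ×ˢ Rb n) := fun n => Finset.sum_nonneg fun q hq =>
    pow_nonneg (by linarith [hT1 q (hsub n hq)]) _
  have hγn : ∀ n, ∀ q ∈ Y ×ˢ Rb n, ‖γ q‖ ≤ (2 : ℝ) ^ n := by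
    intro n q hq
    have h1 := hγ q (hsub n hq)
    have h2 := hRb_b n q.2 (Finset.mem_product.1 hq).2
    rw [← h2]
    exact h1.trans (hup _)
  have hmeas : ∀ j ∈ J, AEStronglyMeasurable
      (fun x => ∑ q ∈ Y ×ˢ Rb j, γ q * Fk η q.1 q.2 x) (volume : Measure (E 3)) := by
    intro j _
    refine Finset.aestronglyMeasurable_fun_sum _ fun q hq => ?_
    exact aestronglyMeasurable_const.mul
      (Fk_continuous (by norm_num) η q.1 q.2
        (by linarith [hT1 q (hsub j hq)])).aestronglyMeasurable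
  have hsA : ∀ j ∈ J, ∫⁻ x, ‖∑ q ∈ Y ×ˢ Rb j, γ q * Fk η q.1 q.2 x‖ₑ ^ s ≤
      ENNReal.ofReal ((Ca + Cb) * ((2 : ℝ) ^ j) ^ s * wt (Y ×ˢ Rb j)) := by
    intro j _
    refine (FB_piece (fun q => Fk η q.1 q.2) (Y ×ˢ Rb j) s Ca (wt (Y ×ˢ Rb j)) (by linarith)
      (fun γ' hγ' => ha Y (Rb j) (hSn j) γ' hγ') j γ (hγn j)).trans
        (ENNReal.ofReal_le_ofReal ?_)
    refine mul_le_mul_of_nonneg_right (mul_le_mul_of_nonneg_right (by linarith) ?_) (hm j)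
    exact Real.rpow_nonneg (zpow_pos two_pos j).le _
  have hsB : ∀ j ∈ J, ∫⁻ x, ‖∑ q ∈ Y ×ˢ Rb j, γ q * Fk η q.1 q.2 x‖ₑ ^
      ((p - 1) * s / (s - 1)) ≤
      ENNReal.ofReal ((Ca + Cb) * ((2 : ℝ) ^ j) ^ ((p - 1) * s / (s - 1)) *
        wt (Y ×ˢ Rb j)) := by
    intro j _
    refine (FB_piece (fun q => Fk η q.1 q.2) (Y ×ˢ Rb j) _ Cb (wt (Y ×ˢ Rb j)) (by linarith)
      (fun γ' hγ' => hb Y (Rb j) (hSn j) γ' hγ') j γ (hγn j)).trans
        (ENNReal.ofReal_le_ofReal ?_)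
    refine mul_le_mul_of_nonneg_right (mul_le_mul_of_nonneg_right (by linarith) ?_) (hm j)
    exact Real.rpow_nonneg (zpow_pos two_pos j).le _
  have hmain := hi (volume : Measure (E 3)) J
    (fun j x => ∑ q ∈ Y ×ˢ Rb j, γ q * Fk η q.1 q.2 x) (fun j => wt (Y ×ˢ Rb j)) hmeas hm
    hsA hsB
  have hfib : ∀ j, (Y ×ˢ R).filter (fun q => b q.2 = j) = Y ×ˢ Rb j := by
    intro j
    ext q
    simp only [Finset.mem_filter, Finset.mem_product, hRb]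
    tauto
  have hmaps : ∀ q ∈ Y ×ˢ R, b q.2 ∈ J := fun q hq =>
    Finset.mem_image_of_mem b (Finset.mem_product.1 hq).2
  have hdec : ∀ x, ∑ q ∈ Y ×ˢ R, γ q * Fk η q.1 q.2 x =
      ∑ j ∈ J, ∑ q ∈ Y ×ˢ Rb j, γ q * Fk η q.1 q.2 x := by
    intro x
    have h1 := (Finset.sum_fiberwise_of_maps_to (s := Y ×ˢ R) (t := J)
      (g := fun q : P 3 => b q.2) hmaps (fun q => γ q * Fk η q.1 q.2 x)).symm
    rw [h1]
    refine Finset.sum_congr rfl fun j _ => ?_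
    rw [hfib j]
  have hsum : ∑ j ∈ J, ((2 : ℝ) ^ j) ^ p * wt (Y ×ˢ Rb j) =
      ∑ q ∈ Y ×ˢ R, ((2 : ℝ) ^ (b q.2)) ^ p * q.2 ^ (3 - 1) := by
    have h1 := (Finset.sum_fiberwise_of_maps_to (s := Y ×ˢ R) (t := J)
      (g := fun q : P 3 => b q.2) hmaps
      (fun q => ((2 : ℝ) ^ (b q.2)) ^ p * q.2 ^ (3 - 1))).symm
    rw [h1]
    refine Finset.sum_congr rfl fun j _ => ?_
    rw [hfib j, wt, Finset.mul_sum]
    refine Finset.sum_congr rfl fun q hq => ?_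
    rw [hRb_b j q.2 (Finset.mem_product.1 hq).2]
  simp only [hdec]
  refine hmain.trans (ENNReal.ofReal_le_ofReal ?_)
  rw [hsum, mul_assoc]
  refine mul_le_mul_of_nonneg_left ?_ hCi.le
  rw [Finset.mul_sum]
  refine Finset.sum_le_sum fun q hq => ?_
  have hgp := hg _ (Finset.mem_product.1 hq).2
  have hq1 : 1 ≤ q.2 := hT1 q hq
  rw [← mul_assoc]
  refine mul_le_mul_of_nonneg_right ?_ (pow_nonneg (by linarith) _)
  rw [← Real.mul_rpow two_pos.le hgp.le]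
  exact Real.rpow_le_rpow (zpow_pos two_pos _).le (hlow _ hgp) (by linarith)

end Pool.LibTH93
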