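import Pool.Agent.LibTH93.Defs
import Pool.Agent.LibTP53.FC
import Pool.Agent.LibTP53.FD

/-
PLAN (FC). Copy of averagingP (LibTP53.FD, delivered file TP53_FD.lean) with f = indicator of F: Y_q = (Λ1.image (q.1 + .)).filter (in F and norm <= R0), R_q as there; h gives C sum (b')^p r^(d-1) over Y_q x R_q. At the end the double
integral of ‖F.indicator 1 x * b r‖ₑ^p * r^(d-1) is volume F * (integral over r) (inner integral: lintegral_indicator / lintegral_const; outer: lintegral_const_mul with measurability of b).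
-/

set_option autoImplicit false

noncomputable section

open MeasureTheory Metric Set Filter

namespace Pool.LibTH93

open Pool.LibSR53 Pool.LibTP53

/-- the kernel, cut off at radius one -/
private def FC_F {d : ℕ} (η : SchwartzMap (E d) ℂ) (a : P d) (x : E d) : ℂ :=
  if 1 < a.2 then Fk η a.1 a.2 x else 0

private theorem FC_meas {d : ℕ} (hd : 2 ≤ d) (η : SchwartzMap (E d) ℂ) :
    Measurable (fun q : P d × E d => FC_F η q.1 q.2) := by
  classical
  have hs : MeasurableSet {q : P d × E d | 1 < q.1.2} :=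
    measurableSet_lt measurable_const (measurable_snd.comp measurable_fst)
  have h := ContinuousOn.measurable_piecewise
    (f := fun q : P d × E d => Fk η q.1.1 q.1.2 q.2) (g := fun _ => (0 : ℂ))
    (s := {q : P d × E d | 1 < q.1.2})
    ((Fk_joint hd η).mono (fun q (hq : 1 < q.1.2) => (show 0 < q.1.2 by linarith)))
    continuousOn_const hs
  refine (congrArg Measurable (funext fun q => ?_)).mp h
  by_cases hq : 1 < q.1.2
  · rw [Set.piecewise_eq_of_mem _ _ _ (show q ∈ {q : P d × E d | 1 < q.1.2} from hq), FC_F,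
      if_pos hq]
  · rw [Set.piecewise_eq_of_notMem _ _ _ (show q ∉ {q : P d × E d | 1 < q.1.2} from hq), FC_F,
      if_neg hq]

/-- Jensen -/
private theorem FC_jensen {α : Type} [MeasurableSpace α] (μ : Measure α) (f : α → ℂ) (p : ℝ)
    (hp : 1 < p) (hf : AEStronglyMeasurable f μ) :
    ‖∫ a, f a ∂μ‖ₑ ^ p ≤ (μ univ) ^ (p - 1) * ∫⁻ a, ‖f a‖ₑ ^ p ∂μ := by
  have hp0 : 0 < p := by linarith
  have h1 := eLpNorm'_le_eLpNorm'_mul_rpow_measure_univ (p := 1) (q := p) one_pos hp.le hf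
  simp only [eLpNorm', ENNReal.rpow_one, div_one, one_div] at h1
  have h2 : ‖∫ a, f a ∂μ‖ₑ ≤ ∫⁻ a, ‖f a‖ₑ ∂μ := enorm_integral_le_lintegral_enorm f
  calc ‖∫ a, f a ∂μ‖ₑ ^ p ≤ (∫⁻ a, ‖f a‖ₑ ∂μ) ^ p := ENNReal.rpow_le_rpow h2 hp0.le
    _ ≤ ((∫⁻ a, ‖f a‖ₑ ^ p ∂μ) ^ p⁻¹ * (μ univ) ^ (1 - p⁻¹)) ^ p := by
        refine ENNReal.rpow_le_rpow ?_ hp0.le
        simpa using h1
    _ = (μ univ) ^ (p - 1) * ∫⁻ a, ‖f a‖ₑ ^ p ∂μ := by
        rw [ENNReal.mul_rpow_of_nonneg _ _ hp0.le, ← ENNReal.rpow_mul, ← ENNReal.rpow_mul,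
          inv_mul_cancel₀ hp0.ne', ENNReal.rpow_one, mul_comm]
        congr 2
        field_simp

/-- differences of distinct integer points have norm at least one -/
private theorem FC_dist {d : ℕ} (c a b : E d) (ha : ∀ i, ∃ n : ℤ, a i = n)
    (hb : ∀ i, ∃ n : ℤ, b i = n) (hab : c + a ≠ c + b) : 1 ≤ dist (c + a) (c + b) := by
  rw [dist_eq_norm, add_sub_add_left_eq_sub]
  have hne : a ≠ b := fun h => hab (by rw [h])
  obtain ⟨i, hi⟩ : ∃ i, a i ≠ b i := by
    by_contra hcon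
    push Not at hcon
    exact hne (by ext i; exact hcon i)
  obtain ⟨n, hn⟩ := ha i
  obtain ⟨m, hm⟩ := hb i
  have h1 : (a - b) i = ((n - m : ℤ) : ℝ) := by
    rw [PiLp.sub_apply, hn, hm]
    push_cast
    ring
  have h2 : n - m ≠ 0 := by
    intro h0
    apply hi
    rw [hn, hm]
    have : n = m := by omega
    rw [this]
  have h3 : (1 : ℝ) ≤ |((n - m : ℤ) : ℝ)| := by
    rw [← Int.cast_abs]
    exact_mod_cast Int.one_le_abs h2
  have h5 : ‖(a - b) i‖ ≤ ‖a - b‖ := PiLp.norm_apply_le _ i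
  rw [h1, Real.norm_eq_abs] at h5
  linarith

/-- the same for real numbers -/
private theorem FC_abs (c a b : ℝ) (ha : ∃ n : ℤ, a = n) (hb : ∃ n : ℤ, b = n)
    (hab : c + a ≠ c + b) : 1 ≤ |c + a - (c + b)| := by
  rw [add_sub_add_left_eq_sub]
  obtain ⟨n, rfl⟩ := ha
  obtain ⟨m, rfl⟩ := hb
  have h2 : n - m ≠ 0 := by
    intro h0
    apply hab
    have : n = m := by omega
    rw [this]
  have h3 : (1 : ℝ) ≤ |((n - m : ℤ) : ℝ)| := by
    rw [← Int.cast_abs]
    exact_mod_cast Int.one_le_abs h2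
  push_cast at h3
  exact h3

/-- from the discrete inequality on all translates of the lattice to the continuous one -/
theorem averagingR (d : ℕ) (hd : 2 ≤ d) (η : SchwartzMap (E d) ℂ) (p : ℝ) (hp1 : 1 < p)
    (C : ℝ) (hC : 0 < C)
    (h : ∀ (Y : Finset (E d)) (R : Finset ℝ) (g : ℝ → ℝ), Pool.LibTP53.Sep Y R →
      (∀ r ∈ R, 0 < g r) →
      ∀ γ : P d → ℂ, (∀ q ∈ Y ×ˢ R, ‖γ q‖ ≤ g q.2) →
      ∫⁻ x, ‖∑ q ∈ Y ×ˢ R, γ q * Fk η q.1 q.2 x‖ₑ ^ p ≤
        ENNReal.ofReal (C * ∑ q ∈ Y ×ˢ R, (g q.2) ^ p * q.2 ^ (d - 1))) :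
    ∃ C1 : ℝ, 0 < C1 ∧ ∀ (F : Set (E d)) (b : ℝ → ℝ), MeasurableSet F → Measurable b →
      ∀ g : P d → ℂ, Measurable g → (∃ B : ℝ, ∀ z, ‖g z‖ ≤ B) →
      HasCompactSupport g → (∀ x r, x ∉ F → g (x, r) = 0) → (∀ x r, ‖g (x, r)‖ ≤ |b r|) →
      eLpNorm (fun x : E d => ∫ r in Set.Ioi (1 : ℝ), ∫ z : E d, Fk η z r x * g (z, r))
        (ENNReal.ofReal p) volume ≤
      ENNReal.ofReal C1 * (volume F * ∫⁻ r in Set.Ioi (1 : ℝ),
        ‖b r‖ₑ ^ p * ENNReal.ofReal (r ^ (d - 1))) ^ (1 / p) := by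
  classical
  have hp0 : 0 < p := by linarith
  obtain ⟨Q, hQm, hQf, hQ⟩ := lattice_splitP d
  set V : ℝ := (volume Q).toReal with hV
  obtain ⟨CF, hCF, hFk⟩ := Fk_le hd η
  have hVm : 0 < max V 1 := lt_of_lt_of_le one_pos (le_max_right _ _)
  refine ⟨(C * (max V 1) ^ (p - 1)) ^ (1 / p), by positivity, ?_⟩
  rintro F b hF hb g hg ⟨B, hB⟩ hcs hgF hgb0
  obtain ⟨f, hfdef⟩ : ∃ f : E d → ℝ, f = F.indicator (fun _ => (1 : ℝ)) := ⟨_, rfl⟩
  have hf : Measurable f := by
    rw [hfdef]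
    exact measurable_const.indicator hF
  have hf1 : ∀ x, x ∈ F → f x = 1 := fun x hx => by
    rw [hfdef, Set.indicator_of_mem hx]
  have hf0 : ∀ x, x ∉ F → f x = 0 := fun x hx => by
    rw [hfdef, Set.indicator_of_notMem hx]
  have hfb : ∀ x r, ‖g (x, r)‖ ≤ |f x| * |b r| := by
    intro x r
    by_cases hx : x ∈ F
    · rw [hf1 x hx, abs_one, one_mul]
      exact hgb0 x r
    · rw [hf0 x hx, abs_zero, zero_mul, hgF x r hx, norm_zero]
  have hfint : (∫⁻ r in Set.Ioi (1 : ℝ), ∫⁻ x : E d,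
        ‖f x * b r‖ₑ ^ p * ENNReal.ofReal (r ^ (d - 1))) = volume F *
        ∫⁻ r in Set.Ioi (1 : ℝ), ‖b r‖ₑ ^ p * ENNReal.ofReal (r ^ (d - 1)) := by
    rw [← lintegral_const_mul _ (by fun_prop)]
    refine lintegral_congr fun r => ?_
    have h1 : ∀ x : E d, ‖f x * b r‖ₑ ^ p * ENNReal.ofReal (r ^ (d - 1)) =
        F.indicator (fun _ => ‖b r‖ₑ ^ p * ENNReal.ofReal (r ^ (d - 1))) x := by
      intro x
      by_cases hx : x ∈ F
      · rw [hf1 x hx, one_mul, Set.indicator_of_mem hx]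
      · rw [hf0 x hx, zero_mul, enorm_zero, ENNReal.zero_rpow_of_pos hp0, zero_mul,
          Set.indicator_of_notMem hx]
    simp only [h1]
    rw [lintegral_indicator hF, setLIntegral_const, mul_comm]
  rw [← hfint]
  obtain ⟨R, hR⟩ : ∃ R, ∀ a, R < ‖a‖ → g a = 0 := by
    obtain ⟨R, hR⟩ := hcs.isCompact.isBounded.subset_closedBall (0 : P d)
    refine ⟨R, fun a ha => image_eq_zero_of_notMem_tsupport fun h' => ?_⟩
    have := hR h'
    rw [mem_closedBall_zero_iff] at this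
    linarith
  obtain ⟨Λ1, Λ2, hi1, hi2, hΛ1, hΛ2⟩ := hQ R
  -- the cut off factors
  obtain ⟨f', hf'⟩ : ∃ f' : E d → ℝ, f' = fun x => if ‖x‖ ≤ R then |f x| else 0 := ⟨_, rfl⟩
  obtain ⟨b', hb'⟩ : ∃ b' : ℝ → ℝ, b' = fun r => if |r| ≤ R then |b r| else 0 := ⟨_, rfl⟩
  have hf'm : Measurable f' := by
    rw [hf']
    exact Measurable.ite (measurableSet_le measurable_norm measurable_const) hf.norm
      measurable_const
  have hb'm : Measurable b' := by
    rw [hb']
    exact Measurable.ite (measurableSet_le measurable_norm measurable_const) hb.norm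
      measurable_const
  have hf'0 : ∀ x, 0 ≤ f' x := fun x => by
    rw [hf']
    dsimp only
    split_ifs
    · exact abs_nonneg _
    · exact le_rfl
  have hb'0 : ∀ r, 0 ≤ b' r := fun r => by
    rw [hb']
    dsimp only
    split_ifs
    · exact abs_nonneg _
    · exact le_rfl
  have hf'le : ∀ x, f' x ≤ |f x| := fun x => by
    rw [hf']
    dsimp only
    split_ifs
    · exact le_rfl
    · exact abs_nonneg _
  have hb'le : ∀ r, b' r ≤ |b r| := fun r => by
    rw [hb']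
    dsimp only
    split_ifs
    · exact le_rfl
    · exact abs_nonneg _
  have hfb'0 : ∀ a : P d, R < ‖a‖ → f' a.1 * b' a.2 = 0 := by
    intro a ha
    rw [Prod.norm_def, lt_max_iff] at ha
    rcases ha with ha | ha
    · have : f' a.1 = 0 := by
        rw [hf']
        exact if_neg (not_le.mpr ha)
      rw [this, zero_mul]
    · have : b' a.2 = 0 := by
        rw [hb']
        exact if_neg (not_le.mpr ha)
      rw [this, mul_zero]
  have hgb : ∀ a : P d, ‖g a‖ ≤ f' a.1 * b' a.2 := by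
    intro a
    by_cases ha : ‖a‖ ≤ R
    · have h1 : ‖a.1‖ ≤ R := (norm_fst_le a).trans ha
      have h2 : |a.2| ≤ R := (norm_snd_le a).trans ha
      have h3 : f' a.1 = |f a.1| := by
        rw [hf']
        exact if_pos h1
      have h4 : b' a.2 = |b a.2| := by
        rw [hb']
        exact if_pos h2
      rw [h3, h4]
      exact hfb a.1 a.2
    · rw [hR a (not_le.mp ha), norm_zero]
      exact mul_nonneg (hf'0 _) (hb'0 _)
  -- the integrand
  set H : P d → E d → ℂ := fun a x => FC_F η a x * g a with hH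
  have hHm : Measurable (fun q : P d × E d => H q.1 q.2) :=
    (FC_meas hd η).mul (hg.comp measurable_fst)
  have hHx : ∀ x, Measurable (fun a => H a x) := fun x =>
    hHm.comp (measurable_id.prodMk measurable_const)
  have hB0 : 0 ≤ B := (norm_nonneg _).trans (hB 0)
  have hH0 : ∀ a x, R < ‖a‖ → H a x = 0 := fun a x ha => by
    simp only [hH, hR a ha, mul_zero]
  have hint : ∀ x, Integrable (fun a => H a x) := by
    intro x
    have h1 : Integrable ((closedBall (0 : P d) R).indicator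
        (fun _ => CF * (max R 1) ^ (d - 1) * B)) := by
      rw [integrable_indicator_iff measurableSet_closedBall]
      exact integrableOn_const (measure_closedBall_lt_top.ne)
    refine h1.mono' (hHx x).aestronglyMeasurable (ae_of_all _ fun a => ?_)
    by_cases ha : a ∈ closedBall (0 : P d) R
    · rw [Set.indicator_of_mem ha]
      rw [mem_closedBall_zero_iff] at ha
      by_cases h2 : 1 < a.2
      · have h3 : a.2 ≤ max R 1 := by
          have : |a.2| ≤ ‖a‖ := by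
            rw [← Real.norm_eq_abs]
            exact norm_snd_le a
          exact ((le_abs_self _).trans (this.trans ha)).trans (le_max_left _ _)
        simp only [hH, FC_F, if_pos h2, norm_mul]
        refine mul_le_mul ((hFk a.1 a.2 x (by linarith)).trans ?_) (hB a) (norm_nonneg _)
          (by positivity)
        have h4 : 0 ≤ a.2 := by linarith
        gcongr
      · simp only [hH, FC_F, if_neg h2, zero_mul, norm_zero]
        positivity
    · rw [Set.indicator_of_notMem ha]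
      rw [mem_closedBall_zero_iff, not_le] at ha
      rw [hH0 a x ha, norm_zero]
  -- the operator is an integral over the product
  have hT : ∀ x, (∫ r in Set.Ioi (1 : ℝ), ∫ z : E d, Fk η z r x * g (z, r)) =
      ∫ q in Q, ∑ a ∈ Λ1 ×ˢ Λ2, H (q + a) x := by
    intro x
    rw [← hΛ1 (fun a => H a x) (hint x) (fun a ha => hH0 a x ha), Measure.volume_eq_prod,
      integral_prod_symm (fun a => H a x) (by rw [← Measure.volume_eq_prod]; exact hint x),
      ← integral_indicator measurableSet_Ioi]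
    congr 1
    funext r
    by_cases hr : 1 < r
    · rw [Set.indicator_of_mem (show r ∈ Set.Ioi (1 : ℝ) from hr)]
      simp only [hH, FC_F, if_pos hr]
    · rw [Set.indicator_of_notMem (show r ∉ Set.Ioi (1 : ℝ) from hr)]
      simp only [hH, FC_F, if_neg hr, zero_mul, integral_zero]
  -- the weight
  set W : P d → ENNReal := fun a => if 1 < a.2 then
    ‖f' a.1 * b' a.2‖ₑ ^ p * ENNReal.ofReal (a.2 ^ (d - 1)) else 0 with hW
  have hWm : Measurable W := by
    refine Measurable.ite (measurableSet_lt measurable_const measurable_snd) ?_ measurable_const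
    exact ((((hf'm.comp measurable_fst).mul (hb'm.comp measurable_snd)).enorm).pow_const p).mul
      ((measurable_snd.pow_const _).ennreal_ofReal)
  have hWint : (∫⁻ r in Set.Ioi (1 : ℝ), ∫⁻ x : E d,
      ‖f' x * b' r‖ₑ ^ p * ENNReal.ofReal (r ^ (d - 1))) =
      ∫⁻ q in Q, ∑ a ∈ Λ1 ×ˢ Λ2, W (q + a) := by
    rw [← hΛ2 W hWm (fun a ha => by
      simp only [hW, hfb'0 a ha, enorm_zero, ENNReal.zero_rpow_of_pos hp0, zero_mul, ite_self]),
      Measure.volume_eq_prod, lintegral_prod_symm W (by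
        rw [← Measure.volume_eq_prod]; exact hWm.aemeasurable),
      ← lintegral_indicator measurableSet_Ioi]
    congr 1
    funext r
    by_cases hr : 1 < r
    · rw [Set.indicator_of_mem (show r ∈ Set.Ioi (1 : ℝ) from hr)]
      simp only [hW, if_pos hr]
    · rw [Set.indicator_of_notMem (show r ∉ Set.Ioi (1 : ℝ) from hr)]
      simp only [hW, if_neg hr, lintegral_zero]
  -- the discrete inequality for every q
  have hq : ∀ q : P d, ∫⁻ x, ‖∑ a ∈ Λ1 ×ˢ Λ2, H (q + a) x‖ₑ ^ p ≤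
      ENNReal.ofReal C * ∑ a ∈ Λ1 ×ˢ Λ2, W (q + a) := by
    intro q
    obtain ⟨Y, hY⟩ : ∃ Y : Finset (E d), Y = (Λ1.image fun a => q.1 + a).filter
      fun y => 0 < f' y := ⟨_, rfl⟩
    obtain ⟨Rq, hRq⟩ : ∃ Rq : Finset ℝ, Rq = (Λ2.image fun a => q.2 + a).filter
      fun r => 1 < r ∧ 0 < b' r := ⟨_, rfl⟩
    have hinj : Set.InjOn (fun a => q + a) ((Λ1 ×ˢ Λ2 : Finset (P d)) : Set (P d)) :=
      fun a _ b _ hab => add_left_cancel hab
    have hS : Y ×ˢ Rq = (((Λ1 ×ˢ Λ2).image fun a => q + a).filter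
        fun c => 0 < f' c.1 ∧ (1 < c.2 ∧ 0 < b' c.2)) := by
      ext ⟨y, r⟩
      simp only [hY, hRq, Finset.mem_product, Finset.mem_filter, Finset.mem_image, Prod.exists]
      constructor
      · rintro ⟨⟨⟨u, hu, rfl⟩, h1⟩, ⟨⟨v, hv, rfl⟩, h2⟩⟩
        exact ⟨⟨u, v, ⟨hu, hv⟩, rfl⟩, h1, h2⟩
      · rintro ⟨⟨u, v, ⟨hu, hv⟩, huv⟩, h1, h2⟩
        have e1 : q.1 + u = y := congrArg Prod.fst huv
        have e2 : q.2 + v = r := congrArg Prod.snd huv
        exact ⟨⟨⟨u, hu, e1⟩, h1⟩, ⟨⟨v, hv, e2⟩, h2⟩⟩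
    have hSep : Pool.LibTP53.Sep Y Rq := by
      refine ⟨?_, ?_, ?_⟩
      · intro y hy z hz hyz
        rw [hY, Finset.mem_filter, Finset.mem_image] at hy hz
        obtain ⟨⟨u, hu, rfl⟩, -⟩ := hy
        obtain ⟨⟨v, hv, rfl⟩, -⟩ := hz
        exact FC_dist q.1 u v (hi1 u hu) (hi1 v hv) hyz
      · intro y hy z hz hyz
        rw [hRq, Finset.mem_filter, Finset.mem_image] at hy hz
        obtain ⟨⟨u, hu, rfl⟩, -⟩ := hy
        obtain ⟨⟨v, hv, rfl⟩, -⟩ := hz
        exact FC_abs q.2 u v (hi2 u hu) (hi2 v hv) hyz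
      · intro r hr
        rw [hRq, Finset.mem_filter] at hr
        exact hr.2.1.le
    have h1 : ∀ x, ∑ a ∈ Λ1 ×ˢ Λ2, H (q + a) x = ∑ c ∈ Y ×ˢ Rq, g c * Fk η c.1 c.2 x := by
      intro x
      rw [hS, Finset.sum_filter, Finset.sum_image hinj]
      refine Finset.sum_congr rfl fun a _ => ?_
      split_ifs with h2
      · simp only [hH, FC_F, if_pos h2.2.1]
        ring
      · by_cases h3 : 1 < (q + a).2
        · have h4 : f' (q + a).1 * b' (q + a).2 = 0 := by
            by_contra h5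
            have h6 : f' (q + a).1 ≠ 0 := fun h => h5 (by rw [h, zero_mul])
            have h7 : b' (q + a).2 ≠ 0 := fun h => h5 (by rw [h, mul_zero])
            exact h2 ⟨lt_of_le_of_ne (hf'0 _) (Ne.symm h6), h3,
              lt_of_le_of_ne (hb'0 _) (Ne.symm h7)⟩
          have h5 : g (q + a) = 0 := by
            have := hgb (q + a)
            rw [h4] at this
            exact norm_le_zero_iff.mp this
          simp only [hH, h5, mul_zero]
        · simp only [hH, FC_F, if_neg h3, zero_mul]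
    have h2 : ∑ a ∈ Λ1 ×ˢ Λ2, W (q + a) =
        ∑ c ∈ Y ×ˢ Rq, ENNReal.ofReal ((f' c.1 * b' c.2) ^ p * c.2 ^ (d - 1)) := by
      rw [hS, Finset.sum_filter, Finset.sum_image hinj]
      refine Finset.sum_congr rfl fun a _ => ?_
      split_ifs with h2
      · have h3 : 0 ≤ f' (q + a).1 * b' (q + a).2 := mul_nonneg (hf'0 _) (hb'0 _)
        simp only [hW, if_pos h2.2.1]
        rw [ENNReal.ofReal_mul (by positivity), ← ofReal_norm,
          ENNReal.ofReal_rpow_of_nonneg (norm_nonneg _) hp0.le, Real.norm_eq_abs,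
          abs_of_nonneg h3]
      · by_cases h3 : 1 < (q + a).2
        · have h4 : f' (q + a).1 * b' (q + a).2 = 0 := by
            by_contra h5
            have h6 : f' (q + a).1 ≠ 0 := fun h => h5 (by rw [h, zero_mul])
            have h7 : b' (q + a).2 ≠ 0 := fun h => h5 (by rw [h, mul_zero])
            exact h2 ⟨lt_of_le_of_ne (hf'0 _) (Ne.symm h6), h3,
              lt_of_le_of_ne (hb'0 _) (Ne.symm h7)⟩
          simp only [hW, h4, enorm_zero, ENNReal.zero_rpow_of_pos hp0, zero_mul, ite_self]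
        · simp only [hW, if_neg h3]
    simp only [h1]
    have hY1 : ∀ c ∈ Y ×ˢ Rq, f' c.1 = 1 := by
      intro c hc
      rw [Finset.mem_product, hY, Finset.mem_filter] at hc
      have h3 : 0 < f' c.1 := hc.1.2
      by_cases h4 : c.1 ∈ F
      · by_cases h5 : ‖c.1‖ ≤ R
        · have h6 : f' c.1 = |f c.1| := by
            rw [hf']
            exact if_pos h5
          rw [h6, hf1 _ h4, abs_one]
        · have h6 : f' c.1 = 0 := by
            rw [hf']
            exact if_neg h5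
          rw [h6] at h3
          exact absurd h3 (lt_irrefl _)
      · have h6 := hf'le c.1
        rw [hf0 _ h4, abs_zero] at h6
        exact absurd h3 (not_lt.mpr h6)
    refine (h Y Rq b' hSep ?_ g (fun c hc => ?_)).trans ?_
    · intro r hr
      rw [hRq, Finset.mem_filter] at hr
      exact hr.2.2
    · have h3 := hgb c
      rwa [hY1 c hc, one_mul] at h3
    have h4 : ∑ c ∈ Y ×ˢ Rq, (b' c.2) ^ p * c.2 ^ (d - 1) =
        ∑ c ∈ Y ×ˢ Rq, (f' c.1 * b' c.2) ^ p * c.2 ^ (d - 1) := by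
      refine Finset.sum_congr rfl fun c hc => ?_
      rw [hY1 c hc, one_mul]
    rw [h4, h2, ENNReal.ofReal_mul hC.le, ENNReal.ofReal_sum_of_nonneg]
    intro c hc
    have h3 : 1 < c.2 := by
      rw [Finset.mem_product, hRq, Finset.mem_filter] at hc
      exact hc.2.2.1
    have h4 : 0 ≤ c.2 := by linarith
    have h5 : 0 ≤ f' c.1 * b' c.2 := mul_nonneg (hf'0 _) (hb'0 _)
    positivity
  -- joint measurability
  have hΦm : Measurable (fun z : E d × P d => ∑ a ∈ Λ1 ×ˢ Λ2, H (z.2 + a) z.1) := by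
    refine Finset.measurable_fun_sum _ fun a _ => ?_
    exact hHm.comp ((measurable_snd.add_const a).prodMk measurable_fst)
  have hmain : ∫⁻ x : E d, ‖∫ q in Q, ∑ a ∈ Λ1 ×ˢ Λ2, H (q + a) x‖ₑ ^ p ≤
      ENNReal.ofReal (C * (max V 1) ^ (p - 1)) * ∫⁻ q in Q, ∑ a ∈ Λ1 ×ˢ Λ2, W (q + a) := by
    have hVt : (volume.restrict Q univ) ^ (p - 1) ≤ ENNReal.ofReal ((max V 1) ^ (p - 1)) := by
      rw [Measure.restrict_apply_univ, ← ENNReal.ofReal_rpow_of_pos hVm]
      refine ENNReal.rpow_le_rpow ?_ (by linarith)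
      rw [← ENNReal.ofReal_toReal hQf]
      exact ENNReal.ofReal_le_ofReal (le_max_left _ _)
    calc ∫⁻ x : E d, ‖∫ q in Q, ∑ a ∈ Λ1 ×ˢ Λ2, H (q + a) x‖ₑ ^ p
        ≤ ∫⁻ x : E d, ENNReal.ofReal ((max V 1) ^ (p - 1)) *
            ∫⁻ q in Q, ‖∑ a ∈ Λ1 ×ˢ Λ2, H (q + a) x‖ₑ ^ p := by
          refine lintegral_mono fun x => ?_
          refine (FC_jensen _ _ p hp1 ?_).trans ?_
          · exact (hΦm.comp (measurable_const.prodMk measurable_id)).aestronglyMeasurable
          · gcongr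
      _ = ENNReal.ofReal ((max V 1) ^ (p - 1)) *
            ∫⁻ x : E d, ∫⁻ q in Q, ‖∑ a ∈ Λ1 ×ˢ Λ2, H (q + a) x‖ₑ ^ p := by
          rw [lintegral_const_mul' _ _ ENNReal.ofReal_ne_top]
      _ = ENNReal.ofReal ((max V 1) ^ (p - 1)) *
            ∫⁻ q in Q, ∫⁻ x : E d, ‖∑ a ∈ Λ1 ×ˢ Λ2, H (q + a) x‖ₑ ^ p := by
          congr 1
          refine lintegral_lintegral_swap ?_
          exact (hΦm.enorm.pow_const p).aemeasurable
      _ ≤ ENNReal.ofReal ((max V 1) ^ (p - 1)) *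
            ∫⁻ q in Q, ENNReal.ofReal C * ∑ a ∈ Λ1 ×ˢ Λ2, W (q + a) := by
          gcongr
          exact hq _
      _ = ENNReal.ofReal (C * (max V 1) ^ (p - 1)) *
            ∫⁻ q in Q, ∑ a ∈ Λ1 ×ˢ Λ2, W (q + a) := by
          rw [lintegral_const_mul' _ _ ENNReal.ofReal_ne_top, ← mul_assoc,
            ENNReal.ofReal_mul hC.le, mul_comm (ENNReal.ofReal C)]
  have hlast : (∫⁻ r in Set.Ioi (1 : ℝ), ∫⁻ x : E d,
      ‖f' x * b' r‖ₑ ^ p * ENNReal.ofReal (r ^ (d - 1))) ≤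
      ∫⁻ r in Set.Ioi (1 : ℝ), ∫⁻ x : E d,
        ‖f x * b r‖ₑ ^ p * ENNReal.ofReal (r ^ (d - 1)) := by
    refine lintegral_mono fun r => lintegral_mono fun x => ?_
    have h1 : ‖f' x * b' r‖ₑ ≤ ‖f x * b r‖ₑ := by
      rw [← ofReal_norm, ← ofReal_norm]
      refine ENNReal.ofReal_le_ofReal ?_
      rw [norm_mul, norm_mul, Real.norm_eq_abs, Real.norm_eq_abs, Real.norm_eq_abs,
        Real.norm_eq_abs, abs_of_nonneg (hf'0 x), abs_of_nonneg (hb'0 r)]
      exact mul_le_mul (hf'le x) (hb'le r) (hb'0 r) (abs_nonneg _)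
    gcongr
  rw [eLpNorm_eq_lintegral_rpow_enorm_toReal (by simpa using hp0) ENNReal.ofReal_ne_top,
    ENNReal.toReal_ofReal hp0.le]
  simp only [hT]
  calc (∫⁻ x : E d, ‖∫ q in Q, ∑ a ∈ Λ1 ×ˢ Λ2, H (q + a) x‖ₑ ^ p) ^ (1 / p)
      ≤ (ENNReal.ofReal (C * (max V 1) ^ (p - 1)) *
          ∫⁻ q in Q, ∑ a ∈ Λ1 ×ˢ Λ2, W (q + a)) ^ (1 / p) :=
        ENNReal.rpow_le_rpow hmain (by positivity)
    _ = ENNReal.ofReal ((C * (max V 1) ^ (p - 1)) ^ (1 / p)) *
        (∫⁻ q in Q, ∑ a ∈ Λ1 ×ˢ Λ2, W (q + a)) ^ (1 / p) := by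
        rw [ENNReal.mul_rpow_of_nonneg _ _ (by positivity),
          ENNReal.ofReal_rpow_of_nonneg (by positivity) (by positivity)]
    _ ≤ ENNReal.ofReal ((C * (max V 1) ^ (p - 1)) ^ (1 / p)) *
        (∫⁻ r in Set.Ioi (1 : ℝ), ∫⁻ x : E d,
        ‖f x * b r‖ₑ ^ p * ENNReal.ofReal (r ^ (d - 1))) ^ (1 / p) := by
        rw [← hWint]
        gcongr

end Pool.LibTH93
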