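import Pool.Agent.LibTH93.FB
import Pool.Agent.LibTH93.FC

/-
PLAN (FE). Assembly (chair).
-/

set_option autoImplicit false

noncomputable section

open MeasureTheory Metric Set Filter

namespace Pool.LibTH93

open Pool.LibSR53 Pool.LibTP53

theorem mainTH (p : ℝ) (hp1 : 1 < p) (hp2 : p < 4 / 3)
    (η : SchwartzMap (EuclideanSpace ℝ (Fin 3)) ℂ)
    (hη : ∃ ε : ℝ, 0 < ε ∧ ∀ ξ : EuclideanSpace ℝ (Fin 3), ‖ξ‖ < ε →
      ∫ x : EuclideanSpace ℝ (Fin 3),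
        Complex.exp (-(2 * (Real.pi : ℂ) * Complex.I * ((inner ℝ x ξ : ℝ) : ℂ))) * η x = 0) :
    ∃ C : ℝ, 0 < C ∧ ∀ (F : Set (EuclideanSpace ℝ (Fin 3))) (b : ℝ → ℝ), MeasurableSet F →
      Measurable b →
      ∀ g : EuclideanSpace ℝ (Fin 3) × ℝ → ℂ, Measurable g → (∃ B : ℝ, ∀ z, ‖g z‖ ≤ B) →
      HasCompactSupport g → (∀ x r, x ∉ F → g (x, r) = 0) → (∀ x r, ‖g (x, r)‖ ≤ |b r|) →
      MeasureTheory.eLpNorm
        (fun x : EuclideanSpace ℝ (Fin 3) =>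
          ∫ r in Set.Ioi (1 : ℝ), ∫ z : EuclideanSpace ℝ (Fin 3),
            (∫ y in Metric.sphere (0 : EuclideanSpace ℝ (Fin 3)) r, η (x - y - z)
              ∂(MeasureTheory.Measure.hausdorffMeasure (((3 : ℕ) : ℝ) - 1))) * g (z, r))
        (ENNReal.ofReal p) MeasureTheory.volume
      ≤ ENNReal.ofReal C *
        (MeasureTheory.volume F * ∫⁻ r in Set.Ioi (1 : ℝ),
            ‖b r‖ₑ ^ p * ENNReal.ofReal (r ^ 2)) ^ (1 / p) := by
  obtain ⟨ε, hε, hη'⟩ := hη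
  obtain ⟨C, hC, hdis⟩ := discreteR η ε hε hη' p hp1 (by linarith)
  obtain ⟨C1, hC1, hav⟩ := averagingR 3 (by norm_num) η p hp1 C hC hdis
  exact ⟨C1, hC1, hav⟩

end Pool.LibTH93
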