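import Pool.Agent.LibTH93.FC

/-
PLAN (GC2). Copy of averagingR (FC.lean); differences: (1) the cutoffs: R with g a = 0 for R < norm a as there. W a := if 1 < a.2 and norm a.1 <= R and |a.2| <= R then (tsum over n of ofReal ((2^n)^p) * indicator of
(F n x Rr n) at a) * ofReal (a.2^(d-1)) else 0, with values in ENNReal; measurable (Measurable.ennreal_tsum, Measurable.ite, measurability of F n x Rr n); W a = 0 for R < norm a. hΛ2 W as there.
(2) for fixed q: Y0 = (Λ1.image (q.1 + .)).filter (norm <= R), R0 = (Λ2.image (q.2 + .)).filter (1 < r and |r| <= R), Y n = Y0.filter (in F n), R n = R0.filter (in Rr n); choose for a in Y0 x R0 with g a <> 0 the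
integer n a; J = image of n on (Y0 x R0).filter (g <> 0); h gives ofReal (C * sum over J of (2^n)^p wt (Y n x R n)) = ofReal C * sum over J of ofReal ((2^n)^p) * sum over Y n x R n of ofReal (r^(d-1)) <=
ofReal C * sum over a in Λ1 x Λ2 of W (q + a) (ENNReal.sum_le_tsum, exchange of the finite sum with the tsum: ENNReal.tsum_mul_right / tsum_finset_sum ... or bound the sum over J under each a).
(3) the integral of W over r > 1 and x is at most tsum over n of ofReal ((2^n)^p) * (volume (F n) * integral over Rr n of ofReal (r^(d-1))) (lintegral_tsum twice, drop the cutoffs, lintegral_indicator).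
-/

set_option autoImplicit false

noncomputable section

open MeasureTheory Metric Set Filter

namespace Pool.LibTH93

open Pool.LibSR53 Pool.LibTP53

/-- the kernel, cut off at radius one -/
private def GC2_F {d : ℕ} (η : SchwartzMap (E d) ℂ) (a : P d) (x : E d) : ℂ :=
  if 1 < a.2 then Fk η a.1 a.2 x else 0

private theorem GC2_meas {d : ℕ} (hd : 2 ≤ d) (η : SchwartzMap (E d) ℂ) :
    Measurable (fun q : P d × E d => GC2_F η q.1 q.2) := by
  classical
  have hs : MeasurableSet {q : P d × E d | 1 < q.1.2} :=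
    measurableSet_lt measurable_const (measurable_snd.comp measurable_fst)
  have h := ContinuousOn.measurable_piecewise
    (f := fun q : P d × E d => Fk η q.1.1 q.1.2 q.2) (g := fun _ => (0 : ℂ))
    (s := {q : P d × E d | 1 < q.1.2})
    ((Fk_joint hd η).mono (fun q (hq : 1 < q.1.2) => (show 0 < q.1.2 by linarith)))
    continuousOn_const hs
  refine (congrArg Measurable (funext fun q => ?_)).mp h
  by_cases hq : 1 < q.1.2
  · rw [Set.piecewise_eq_of_mem _ _ _ (show q ∈ {q : P d × E d | 1 < q.1.2} from hq), GC2_F,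
      if_pos hq]
  · rw [Set.piecewise_eq_of_notMem _ _ _ (show q ∉ {q : P d × E d | 1 < q.1.2} from hq), GC2_F,
      if_neg hq]

/-- Jensen -/
private theorem GC2_jensen {α : Type} [MeasurableSpace α] (μ : Measure α) (f : α → ℂ) (p : ℝ)
    (hp : 1 < p) (hf : AEStronglyMeasurable f μ) :
    ‖∫ a, f a ∂μ‖ₑ ^ p ≤ (μ univ) ^ (p - 1) * ∫⁻ a, ‖f a‖ₑ ^ p ∂μ := by
  have hp0 : 0 < p := by linarith
  have h1 := eLpNorm'_le_eLpNorm'_mul_rpow_measure_univ (p := 1) (q := p) one_pos hp.le hf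
  simp only [eLpNorm', ENNReal.rpow_one, div_one, one_div] at h1
  have h2 : ‖∫ a, f a ∂μ‖ₑ ≤ ∫⁻ a, ‖f a‖ₑ ∂μ := enorm_integral_le_lintegral_enorm f
  calc ‖∫ a, f a ∂μ‖ₑ ^ p ≤ (∫⁻ a, ‖f a‖ₑ ∂μ) ^ p := ENNReal.rpow_le_rpow h2 hp0.le
    _ ≤ ((∫⁻ a, ‖f a‖ₑ ^ p ∂μ) ^ p⁻¹ * (μ univ) ^ (1 - p⁻¹)) ^ p := by
        refine ENNReal.rpow_le_rpow ?_ hp0.le
        simpa using h1
    _ = (μ univ) ^ (p - 1) * ∫⁻ a, ‖f a‖ₑ ^ p ∂μ := by
        rw [ENNReal.mul_rpow_of_nonneg _ _ hp0.le, ← ENNReal.rpow_mul, ← ENNReal.rpow_mul,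
          inv_mul_cancel₀ hp0.ne', ENNReal.rpow_one, mul_comm]
        congr 2
        field_simp

/-- differences of distinct integer points have norm at least one -/
private theorem GC2_dist {d : ℕ} (c a b : E d) (ha : ∀ i, ∃ n : ℤ, a i = n)
    (hb : ∀ i, ∃ n : ℤ, b i = n) (hab : c + a ≠ c + b) : 1 ≤ dist (c + a) (c + b) := by
  rw [dist_eq_norm, add_sub_add_left_eq_sub]
  have hne : a ≠ b := fun h => hab (by rw [h])
  obtain ⟨i, hi⟩ : ∃ i, a i ≠ b i := by
    by_contra hcon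
    push Not at hcon
    exact hne (by ext i; exact hcon i)
  obtain ⟨n, hn⟩ := ha i
  obtain ⟨m, hm⟩ := hb i
  have h1 : (a - b) i = ((n - m : ℤ) : ℝ) := by
    rw [PiLp.sub_apply, hn, hm]
    push_cast
    ring
  have h2 : n - m ≠ 0 := by
    intro h0
    apply hi
    rw [hn, hm]
    have : n = m := by omega
    rw [this]
  have h3 : (1 : ℝ) ≤ |((n - m : ℤ) : ℝ)| := by
    rw [← Int.cast_abs]
    exact_mod_cast Int.one_le_abs h2
  have h5 : ‖(a - b) i‖ ≤ ‖a - b‖ := PiLp.norm_apply_le _ i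
  rw [h1, Real.norm_eq_abs] at h5
  linarith

/-- the same for real numbers -/
private theorem GC2_abs (c a b : ℝ) (ha : ∃ n : ℤ, a = n) (hb : ∃ n : ℤ, b = n)
    (hab : c + a ≠ c + b) : 1 ≤ |c + a - (c + b)| := by
  rw [add_sub_add_left_eq_sub]
  obtain ⟨n, rfl⟩ := ha
  obtain ⟨m, rfl⟩ := hb
  have h2 : n - m ≠ 0 := by
    intro h0
    apply hab
    have : n = m := by omega
    rw [this]
  have h3 : (1 : ℝ) ≤ |((n - m : ℤ) : ℝ)| := by
    rw [← Int.cast_abs]
    exact_mod_cast Int.one_le_abs h2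
  push_cast at h3
  exact h3

/-- from the discrete inequality with rectangles to the continuous one -/
theorem averagingG (d : ℕ) (hd : 2 ≤ d) (η : SchwartzMap (E d) ℂ) (p : ℝ) (hp1 : 1 < p)
    (C : ℝ) (hC : 0 < C)
    (h : ∀ (Y0 : Finset (E d)) (R0 : Finset ℝ), Pool.LibTP53.Sep Y0 R0 →
      ∀ (J : Finset ℤ) (Y : ℤ → Finset (E d)) (R : ℤ → Finset ℝ), (∀ n, Y n ⊆ Y0) →
      (∀ n, R n ⊆ R0) → ∀ γ : P d → ℂ,
      (∀ q ∈ Y0 ×ˢ R0, γ q ≠ 0 → ∃ n ∈ J, q ∈ Y n ×ˢ R n ∧ ‖γ q‖ ≤ (2 : ℝ) ^ n) →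
      ∫⁻ x, ‖∑ q ∈ Y0 ×ˢ R0, γ q * Fk η q.1 q.2 x‖ₑ ^ p ≤
        ENNReal.ofReal (C * ∑ n ∈ J, ((2 : ℝ) ^ n) ^ p * wt (Y n ×ˢ R n))) :
    ∃ C1 : ℝ, 0 < C1 ∧ ∀ (F : ℤ → Set (E d)) (Rr : ℤ → Set ℝ), (∀ n, MeasurableSet (F n)) →
      (∀ n, MeasurableSet (Rr n)) →
      ∀ g : P d → ℂ, Measurable g → (∃ B : ℝ, ∀ z, ‖g z‖ ≤ B) → HasCompactSupport g →
      (∀ x r, g (x, r) ≠ 0 → ∃ n : ℤ, x ∈ F n ∧ r ∈ Rr n ∧ ‖g (x, r)‖ ≤ (2 : ℝ) ^ n) →
      eLpNorm (fun x : E d => ∫ r in Set.Ioi (1 : ℝ), ∫ z : E d, Fk η z r x * g (z, r))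
        (ENNReal.ofReal p) volume ≤
      ENNReal.ofReal C1 * (∑' n : ℤ, ENNReal.ofReal (((2 : ℝ) ^ n) ^ p) *
        (volume (F n) * ∫⁻ r in Rr n ∩ Set.Ioi (1 : ℝ), ENNReal.ofReal (r ^ (d - 1)))) ^ (1 / p) := by
  classical
  have hp0 : 0 < p := by linarith
  obtain ⟨Q, hQm, hQf, hQ⟩ := lattice_splitP d
  set V : ℝ := (volume Q).toReal with hV
  obtain ⟨CF, hCF, hFk⟩ := Fk_le hd η
  have hVm : 0 < max V 1 := lt_of_lt_of_le one_pos (le_max_right _ _)
  refine ⟨(C * (max V 1) ^ (p - 1)) ^ (1 / p), by positivity, ?_⟩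
  rintro F Rr hF hRr g hg ⟨B, hB⟩ hcs hgn
  obtain ⟨R, hR⟩ : ∃ R, ∀ a, R < ‖a‖ → g a = 0 := by
    obtain ⟨R, hR⟩ := hcs.isCompact.isBounded.subset_closedBall (0 : P d)
    refine ⟨R, fun a ha => image_eq_zero_of_notMem_tsupport fun h' => ?_⟩
    have := hR h'
    rw [mem_closedBall_zero_iff] at this
    linarith
  obtain ⟨Λ1, Λ2, hi1, hi2, hΛ1, hΛ2⟩ := hQ R
  -- choice of the levels
  have hex : ∀ a : P d, ∃ n : ℤ, g a ≠ 0 → a.1 ∈ F n ∧ a.2 ∈ Rr n ∧ ‖g a‖ ≤ (2 : ℝ) ^ n := by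
    intro a
    by_cases ha : g a = 0
    · exact ⟨0, fun h' => absurd ha h'⟩
    · obtain ⟨n, hn⟩ := hgn a.1 a.2 ha
      exact ⟨n, fun _ => hn⟩
  choose nf hnf using hex
  -- the integrand
  set H : P d → E d → ℂ := fun a x => GC2_F η a x * g a with hH
  have hHm : Measurable (fun q : P d × E d => H q.1 q.2) :=
    (GC2_meas hd η).mul (hg.comp measurable_fst)
  have hHx : ∀ x, Measurable (fun a => H a x) := fun x =>
    hHm.comp (measurable_id.prodMk measurable_const)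
  have hB0 : 0 ≤ B := (norm_nonneg _).trans (hB 0)
  have hH0 : ∀ a x, R < ‖a‖ → H a x = 0 := fun a x ha => by
    simp only [hH, hR a ha, mul_zero]
  have hint : ∀ x, Integrable (fun a => H a x) := by
    intro x
    have h1 : Integrable ((closedBall (0 : P d) R).indicator
        (fun _ => CF * (max R 1) ^ (d - 1) * B)) := by
      rw [integrable_indicator_iff measurableSet_closedBall]
      exact integrableOn_const (measure_closedBall_lt_top.ne)
    refine h1.mono' (hHx x).aestronglyMeasurable (ae_of_all _ fun a => ?_)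
    by_cases ha : a ∈ closedBall (0 : P d) R
    · rw [Set.indicator_of_mem ha]
      rw [mem_closedBall_zero_iff] at ha
      by_cases h2 : 1 < a.2
      · have h3 : a.2 ≤ max R 1 := by
          have : |a.2| ≤ ‖a‖ := by
            rw [← Real.norm_eq_abs]
            exact norm_snd_le a
          exact ((le_abs_self _).trans (this.trans ha)).trans (le_max_left _ _)
        simp only [hH, GC2_F, if_pos h2, norm_mul]
        refine mul_le_mul ((hFk a.1 a.2 x (by linarith)).trans ?_) (hB a) (norm_nonneg _)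
          (by positivity)
        have h4 : 0 ≤ a.2 := by linarith
        gcongr
      · simp only [hH, GC2_F, if_neg h2, zero_mul, norm_zero]
        positivity
    · rw [Set.indicator_of_notMem ha]
      rw [mem_closedBall_zero_iff, not_le] at ha
      rw [hH0 a x ha, norm_zero]
  -- the operator is an integral over the product
  have hT : ∀ x, (∫ r in Set.Ioi (1 : ℝ), ∫ z : E d, Fk η z r x * g (z, r)) =
      ∫ q in Q, ∑ a ∈ Λ1 ×ˢ Λ2, H (q + a) x := by
    intro x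
    rw [← hΛ1 (fun a => H a x) (hint x) (fun a ha => hH0 a x ha), Measure.volume_eq_prod,
      integral_prod_symm (fun a => H a x) (by rw [← Measure.volume_eq_prod]; exact hint x),
      ← integral_indicator measurableSet_Ioi]
    congr 1
    funext r
    by_cases hr : 1 < r
    · rw [Set.indicator_of_mem (show r ∈ Set.Ioi (1 : ℝ) from hr)]
      simp only [hH, GC2_F, if_pos hr]
    · rw [Set.indicator_of_notMem (show r ∉ Set.Ioi (1 : ℝ) from hr)]
      simp only [hH, GC2_F, if_neg hr, zero_mul, integral_zero]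
  -- the weight
  obtain ⟨A, hA⟩ : ∃ A : ℤ → Set (E d), ∀ n, A n = F n ∩ closedBall 0 R := ⟨_, fun _ => rfl⟩
  obtain ⟨D, hD⟩ : ∃ D : ℤ → Set ℝ, ∀ n, D n = (Rr n ∩ Set.Ioi (1 : ℝ)) ∩ {r : ℝ | |r| ≤ R} :=
    ⟨_, fun _ => rfl⟩
  have hAm : ∀ n, MeasurableSet (A n) := fun n => by
    rw [hA]
    exact (hF n).inter measurableSet_closedBall
  have hDm : ∀ n, MeasurableSet (D n) := fun n => by
    rw [hD]
    refine ((hRr n).inter measurableSet_Ioi).inter ?_
    exact measurableSet_le continuous_abs.measurable measurable_const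
  obtain ⟨Wn, hWn⟩ : ∃ Wn : ℤ → P d → ENNReal, ∀ n a, Wn n a =
      ENNReal.ofReal (((2 : ℝ) ^ n) ^ p) * ((A n).indicator (fun _ => (1 : ENNReal)) a.1 *
        (D n).indicator (fun r => ENNReal.ofReal (r ^ (d - 1))) a.2) := ⟨_, fun _ _ => rfl⟩
  have hi1m : ∀ n, Measurable ((A n).indicator (fun _ => (1 : ENNReal))) := fun n =>
    measurable_const.indicator (hAm n)
  have hi2m : ∀ n, Measurable ((D n).indicator (fun r : ℝ => ENNReal.ofReal (r ^ (d - 1)))) :=
    fun n => ((measurable_id.pow_const _).ennreal_ofReal).indicator (hDm n)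
  have hWnm : ∀ n, Measurable (Wn n) := by
    intro n
    have h1 : Wn n = fun a => ENNReal.ofReal (((2 : ℝ) ^ n) ^ p) *
        ((A n).indicator (fun _ => (1 : ENNReal)) a.1 *
        (D n).indicator (fun r => ENNReal.ofReal (r ^ (d - 1))) a.2) := funext fun a => hWn n a
    rw [h1]
    exact (((hi1m n).comp measurable_fst).mul ((hi2m n).comp measurable_snd)).const_mul _
  obtain ⟨W, hW⟩ : ∃ W : P d → ENNReal, W = fun a => ∑' n : ℤ, Wn n a := ⟨_, rfl⟩
  have hWm : Measurable W := by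
    rw [hW]
    exact Measurable.ennreal_tsum hWnm
  have hW0 : ∀ a, R < ‖a‖ → W a = 0 := by
    intro a ha
    rw [hW]
    simp only [ENNReal.tsum_eq_zero]
    intro n
    rw [hWn]
    rw [Prod.norm_def, lt_max_iff] at ha
    rcases ha with ha | ha
    · have h1 : a.1 ∉ A n := by
        rw [hA]
        rintro ⟨-, h2⟩
        rw [mem_closedBall_zero_iff] at h2
        linarith
      rw [Set.indicator_of_notMem h1, zero_mul, mul_zero]
    · have h1 : a.2 ∉ D n := by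
        rw [hD]
        rintro ⟨-, h2⟩
        have h3 : |a.2| ≤ R := h2
        rw [Real.norm_eq_abs] at ha
        linarith
      rw [Set.indicator_of_notMem h1, mul_zero, mul_zero]
  have hWint : ∫⁻ q in Q, ∑ a ∈ Λ1 ×ˢ Λ2, W (q + a) ≤ ∑' n : ℤ,
      ENNReal.ofReal (((2 : ℝ) ^ n) ^ p) *
        (volume (F n) * ∫⁻ r in Rr n ∩ Set.Ioi (1 : ℝ), ENNReal.ofReal (r ^ (d - 1))) := by
    rw [← hΛ2 W hWm hW0, hW, lintegral_tsum fun n => (hWnm n).aemeasurable]
    refine ENNReal.tsum_le_tsum fun n => ?_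
    simp only [hWn]
    rw [lintegral_const_mul' _ _ ENNReal.ofReal_ne_top, Measure.volume_eq_prod, lintegral_prod_mul (hi1m n).aemeasurable (hi2m n).aemeasurable,
      lintegral_indicator_const (hAm n), one_mul, lintegral_indicator (hDm n)]
    refine mul_le_mul_right ?_ _
    refine mul_le_mul' (measure_mono ?_) (lintegral_mono_set ?_)
    · rw [hA]
      exact Set.inter_subset_left
    · rw [hD]
      exact Set.inter_subset_left
  -- the discrete inequality for every q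
  have hq : ∀ q : P d, ∫⁻ x, ‖∑ a ∈ Λ1 ×ˢ Λ2, H (q + a) x‖ₑ ^ p ≤
      ENNReal.ofReal C * ∑ a ∈ Λ1 ×ˢ Λ2, W (q + a) := by
    intro q
    obtain ⟨Y0, hY0⟩ : ∃ Y0 : Finset (E d), Y0 = Λ1.image fun a => q.1 + a := ⟨_, rfl⟩
    obtain ⟨R0, hR0⟩ : ∃ R0 : Finset ℝ, R0 = (Λ2.image fun a => q.2 + a).filter
      fun r => 1 < r := ⟨_, rfl⟩
    have hinj : Set.InjOn (fun a => q + a) ((Λ1 ×ˢ Λ2 : Finset (P d)) : Set (P d)) :=
      fun a _ b _ hab => add_left_cancel hab
    have hS : Y0 ×ˢ R0 = (((Λ1 ×ˢ Λ2).image fun a => q + a).filter fun c => 1 < c.2) := by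
      ext ⟨y, r⟩
      simp only [hY0, hR0, Finset.mem_product, Finset.mem_filter, Finset.mem_image, Prod.exists]
      constructor
      · rintro ⟨⟨u, hu, rfl⟩, ⟨⟨v, hv, rfl⟩, h2⟩⟩
        exact ⟨⟨u, v, ⟨hu, hv⟩, rfl⟩, h2⟩
      · rintro ⟨⟨u, v, ⟨hu, hv⟩, huv⟩, h2⟩
        have e1 : q.1 + u = y := congrArg Prod.fst huv
        have e2 : q.2 + v = r := congrArg Prod.snd huv
        exact ⟨⟨u, hu, e1⟩, ⟨⟨v, hv, e2⟩, h2⟩⟩
    have hSep : Pool.LibTP53.Sep Y0 R0 := by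
      refine ⟨?_, ?_, ?_⟩
      · intro y hy z hz hyz
        rw [hY0, Finset.mem_image] at hy hz
        obtain ⟨u, hu, rfl⟩ := hy
        obtain ⟨v, hv, rfl⟩ := hz
        exact GC2_dist q.1 u v (hi1 u hu) (hi1 v hv) hyz
      · intro y hy z hz hyz
        rw [hR0, Finset.mem_filter, Finset.mem_image] at hy hz
        obtain ⟨⟨u, hu, rfl⟩, -⟩ := hy
        obtain ⟨⟨v, hv, rfl⟩, -⟩ := hz
        exact GC2_abs q.2 u v (hi2 u hu) (hi2 v hv) hyz
      · intro r hr
        rw [hR0, Finset.mem_filter] at hr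
        exact hr.2.le
    have h1 : ∀ x, ∑ a ∈ Λ1 ×ˢ Λ2, H (q + a) x = ∑ c ∈ Y0 ×ˢ R0, g c * Fk η c.1 c.2 x := by
      intro x
      rw [hS, Finset.sum_filter, Finset.sum_image hinj]
      refine Finset.sum_congr rfl fun a _ => ?_
      split_ifs with h2
      · simp only [hH, GC2_F, if_pos h2]
        ring
      · simp only [hH, GC2_F, if_neg h2, zero_mul]
    simp only [h1]
    obtain ⟨J, hJ⟩ : ∃ J : Finset ℤ, J = ((Y0 ×ˢ R0).filter fun c => g c ≠ 0).image nf := ⟨_, rfl⟩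
    obtain ⟨Y, hY⟩ : ∃ Y : ℤ → Finset (E d), ∀ n, Y n = Y0.filter fun y => y ∈ A n :=
      ⟨_, fun _ => rfl⟩
    obtain ⟨Rq, hRq⟩ : ∃ Rq : ℤ → Finset ℝ, ∀ n, Rq n = R0.filter fun r => r ∈ D n :=
      ⟨_, fun _ => rfl⟩
    have hR1 : ∀ r ∈ R0, 1 < r := fun r hr => by
      rw [hR0, Finset.mem_filter] at hr
      exact hr.2
    have hmain1 := h Y0 R0 hSep J Y Rq (fun n => by rw [hY]; exact Finset.filter_subset _ _)
      (fun n => by rw [hRq]; exact Finset.filter_subset _ _) g (by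
        intro c hc hgc
        have h2 := hnf c hgc
        have h3 : ‖c‖ ≤ R := by
          by_contra h4
          exact hgc (hR c (not_le.mp h4))
        refine ⟨nf c, ?_, ?_, h2.2.2⟩
        · rw [hJ]
          exact Finset.mem_image_of_mem _ (Finset.mem_filter.mpr ⟨hc, hgc⟩)
        · rw [Finset.mem_product] at hc ⊢
          refine ⟨?_, ?_⟩
          · rw [hY, Finset.mem_filter, hA]
            refine ⟨hc.1, h2.1, ?_⟩
            rw [mem_closedBall_zero_iff]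
            exact (norm_fst_le c).trans h3
          · rw [hRq, Finset.mem_filter, hD]
            refine ⟨hc.2, ⟨h2.2.1, hR1 _ hc.2⟩, ?_⟩
            show |c.2| ≤ R
            rw [← Real.norm_eq_abs]
            exact (norm_snd_le c).trans h3)
    refine hmain1.trans ?_
    rw [ENNReal.ofReal_mul hC.le]
    refine mul_le_mul_right ?_ _
    have hwt0 : ∀ n, 0 ≤ wt (Y n ×ˢ Rq n) := by
      intro n
      unfold wt
      refine Finset.sum_nonneg fun c hc => ?_
      rw [Finset.mem_product, hRq, Finset.mem_filter] at hc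
      have := hR1 _ hc.2.1
      have h3 : 0 ≤ c.2 := by linarith
      positivity
    rw [ENNReal.ofReal_sum_of_nonneg (fun n _ => mul_nonneg (by positivity) (hwt0 n))]
    have hterm : ∀ n ∈ J, ENNReal.ofReal (((2 : ℝ) ^ n) ^ p * wt (Y n ×ˢ Rq n)) ≤
        ∑ a ∈ Λ1 ×ˢ Λ2, Wn n (q + a) := by
      intro n _
      have e1 : ∑ a ∈ Λ1 ×ˢ Λ2, Wn n (q + a) =
          ∑ c ∈ (Λ1 ×ˢ Λ2).image (fun a => q + a), Wn n c := by
        rw [Finset.sum_image hinj]
      rw [e1]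
      have hsub : Y n ×ˢ Rq n ⊆ (Λ1 ×ˢ Λ2).image (fun a => q + a) := by
        intro c hc
        rw [Finset.mem_product, hY, hRq, Finset.mem_filter, Finset.mem_filter] at hc
        have h3 : c ∈ Y0 ×ˢ R0 := Finset.mem_product.mpr ⟨hc.1.1, hc.2.1⟩
        rw [hS, Finset.mem_filter] at h3
        exact h3.1
      refine le_trans (le_of_eq ?_) (Finset.sum_le_sum_of_subset hsub)
      unfold wt
      rw [ENNReal.ofReal_mul (by positivity), ENNReal.ofReal_sum_of_nonneg, Finset.mul_sum]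
      · refine Finset.sum_congr rfl fun c hc => ?_
        rw [Finset.mem_product, hY, hRq, Finset.mem_filter, Finset.mem_filter] at hc
        rw [hWn, Set.indicator_of_mem hc.1.2, Set.indicator_of_mem hc.2.2, one_mul]
      · intro c hc
        rw [Finset.mem_product, hRq, Finset.mem_filter] at hc
        have := hR1 _ hc.2.1
        have h3 : 0 ≤ c.2 := by linarith
        positivity
    refine (Finset.sum_le_sum hterm).trans ?_
    rw [Finset.sum_comm]
    refine Finset.sum_le_sum fun a _ => ?_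
    rw [hW]
    exact ENNReal.sum_le_tsum _
  -- joint measurability
  have hΦm : Measurable (fun z : E d × P d => ∑ a ∈ Λ1 ×ˢ Λ2, H (z.2 + a) z.1) := by
    refine Finset.measurable_fun_sum _ fun a _ => ?_
    exact hHm.comp ((measurable_snd.add_const a).prodMk measurable_fst)
  have hmain : ∫⁻ x : E d, ‖∫ q in Q, ∑ a ∈ Λ1 ×ˢ Λ2, H (q + a) x‖ₑ ^ p ≤
      ENNReal.ofReal (C * (max V 1) ^ (p - 1)) * ∫⁻ q in Q, ∑ a ∈ Λ1 ×ˢ Λ2, W (q + a) := by
    have hVt : (volume.restrict Q univ) ^ (p - 1) ≤ ENNReal.ofReal ((max V 1) ^ (p - 1)) := by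
      rw [Measure.restrict_apply_univ, ← ENNReal.ofReal_rpow_of_pos hVm]
      refine ENNReal.rpow_le_rpow ?_ (by linarith)
      rw [← ENNReal.ofReal_toReal hQf]
      exact ENNReal.ofReal_le_ofReal (le_max_left _ _)
    calc ∫⁻ x : E d, ‖∫ q in Q, ∑ a ∈ Λ1 ×ˢ Λ2, H (q + a) x‖ₑ ^ p
        ≤ ∫⁻ x : E d, ENNReal.ofReal ((max V 1) ^ (p - 1)) *
            ∫⁻ q in Q, ‖∑ a ∈ Λ1 ×ˢ Λ2, H (q + a) x‖ₑ ^ p := by
          refine lintegral_mono fun x => ?_
          refine (GC2_jensen _ _ p hp1 ?_).trans ?_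
          · exact (hΦm.comp (measurable_const.prodMk measurable_id)).aestronglyMeasurable
          · gcongr
      _ = ENNReal.ofReal ((max V 1) ^ (p - 1)) *
            ∫⁻ x : E d, ∫⁻ q in Q, ‖∑ a ∈ Λ1 ×ˢ Λ2, H (q + a) x‖ₑ ^ p := by
          rw [lintegral_const_mul' _ _ ENNReal.ofReal_ne_top]
      _ = ENNReal.ofReal ((max V 1) ^ (p - 1)) *
            ∫⁻ q in Q, ∫⁻ x : E d, ‖∑ a ∈ Λ1 ×ˢ Λ2, H (q + a) x‖ₑ ^ p := by
          congr 1
          refine lintegral_lintegral_swap ?_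
          exact (hΦm.enorm.pow_const p).aemeasurable
      _ ≤ ENNReal.ofReal ((max V 1) ^ (p - 1)) *
            ∫⁻ q in Q, ENNReal.ofReal C * ∑ a ∈ Λ1 ×ˢ Λ2, W (q + a) := by
          gcongr
          exact hq _
      _ = ENNReal.ofReal (C * (max V 1) ^ (p - 1)) *
            ∫⁻ q in Q, ∑ a ∈ Λ1 ×ˢ Λ2, W (q + a) := by
          rw [lintegral_const_mul' _ _ ENNReal.ofReal_ne_top, ← mul_assoc,
            ENNReal.ofReal_mul hC.le, mul_comm (ENNReal.ofReal C)]
  rw [eLpNorm_eq_lintegral_rpow_enorm_toReal (by simpa using hp0) ENNReal.ofReal_ne_top,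
    ENNReal.toReal_ofReal hp0.le]
  simp only [hT]
  calc (∫⁻ x : E d, ‖∫ q in Q, ∑ a ∈ Λ1 ×ˢ Λ2, H (q + a) x‖ₑ ^ p) ^ (1 / p)
      ≤ (ENNReal.ofReal (C * (max V 1) ^ (p - 1)) *
          ∫⁻ q in Q, ∑ a ∈ Λ1 ×ˢ Λ2, W (q + a)) ^ (1 / p) :=
        ENNReal.rpow_le_rpow hmain (by positivity)
    _ = ENNReal.ofReal ((C * (max V 1) ^ (p - 1)) ^ (1 / p)) *
        (∫⁻ q in Q, ∑ a ∈ Λ1 ×ˢ Λ2, W (q + a)) ^ (1 / p) := by
        rw [ENNReal.mul_rpow_of_nonneg _ _ (by positivity),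
          ENNReal.ofReal_rpow_of_nonneg (by positivity) (by positivity)]
    _ ≤ ENNReal.ofReal ((C * (max V 1) ^ (p - 1)) ^ (1 / p)) *
        (∑' n : ℤ, ENNReal.ofReal (((2 : ℝ) ^ n) ^ p) *
        (volume (F n) * ∫⁻ r in Rr n ∩ Set.Ioi (1 : ℝ), ENNReal.ofReal (r ^ (d - 1)))) ^ (1 / p) := by
        gcongr

end Pool.LibTH93
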