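import Pool.Agent.LibTH93.GB2
import Pool.Agent.LibTH93.GC2

set_option autoImplicit false

noncomputable section

open MeasureTheory Metric Set Filter

namespace Pool.LibTH93

open Pool.LibSR53 Pool.LibTP53

/-- the inequality on three dimensional space for functions with one rectangle at every dyadic height -/
theorem mainTG (p : ℝ) (hp1 : 1 < p) (hp2 : p < 4 / 3)
    (η : SchwartzMap (EuclideanSpace ℝ (Fin 3)) ℂ)
    (hη : ∃ ε : ℝ, 0 < ε ∧ ∀ ξ : EuclideanSpace ℝ (Fin 3), ‖ξ‖ < ε →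
      ∫ x : EuclideanSpace ℝ (Fin 3),
        Complex.exp (-(2 * (Real.pi : ℂ) * Complex.I * ((inner ℝ x ξ : ℝ) : ℂ))) * η x = 0) :
    ∃ C : ℝ, 0 < C ∧ ∀ (F : ℤ → Set (EuclideanSpace ℝ (Fin 3))) (R : ℤ → Set ℝ),
      (∀ n, MeasurableSet (F n)) → (∀ n, MeasurableSet (R n)) →
      ∀ g : EuclideanSpace ℝ (Fin 3) × ℝ → ℂ, Measurable g → (∃ B : ℝ, ∀ z, ‖g z‖ ≤ B) →
      HasCompactSupport g →
      (∀ x r, g (x, r) ≠ 0 → ∃ n : ℤ, x ∈ F n ∧ r ∈ R n ∧ ‖g (x, r)‖ ≤ (2 : ℝ) ^ n) →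
      MeasureTheory.eLpNorm
        (fun x : EuclideanSpace ℝ (Fin 3) =>
          ∫ r in Set.Ioi (1 : ℝ), ∫ z : EuclideanSpace ℝ (Fin 3),
            (∫ y in Metric.sphere (0 : EuclideanSpace ℝ (Fin 3)) r, η (x - y - z)
              ∂(MeasureTheory.Measure.hausdorffMeasure (((3 : ℕ) : ℝ) - 1))) * g (z, r))
        (ENNReal.ofReal p) MeasureTheory.volume
      ≤ ENNReal.ofReal C * (∑' n : ℤ, ENNReal.ofReal (((2 : ℝ) ^ n) ^ p) *
        (MeasureTheory.volume (F n) *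
          ∫⁻ r in R n ∩ Set.Ioi (1 : ℝ), ENNReal.ofReal (r ^ 2))) ^ (1 / p) := by
  obtain ⟨ε, hε, hη'⟩ := hη
  obtain ⟨C, hC, hdis⟩ := discreteG η ε hε hη' p hp1 (by linarith)
  obtain ⟨C1, hC1, hav⟩ := averagingG 3 (by norm_num) η p hp1 C hC hdis
  exact ⟨C1, hC1, hav⟩

end Pool.LibTH93
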