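import Pool.Agent.LibTH93.Defs

/-
PLAN (GA). Three annuli. C = 10^6. A = z2 - z1, B = z3 - z1, c = a - z1, v = b - a. |a - z_i|^2 = tau^2 + e_i, |b - z_i|^2 = tau^2 + f_i with |e_i|, |f_i| <= 3 tau w. |A|, |B| <= 4 tau, |c| <= 2 tau.
2 c.A = |A|^2 + e1 - e2, 2 c.B = |B|^2 + e1 - e3, |v.A| <= 6 tau w, |v.B| <= 6 tau w, |2 c.v + |v|^2| <= 6 tau w.
Orthonormal frame: e = A/|A|, beta = B.e, gamma = |B - beta e|, f = (B - beta e)/gamma, n (Orthonormal.exists_orthonormalBasis_extension_of_card_eq, or any third vector). c = c1 e + c2 f + c3 n, v = x e + y f + z n.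
LOWER BOUND gamma >= rho^2/(32 tau): the two equations for c give beta (beta - |A|) + gamma (gamma - 2 c2) = O(30 tau^2 w/rho). If gamma < rho^2/(32 tau) (<= rho/32) then
beta^2 = |B|^2 - gamma^2 >= .99 rho^2, (beta - |A|)^2 = |z3 - z2|^2 - gamma^2 >= .99 rho^2, so |beta (beta - |A|)| >= .99 rho^2, but |gamma (gamma - 2 c2)| <= .13 rho^2 and 30 tau^2 w/rho <= .01 rho^2.
(gamma > 0 follows by the same argument; do it before defining f.)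
|x| <= 6 tau w/rho, gamma |y| <= 6 tau w + |beta||x| <= 30 tau^2 w/rho, so |y| <= 960 tau^3 w/rho^3.
z (z + 2 c3) = (f1 - e1) - x^2 - y^2 - 2 c1 x - 2 c2 y, absolute value <= 5000 w tau^4/rho^3 =: K. So z^2 <= K or (z + 2 c3)^2 <= K (min(|z|,|z+2c3|)^2 <= |z||z+2c3|).
a' = a - 2 c3 n: dist b a ^2 = x^2 + y^2 + z^2, dist b a' ^2 = x^2 + y^2 + (z + 2 c3)^2, and x^2, y^2 <= w tau^4/rho^3 (use C w tau^2 <= rho^3). a' does not depend on b.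
-/

set_option autoImplicit false

noncomputable section
set_option autoImplicit false

noncomputable section

open MeasureTheory Metric Set Filter

namespace Pool.LibTH93

open Pool.LibSR53 Pool.LibTP53

private lemma GA_sq (D τ w : ℝ) (hD : 0 ≤ D) (hw : 1 ≤ w) (hwτ : w ≤ τ) (h : |D - τ| ≤ w) :
    |D ^ 2 - τ ^ 2| ≤ 3 * τ * w := by
  obtain ⟨h1, h2⟩ := abs_le.mp h
  have : D ^ 2 - τ ^ 2 = (D - τ) * (D + τ) := by ring
  rw [this, abs_mul, abs_of_nonneg (by linarith : 0 ≤ D + τ)]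
  have h3 : D + τ ≤ 3 * τ := by linarith
  calc |D - τ| * (D + τ) ≤ w * (3 * τ) := by
        apply mul_le_mul h h3 (by linarith) (by linarith)
    _ = 3 * τ * w := by ring

/-- lower bound for gamma -/
private lemma GA_gamma (α β γ c1 c2 τ w ρ e1 e2 e3 : ℝ) (hw : 1 ≤ w) (hwτ : w ≤ τ)
    (hρ : 0 < ρ) (hρτ : ρ ≤ τ) (hC : (10:ℝ) ^ 6 * w * τ ^ 2 ≤ ρ ^ 3)
    (hα : ρ ^ 2 ≤ α ^ 2) (hB : ρ ^ 2 ≤ β ^ 2 + γ ^ 2) (hAB : ρ ^ 2 ≤ (α - β) ^ 2 + γ ^ 2)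
    (hβ : |β| ≤ 4 * τ) (hc2 : |c2| ≤ 2 * τ)
    (he1 : |e1| ≤ 3 * τ * w) (he2 : |e2| ≤ 3 * τ * w) (he3 : |e3| ≤ 3 * τ * w)
    (h1 : 2 * c1 * α = α ^ 2 + e1 - e2)
    (h2 : 2 * (c1 * β + c2 * γ) = β ^ 2 + γ ^ 2 + e1 - e3) :
    ρ ^ 2 ≤ 32 * τ * |γ| := by
  by_contra hcon
  push Not at hcon
  have hτ : 0 < τ := by linarith
  have hw0 : 0 < w := by linarith
  have hαabs : ρ ≤ |α| := by
    have := Real.sqrt_le_sqrt hα
    rwa [Real.sqrt_sq hρ.le, Real.sqrt_sq_eq_abs] at this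
  -- the identity multiplied by alpha
  have hid : α * (β * (β - α) + γ * (γ - 2 * c2)) = β * (e1 - e2) - α * (e1 - e3) := by
    linear_combination β * h1 - α * h2
  set Z : ℝ := β * (β - α) + γ * (γ - 2 * c2) with hZ
  have he12 : |e1 - e2| ≤ 6 * τ * w := by
    have := abs_sub e1 e2
    linarith
  have he13 : |e1 - e3| ≤ 6 * τ * w := by
    have := abs_sub e1 e3
    linarith
  have hmain : |α| * |Z| ≤ 24 * τ ^ 2 * w + |α| * (6 * τ * w) := by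
    rw [← abs_mul, hid]
    calc |β * (e1 - e2) - α * (e1 - e3)| ≤ |β * (e1 - e2)| + |α * (e1 - e3)| := abs_sub _ _
      _ = |β| * |e1 - e2| + |α| * |e1 - e3| := by rw [abs_mul, abs_mul]
      _ ≤ (4 * τ) * (6 * τ * w) + |α| * (6 * τ * w) := by
          apply add_le_add
          · exact mul_le_mul hβ he12 (abs_nonneg _) (by linarith)
          · exact mul_le_mul_of_nonneg_left he13 (abs_nonneg _)
      _ = 24 * τ ^ 2 * w + |α| * (6 * τ * w) := by ring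
  have hZρ : ρ * |Z| ≤ 30 * τ ^ 2 * w := by
    rcases le_total (|Z|) (6 * τ * w) with h | h
    · calc ρ * |Z| ≤ τ * (6 * τ * w) := mul_le_mul hρτ h (abs_nonneg _) hτ.le
        _ ≤ 30 * τ ^ 2 * w := by nlinarith [mul_pos (mul_pos hτ hτ) hw0]
    · have h3 : ρ * (|Z| - 6 * τ * w) ≤ |α| * (|Z| - 6 * τ * w) :=
        mul_le_mul_of_nonneg_right hαabs (by linarith)
      have h4 : ρ * (6 * τ * w) ≤ τ * (6 * τ * w) :=
        mul_le_mul_of_nonneg_right hρτ (by positivity)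
      nlinarith
  have hZ2 : |Z| ≤ (3 / 100000) * ρ ^ 2 := by
    have : ρ * |Z| ≤ ρ * ((3 / 100000) * ρ ^ 2) := by
      calc ρ * |Z| ≤ 30 * τ ^ 2 * w := hZρ
        _ = (3 / 100000) * ((10:ℝ) ^ 6 * w * τ ^ 2) := by ring
        _ ≤ (3 / 100000) * ρ ^ 3 := by linarith
        _ = ρ * ((3 / 100000) * ρ ^ 2) := by ring
    exact le_of_mul_le_mul_left this hρ
  have hγ1 : 32 * |γ| ≤ ρ := by
    have : τ * (32 * |γ|) ≤ τ * ρ := by nlinarith [hcon, mul_le_mul_of_nonneg_right hρτ hρ.le]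
    exact le_of_mul_le_mul_left this hτ
  have hγ2 : γ ^ 2 ≤ ρ ^ 2 / 1024 := by
    rw [← sq_abs γ]
    have := mul_self_le_mul_self (by positivity : 0 ≤ 32 * |γ|) hγ1
    nlinarith
  have hY : |γ * (γ - 2 * c2)| ≤ ρ ^ 2 / 1024 + ρ ^ 2 / 8 := by
    have h5 : |γ * (γ - 2 * c2)| ≤ γ ^ 2 + 2 * (|γ| * |c2|) := by
      have : γ * (γ - 2 * c2) = γ ^ 2 - 2 * (γ * c2) := by ring
      rw [this]
      calc |γ ^ 2 - 2 * (γ * c2)| ≤ |γ ^ 2| + |2 * (γ * c2)| := abs_sub _ _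
        _ = γ ^ 2 + 2 * (|γ| * |c2|) := by
            rw [abs_of_nonneg (sq_nonneg γ), abs_mul, abs_mul, abs_of_pos (by norm_num : (0:ℝ) < 2)]
    have h6 : |γ| * |c2| ≤ |γ| * (2 * τ) := mul_le_mul_of_nonneg_left hc2 (abs_nonneg _)
    nlinarith
  have hX : (1023 / 1024) * ρ ^ 2 ≤ |β * (β - α)| := by
    have hb : (1023 / 1024) * ρ ^ 2 ≤ β ^ 2 := by linarith
    have hb2 : (1023 / 1024) * ρ ^ 2 ≤ (β - α) ^ 2 := by
      have : (β - α) ^ 2 = (α - β) ^ 2 := by ring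
      rw [this]; linarith
    apply abs_le_of_sq_le_sq' _ (abs_nonneg _) |>.2
    have := mul_le_mul hb hb2 (by positivity) (sq_nonneg _)
    calc ((1023 / 1024) * ρ ^ 2) ^ 2 = (1023 / 1024) * ρ ^ 2 * ((1023 / 1024) * ρ ^ 2) := by ring
      _ ≤ β ^ 2 * (β - α) ^ 2 := this
      _ = |β * (β - α)| ^ 2 := by rw [sq_abs, mul_pow]
  have hfin : |β * (β - α)| ≤ |Z| + |γ * (γ - 2 * c2)| := by
    have : β * (β - α) = Z - γ * (γ - 2 * c2) := by rw [hZ]; ring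
    rw [this]
    exact abs_sub _ _
  have : 0 < ρ ^ 2 := by positivity
  linarith

/-- the final estimates in coordinates -/
private lemma GA_fin (α β γ c1 c2 c3 x y z τ w ρ g : ℝ) (hw : 1 ≤ w) (hwτ : w ≤ τ)
    (hρ : 0 < ρ) (hρτ : ρ ≤ τ) (hC : (10:ℝ) ^ 6 * w * τ ^ 2 ≤ ρ ^ 3)
    (hα : ρ ^ 2 ≤ α ^ 2) (hγ : ρ ^ 2 ≤ 32 * τ * |γ|)
    (hβ : |β| ≤ 4 * τ) (hc1 : |c1| ≤ 2 * τ) (hc2 : |c2| ≤ 2 * τ)
    (hx : |x * α| ≤ 6 * τ * w) (hy : |x * β + y * γ| ≤ 6 * τ * w)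
    (hg : |g| ≤ 6 * τ * w)
    (heq : x ^ 2 + y ^ 2 + z ^ 2 + 2 * (c1 * x + c2 * y + c3 * z) = g) :
    ρ ^ 3 * (x ^ 2 + y ^ 2 + z ^ 2) ≤ (10:ℝ) ^ 6 * w * τ ^ 4 ∨
      ρ ^ 3 * (x ^ 2 + y ^ 2 + (z + 2 * c3) ^ 2) ≤ (10:ℝ) ^ 6 * w * τ ^ 4 := by
  have hτ : 0 < τ := by linarith
  have hw0 : 0 < w := by linarith
  have hαabs : ρ ≤ |α| := by
    have := Real.sqrt_le_sqrt hα
    rwa [Real.sqrt_sq hρ.le, Real.sqrt_sq_eq_abs] at this
  have hx0 := abs_nonneg x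
  have hy0 := abs_nonneg y
  -- rho |x| ≤ 6 tau w
  have hX1 : ρ * |x| ≤ 6 * τ * w := by
    rw [abs_mul] at hx
    nlinarith [mul_le_mul_of_nonneg_left hαabs hx0]
  -- rho |gamma y| ≤ 30 tau^2 w
  have hY1 : ρ * (|y| * |γ|) ≤ 30 * τ ^ 2 * w := by
    have h1 : |y| * |γ| ≤ 6 * τ * w + |x| * |β| := by
      have : y * γ = (x * β + y * γ) - x * β := by ring
      rw [← abs_mul, this]
      calc |(x * β + y * γ) - x * β| ≤ |x * β + y * γ| + |x * β| := abs_sub _ _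
        _ ≤ 6 * τ * w + |x| * |β| := by rw [abs_mul x β]; linarith
    have h2 : |x| * |β| ≤ |x| * (4 * τ) := mul_le_mul_of_nonneg_left hβ hx0
    have h3 : ρ * (|y| * |γ|) ≤ ρ * (6 * τ * w + |x| * (4 * τ)) :=
      mul_le_mul_of_nonneg_left (by linarith) hρ.le
    have h4 : ρ * (6 * τ * w) ≤ τ * (6 * τ * w) :=
      mul_le_mul_of_nonneg_right hρτ (by positivity)
    have h5 : (ρ * |x|) * (4 * τ) ≤ (6 * τ * w) * (4 * τ) :=
      mul_le_mul_of_nonneg_right hX1 (by positivity)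
    nlinarith
  -- rho^3 |y| ≤ 960 tau^3 w
  have hY2 : ρ ^ 3 * |y| ≤ 960 * τ ^ 3 * w := by
    calc ρ ^ 3 * |y| = (ρ * |y|) * ρ ^ 2 := by ring
      _ ≤ (ρ * |y|) * (32 * τ * |γ|) := mul_le_mul_of_nonneg_left hγ (by positivity)
      _ = 32 * τ * (ρ * (|y| * |γ|)) := by ring
      _ ≤ 32 * τ * (30 * τ ^ 2 * w) := mul_le_mul_of_nonneg_left hY1 (by positivity)
      _ = 960 * τ ^ 3 * w := by ring
  have hρ3 : 0 < ρ ^ 3 := by positivity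
  have hρ23 : ρ ^ 2 ≤ τ ^ 2 := by
    exact pow_le_pow_left₀ hρ.le hρτ 2
  -- rho^3 |x| ≤ 6 tau^3 w
  have hX2 : ρ ^ 3 * |x| ≤ 6 * τ ^ 3 * w := by
    calc ρ ^ 3 * |x| = ρ ^ 2 * (ρ * |x|) := by ring
      _ ≤ τ ^ 2 * (6 * τ * w) := mul_le_mul hρ23 hX1 (by positivity) (by positivity)
      _ = 6 * τ ^ 3 * w := by ring
  -- squares
  have hXX : ρ ^ 3 * x ^ 2 ≤ w * τ ^ 4 := by
    have h1 : (ρ ^ 3 * |x|) * (ρ ^ 3 * |x|) ≤ (6 * τ ^ 3 * w) * (6 * τ ^ 3 * w) :=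
      mul_self_le_mul_self (by positivity) hX2
    have h2 : ρ ^ 3 * (ρ ^ 3 * x ^ 2) ≤ ρ ^ 3 * (w * τ ^ 4) := by
      calc ρ ^ 3 * (ρ ^ 3 * x ^ 2) = (ρ ^ 3 * |x|) * (ρ ^ 3 * |x|) := by
            rw [← sq_abs x]; ring
        _ ≤ (6 * τ ^ 3 * w) * (6 * τ ^ 3 * w) := h1
        _ = 36 * (w * τ ^ 2) * (w * τ ^ 4) := by ring
        _ ≤ ((10:ℝ) ^ 6 * w * τ ^ 2) * (w * τ ^ 4) := by
            apply mul_le_mul_of_nonneg_right _ (by positivity)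
            nlinarith [mul_pos hw0 (mul_pos hτ hτ)]
        _ ≤ ρ ^ 3 * (w * τ ^ 4) := mul_le_mul_of_nonneg_right hC (by positivity)
    exact le_of_mul_le_mul_left h2 hρ3
  have hYY : ρ ^ 3 * y ^ 2 ≤ w * τ ^ 4 := by
    have h1 : (ρ ^ 3 * |y|) * (ρ ^ 3 * |y|) ≤ (960 * τ ^ 3 * w) * (960 * τ ^ 3 * w) :=
      mul_self_le_mul_self (by positivity) hY2
    have h2 : ρ ^ 3 * (ρ ^ 3 * y ^ 2) ≤ ρ ^ 3 * (w * τ ^ 4) := by
      calc ρ ^ 3 * (ρ ^ 3 * y ^ 2) = (ρ ^ 3 * |y|) * (ρ ^ 3 * |y|) := by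
            rw [← sq_abs y]; ring
        _ ≤ (960 * τ ^ 3 * w) * (960 * τ ^ 3 * w) := h1
        _ = 921600 * (w * τ ^ 2) * (w * τ ^ 4) := by ring
        _ ≤ ((10:ℝ) ^ 6 * w * τ ^ 2) * (w * τ ^ 4) := by
            apply mul_le_mul_of_nonneg_right _ (by positivity)
            nlinarith [mul_pos hw0 (mul_pos hτ hτ)]
        _ ≤ ρ ^ 3 * (w * τ ^ 4) := mul_le_mul_of_nonneg_right hC (by positivity)
    exact le_of_mul_le_mul_left h2 hρ3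
  -- the product z (z + 2 c3)
  have hZ : ρ ^ 3 * |z * (z + 2 * c3)| ≤ 3872 * (w * τ ^ 4) := by
    have h1 : z * (z + 2 * c3) = g - x ^ 2 - y ^ 2 - 2 * (c1 * x) - 2 * (c2 * y) := by
      rw [← heq]; ring
    have h2 : |z * (z + 2 * c3)| ≤ |g| + x ^ 2 + y ^ 2 + 2 * (|c1| * |x|) + 2 * (|c2| * |y|) := by
      rw [h1]
      have a1 := abs_sub (g - x ^ 2 - y ^ 2 - 2 * (c1 * x)) (2 * (c2 * y))
      have a2 := abs_sub (g - x ^ 2 - y ^ 2) (2 * (c1 * x))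
      have a3 := abs_sub (g - x ^ 2) (y ^ 2)
      have a4 := abs_sub g (x ^ 2)
      rw [abs_of_nonneg (sq_nonneg x)] at a4
      rw [abs_of_nonneg (sq_nonneg y)] at a3
      rw [abs_mul 2 (c1 * x), abs_mul c1 x, abs_of_pos (by norm_num : (0:ℝ) < 2)] at a2
      rw [abs_mul 2 (c2 * y), abs_mul c2 y, abs_of_pos (by norm_num : (0:ℝ) < 2)] at a1
      linarith
    have h3 : |c1| * |x| ≤ 2 * τ * |x| := mul_le_mul_of_nonneg_right hc1 hx0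
    have h4 : |c2| * |y| ≤ 2 * τ * |y| := mul_le_mul_of_nonneg_right hc2 hy0
    have h5 : ρ ^ 3 * |g| ≤ 6 * (w * τ ^ 4) := by
      calc ρ ^ 3 * |g| ≤ τ ^ 3 * (6 * τ * w) :=
            mul_le_mul (pow_le_pow_left₀ hρ.le hρτ 3) hg (abs_nonneg _) (by positivity)
        _ = 6 * (w * τ ^ 4) := by ring
    have h6 : ρ ^ 3 * (2 * τ * |x|) ≤ 12 * (w * τ ^ 4) := by
      calc ρ ^ 3 * (2 * τ * |x|) = 2 * τ * (ρ ^ 3 * |x|) := by ring
        _ ≤ 2 * τ * (6 * τ ^ 3 * w) := mul_le_mul_of_nonneg_left hX2 (by positivity)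
        _ = 12 * (w * τ ^ 4) := by ring
    have h7 : ρ ^ 3 * (2 * τ * |y|) ≤ 1920 * (w * τ ^ 4) := by
      calc ρ ^ 3 * (2 * τ * |y|) = 2 * τ * (ρ ^ 3 * |y|) := by ring
        _ ≤ 2 * τ * (960 * τ ^ 3 * w) := mul_le_mul_of_nonneg_left hY2 (by positivity)
        _ = 1920 * (w * τ ^ 4) := by ring
    have h8 : ρ ^ 3 * |z * (z + 2 * c3)| ≤
        ρ ^ 3 * (|g| + x ^ 2 + y ^ 2 + 2 * (2 * τ * |x|) + 2 * (2 * τ * |y|)) :=
      mul_le_mul_of_nonneg_left (by linarith) hρ3.le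
    nlinarith
  have hwτ4 : 0 < w * τ ^ 4 := by positivity
  rcases le_total (|z|) (|z + 2 * c3|) with h | h
  · left
    have h1 : z ^ 2 ≤ |z * (z + 2 * c3)| := by
      rw [abs_mul, ← sq_abs z, sq]
      exact mul_le_mul_of_nonneg_left h (abs_nonneg _)
    have h2 : ρ ^ 3 * z ^ 2 ≤ ρ ^ 3 * |z * (z + 2 * c3)| := mul_le_mul_of_nonneg_left h1 hρ3.le
    have h3 : ρ ^ 3 * (x ^ 2 + y ^ 2 + z ^ 2) ≤ 3874 * (w * τ ^ 4) := by linarith
    calc _ ≤ 3874 * (w * τ ^ 4) := h3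
      _ ≤ (10:ℝ) ^ 6 * (w * τ ^ 4) := by
          apply mul_le_mul_of_nonneg_right (by norm_num) hwτ4.le
      _ = _ := by ring
  · right
    have h1 : (z + 2 * c3) ^ 2 ≤ |z * (z + 2 * c3)| := by
      rw [abs_mul, ← sq_abs (z + 2 * c3), sq]
      exact mul_le_mul_of_nonneg_right h (abs_nonneg _)
    have h2 : ρ ^ 3 * (z + 2 * c3) ^ 2 ≤ ρ ^ 3 * |z * (z + 2 * c3)| :=
      mul_le_mul_of_nonneg_left h1 hρ3.le
    have h3 : ρ ^ 3 * (x ^ 2 + y ^ 2 + (z + 2 * c3) ^ 2) ≤ 3874 * (w * τ ^ 4) := by linarith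
    calc _ ≤ 3874 * (w * τ ^ 4) := h3
      _ ≤ (10:ℝ) ^ 6 * (w * τ ^ 4) := by
          apply mul_le_mul_of_nonneg_right (by norm_num) hwτ4.le
      _ = _ := by ring

/-- an orthonormal frame adapted to two vectors -/
private lemma GA_frame (A B : E 3) : ∃ b : OrthonormalBasis (Fin 3) ℝ (E 3),
    inner ℝ (b 1) A = 0 ∧ inner ℝ (b 2) A = 0 ∧ inner ℝ (b 2) B = 0 := by
  have hd : Module.finrank ℝ (E 3) = Fintype.card (Fin 3) := by
    simp [E]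
  refine ⟨InnerProductSpace.gramSchmidtOrthonormalBasis hd ![A, B, 0], ?_, ?_, ?_⟩
  · have := InnerProductSpace.gramSchmidtOrthonormalBasis_inv_triangular hd ![A, B, 0]
      (i := 0) (j := 1) (by decide)
    simpa using this
  · have := InnerProductSpace.gramSchmidtOrthonormalBasis_inv_triangular hd ![A, B, 0]
      (i := 0) (j := 2) (by decide)
    simpa using this
  · have := InnerProductSpace.gramSchmidtOrthonormalBasis_inv_triangular hd ![A, B, 0]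
      (i := 1) (j := 2) (by decide)
    simpa using this

/-- squared norms in an orthonormal frame -/
private lemma GA_norm (b : OrthonormalBasis (Fin 3) ℝ (E 3)) (v : E 3) :
    ‖v‖ ^ 2 = inner ℝ (b 0) v ^ 2 + inner ℝ (b 1) v ^ 2 + inner ℝ (b 2) v ^ 2 := by
  have := b.sum_sq_norm_inner_right v
  rw [← this, Fin.sum_univ_three]
  simp only [Real.norm_eq_abs, sq_abs]

private lemma GA_coord (b : OrthonormalBasis (Fin 3) ℝ (E 3)) (v : E 3) (i : Fin 3) :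
    |inner ℝ (b i) v| ≤ ‖v‖ := by
  have := abs_real_inner_le_norm (b i) v
  rwa [b.norm_eq_one i, one_mul] at this

/-- three annuli with separated centres meet in two small balls -/
theorem three_annuli : ∃ C : ℝ, 0 < C ∧ ∀ (z1 z2 z3 a : E 3) (τ w ρ : ℝ), 1 ≤ w → w ≤ τ →
    0 < ρ → ρ ≤ τ → C * w * τ ^ 2 ≤ ρ ^ 3 → ρ ≤ dist z1 z2 → ρ ≤ dist z1 z3 → ρ ≤ dist z2 z3 →
    |dist a z1 - τ| ≤ w → |dist a z2 - τ| ≤ w → |dist a z3 - τ| ≤ w →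
    ∃ a' : E 3, ∀ b : E 3, |dist b z1 - τ| ≤ w → |dist b z2 - τ| ≤ w → |dist b z3 - τ| ≤ w →
      ρ ^ 3 * dist b a ^ 2 ≤ C * w * τ ^ 4 ∨ ρ ^ 3 * dist b a' ^ 2 ≤ C * w * τ ^ 4 := by
  refine ⟨(10:ℝ) ^ 6, by norm_num, ?_⟩
  intro z1 z2 z3 a τ w ρ hw hwτ hρ hρτ hC h12 h13 h23 ha1 ha2 ha3
  obtain ⟨u, hu1A, hu2A, hu2B⟩ := GA_frame (z2 - z1) (z3 - z1)
  have hτ : 0 < τ := by linarith
  -- coordinates
  set p : Fin 3 → E 3 → ℝ := fun i v => inner ℝ (u i) v with hp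
  have padd : ∀ i v v', p i (v + v') = p i v + p i v' := fun i v v' => inner_add_right _ _ _
  have psub : ∀ i v v', p i (v - v') = p i v - p i v' := fun i v v' => inner_sub_right _ _ _
  have hn : ∀ v : E 3, ‖v‖ ^ 2 = p 0 v ^ 2 + p 1 v ^ 2 + p 2 v ^ 2 := GA_norm u
  have hc : ∀ (v : E 3) (i : Fin 3), |p i v| ≤ ‖v‖ := fun v i => GA_coord u v i
  have hA1 : p 1 (z2 - z1) = 0 := hu1A
  have hA2 : p 2 (z2 - z1) = 0 := hu2A
  have hB2 : p 2 (z3 - z1) = 0 := hu2B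
  set α : ℝ := p 0 (z2 - z1) with hα
  set β : ℝ := p 0 (z3 - z1) with hβ
  set γ : ℝ := p 1 (z3 - z1) with hγ
  set c1 : ℝ := p 0 (a - z1) with hc1
  set c2 : ℝ := p 1 (a - z1) with hc2
  set c3 : ℝ := p 2 (a - z1) with hc3
  have hd1 : dist a z1 ^ 2 = c1 ^ 2 + c2 ^ 2 + c3 ^ 2 := by
    rw [dist_eq_norm, hn]
  have hd2 : dist a z2 ^ 2 = (c1 - α) ^ 2 + c2 ^ 2 + c3 ^ 2 := by
    have : a - z2 = (a - z1) - (z2 - z1) := by abel
    rw [dist_eq_norm, this, hn, psub 0 (a - z1), psub 1 (a - z1), psub 2 (a - z1), hA1, hA2,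
      sub_zero, sub_zero]
  have hd3 : dist a z3 ^ 2 = (c1 - β) ^ 2 + (c2 - γ) ^ 2 + c3 ^ 2 := by
    have : a - z3 = (a - z1) - (z3 - z1) := by abel
    rw [dist_eq_norm, this, hn, psub 0 (a - z1), psub 1 (a - z1), psub 2 (a - z1), hB2, sub_zero]
  have h12' : ρ ^ 2 ≤ α ^ 2 := by
    have h : dist z1 z2 ^ 2 = α ^ 2 := by
      rw [dist_comm, dist_eq_norm, hn, hA1, hA2]; ring
    rw [← h]; exact pow_le_pow_left₀ hρ.le h12 2
  have h13' : ρ ^ 2 ≤ β ^ 2 + γ ^ 2 := by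
    have h : dist z1 z3 ^ 2 = β ^ 2 + γ ^ 2 := by
      rw [dist_comm, dist_eq_norm, hn, hB2]; ring
    rw [← h]; exact pow_le_pow_left₀ hρ.le h13 2
  have h23' : ρ ^ 2 ≤ (α - β) ^ 2 + γ ^ 2 := by
    have h : dist z2 z3 ^ 2 = (α - β) ^ 2 + γ ^ 2 := by
      have : z2 - z3 = (z2 - z1) - (z3 - z1) := by abel
      rw [dist_eq_norm, this, hn, psub 0 (z2 - z1), psub 1 (z2 - z1), psub 2 (z2 - z1), hA1, hA2,
        hB2]
      ring
    rw [← h]; exact pow_le_pow_left₀ hρ.le h23 2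
  have he1 := GA_sq _ τ w dist_nonneg hw hwτ ha1
  have he2 := GA_sq _ τ w dist_nonneg hw hwτ ha2
  have he3 := GA_sq _ τ w dist_nonneg hw hwτ ha3
  have hda1 : dist a z1 ≤ 2 * τ := by have := (abs_le.mp ha1).2; linarith
  have hda3 : dist a z3 ≤ 2 * τ := by have := (abs_le.mp ha3).2; linarith
  have hc1' : |c1| ≤ 2 * τ := (hc _ _).trans (by rw [← dist_eq_norm]; exact hda1)
  have hc2' : |c2| ≤ 2 * τ := (hc _ _).trans (by rw [← dist_eq_norm]; exact hda1)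
  have hβ' : |β| ≤ 4 * τ := by
    refine (hc _ _).trans ?_
    rw [← dist_eq_norm]
    have := dist_triangle z3 a z1
    rw [dist_comm z3 a] at this
    linarith
  have e1 : 2 * c1 * α = α ^ 2 + (dist a z1 ^ 2 - τ ^ 2) - (dist a z2 ^ 2 - τ ^ 2) := by
    rw [hd1, hd2]; ring
  have e2 : 2 * (c1 * β + c2 * γ) =
      β ^ 2 + γ ^ 2 + (dist a z1 ^ 2 - τ ^ 2) - (dist a z3 ^ 2 - τ ^ 2) := by
    rw [hd1, hd3]; ring
  have hgam : ρ ^ 2 ≤ 32 * τ * |γ| :=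
    GA_gamma α β γ c1 c2 τ w ρ _ _ _ hw hwτ hρ hρτ hC h12' h13' h23' hβ' hc2' he1 he2 he3 e1 e2
  refine ⟨a - (2 * c3) • u 2, ?_⟩
  intro b hb1 hb2 hb3
  have hf1 := GA_sq _ τ w dist_nonneg hw hwτ hb1
  have hf2 := GA_sq _ τ w dist_nonneg hw hwτ hb2
  have hf3 := GA_sq _ τ w dist_nonneg hw hwτ hb3
  set x : ℝ := p 0 (b - a) with hx
  set y : ℝ := p 1 (b - a) with hy
  set z : ℝ := p 2 (b - a) with hz
  have hb1' : dist b z1 ^ 2 = (c1 + x) ^ 2 + (c2 + y) ^ 2 + (c3 + z) ^ 2 := by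
    have : b - z1 = (a - z1) + (b - a) := by abel
    rw [dist_eq_norm, this, hn, padd, padd, padd]
  have hb2' : dist b z2 ^ 2 = (c1 + x - α) ^ 2 + (c2 + y) ^ 2 + (c3 + z) ^ 2 := by
    have : b - z2 = ((a - z1) + (b - a)) - (z2 - z1) := by abel
    rw [dist_eq_norm, this, hn, psub 0 ((a - z1) + (b - a)), psub 1 ((a - z1) + (b - a)),
      psub 2 ((a - z1) + (b - a)), padd, padd, padd, hA1, hA2, sub_zero, sub_zero]
  have hb3' : dist b z3 ^ 2 = (c1 + x - β) ^ 2 + (c2 + y - γ) ^ 2 + (c3 + z) ^ 2 := by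
    have : b - z3 = ((a - z1) + (b - a)) - (z3 - z1) := by abel
    rw [dist_eq_norm, this, hn, psub 0 ((a - z1) + (b - a)), psub 1 ((a - z1) + (b - a)),
      psub 2 ((a - z1) + (b - a)), padd, padd, padd, hB2, sub_zero]
  rw [abs_le] at he1 he2 he3 hf1 hf2 hf3
  have hxα : |x * α| ≤ 6 * τ * w := by
    have h : 2 * (x * α) = ((dist b z1 ^ 2 - τ ^ 2) - (dist b z2 ^ 2 - τ ^ 2)) -
        ((dist a z1 ^ 2 - τ ^ 2) - (dist a z2 ^ 2 - τ ^ 2)) := by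
      rw [hb1', hb2', hd1, hd2]; ring
    rw [abs_le]
    constructor <;> linarith [he1.1, he1.2, he2.1, he2.2, hf1.1, hf1.2, hf2.1, hf2.2]
  have hyβ : |x * β + y * γ| ≤ 6 * τ * w := by
    have h : 2 * (x * β + y * γ) = ((dist b z1 ^ 2 - τ ^ 2) - (dist b z3 ^ 2 - τ ^ 2)) -
        ((dist a z1 ^ 2 - τ ^ 2) - (dist a z3 ^ 2 - τ ^ 2)) := by
      rw [hb1', hb3', hd1, hd3]; ring
    rw [abs_le]
    constructor <;> linarith [he1.1, he1.2, he3.1, he3.2, hf1.1, hf1.2, hf3.1, hf3.2]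
  have hg : |(dist b z1 ^ 2 - τ ^ 2) - (dist a z1 ^ 2 - τ ^ 2)| ≤ 6 * τ * w := by
    rw [abs_le]
    constructor <;> linarith [he1.1, he1.2, hf1.1, hf1.2]
  have heq : x ^ 2 + y ^ 2 + z ^ 2 + 2 * (c1 * x + c2 * y + c3 * z) =
      (dist b z1 ^ 2 - τ ^ 2) - (dist a z1 ^ 2 - τ ^ 2) := by
    rw [hb1', hd1]; ring
  have hdb : dist b a ^ 2 = x ^ 2 + y ^ 2 + z ^ 2 := by
    rw [dist_eq_norm, hn]
  have hu0 : p 0 (u 2) = 0 := by
    simp [hp]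
  have hu1 : p 1 (u 2) = 0 := by
    simp [hp]
  have hu2 : p 2 (u 2) = 1 := by
    simp [hp]
  have hdb' : dist b (a - (2 * c3) • u 2) ^ 2 = x ^ 2 + y ^ 2 + (z + 2 * c3) ^ 2 := by
    have : b - (a - (2 * c3) • u 2) = (b - a) + (2 * c3) • u 2 := by abel
    have psm : ∀ (i : Fin 3) (r : ℝ) (v : E 3), p i (r • v) = r * p i v :=
      fun i r v => real_inner_smul_right _ _ _
    rw [dist_eq_norm, this, hn, padd, padd, padd, psm, psm, psm, hu0, hu1, hu2]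
    ring
  rw [hdb, hdb']
  exact GA_fin α β γ c1 c2 c3 x y z τ w ρ _ hw hwτ hρ hρτ hC h12' hgam hβ' hc1' hc2' hxα hyβ hg heq

end Pool.LibTH93
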