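import Pool.Agent.LibTH93.GA

/-
PLAN (GB). If the filter is empty, trivial. Otherwise take a in it (a in Z), three_annuli with rho = w^80: conditions rho <= tau (w^20 >= 4), C w tau^2 <= 64 C w^201 <= w^240 (w^39 >= 64 C), w <= tau: all hold
for w >= w0. tau^4 <= 4096 w^400, so dist^2 <= 4096 C w^161 <= (C' w^81)^2 in both alternatives, R = C' w^81 >= 1. The b with dist b a <= R are in Yn Z a R: at most 2 u R. For the others take one of
them, b0 (in Z, dist b0 a' <= R): all are in Yn Z b0 (2R): at most 4 u R. Total <= 6 u C' w^81.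
-/

set_option autoImplicit false

noncomputable section

open MeasureTheory Metric Set Filter

namespace Pool.LibTH93

open Pool.LibSR53 Pool.LibTP53

private theorem gb_dist {C w τ D : ℝ} (hC : 0 < C) (hw : 1 ≤ w) (hτ0 : 0 ≤ τ)
    (hτ : τ ≤ 8 * w ^ 100) (hD : 0 ≤ D) (h : (w ^ 80) ^ 3 * D ^ 2 ≤ C * w * τ ^ 4) :
    D ≤ 64 * (C + 1) * w ^ 81 := by
  have hw0 : 0 < w := by linarith
  have h1 : τ ^ 4 ≤ (8 * w ^ 100) ^ 4 := pow_le_pow_left₀ hτ0 hτ 4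
  have h2 : (w ^ 80) ^ 3 * D ^ 2 ≤ (w ^ 80) ^ 3 * (4096 * C * w ^ 161) := by
    calc (w ^ 80) ^ 3 * D ^ 2 ≤ C * w * τ ^ 4 := h
      _ ≤ C * w * (8 * w ^ 100) ^ 4 := mul_le_mul_of_nonneg_left h1 (by positivity)
      _ = (w ^ 80) ^ 3 * (4096 * C * w ^ 161) := by ring
  have h3 : D ^ 2 ≤ 4096 * C * w ^ 161 := le_of_mul_le_mul_left h2 (by positivity)
  have h4 : (w ^ 161 : ℝ) ≤ w ^ 162 := pow_le_pow_right₀ hw (by norm_num)
  have h5 : (0 : ℝ) ≤ 64 * (C + 1) * w ^ 81 := by positivity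
  refine le_of_sq_le_sq ?_ h5
  calc D ^ 2 ≤ 4096 * C * w ^ 161 := h3
    _ ≤ 4096 * C * w ^ 162 := mul_le_mul_of_nonneg_left h4 (by positivity)
    _ ≤ 4096 * (C + 1) ^ 2 * w ^ 162 := by
        refine mul_le_mul_of_nonneg_right ?_ (by positivity)
        nlinarith
    _ = (64 * (C + 1) * w ^ 81) ^ 2 := by ring

open scoped Classical in
/-- points at distance about tau from three separated points -/
theorem triple_count : ∃ C w0 : ℝ, 0 < C ∧ 1 ≤ w0 ∧ ∀ (Z : Finset (E 3)) (u w τ : ℝ), 1 ≤ u →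
    w0 ≤ w → w ^ 100 / 4 ≤ τ → τ ≤ 8 * w ^ 100 →
    (∀ z ∈ Z, ∀ ρ : ℝ, 1 ≤ ρ → ((Yn Z z ρ).card : ℝ) ≤ 2 * u * ρ) →
    ∀ z1 z2 z3 : E 3, w ^ 80 ≤ dist z1 z2 → w ^ 80 ≤ dist z1 z3 → w ^ 80 ≤ dist z2 z3 →
    ((Z.filter (fun b => |dist b z1 - τ| ≤ w ∧ |dist b z2 - τ| ≤ w ∧ |dist b z3 - τ| ≤ w)).card : ℝ) ≤
      C * u * w ^ 81 := by
  obtain ⟨C, hC, hG⟩ := three_annuli
  refine ⟨6 * (64 * (C + 1)), max 4 (64 * C), by positivity,
    le_trans (by norm_num) (le_max_left _ _), ?_⟩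
  intro Z u w τ hu hw0 hτ1 hτ2 hdens z1 z2 z3 h12 h13 h23
  have hw4 : 4 ≤ w := (le_max_left _ _).trans hw0
  have hwC : 64 * C ≤ w := (le_max_right _ _).trans hw0
  have hw1 : 1 ≤ w := by linarith
  have hwpos : 0 < w := by linarith
  have h20 : 4 ≤ w ^ 20 := hw4.trans (le_self_pow₀ hw1 (by norm_num))
  have h80τ : w ^ 80 ≤ τ := by
    have h1 : w ^ 100 = w ^ 80 * w ^ 20 := by rw [← pow_add]
    have h2 : (0 : ℝ) < w ^ 80 := by positivity
    have h3 : w ^ 80 * 4 ≤ w ^ 80 * w ^ 20 := mul_le_mul_of_nonneg_left h20 h2.le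
    linarith
  have hwτ : w ≤ τ := (le_self_pow₀ hw1 (by norm_num)).trans h80τ
  have hτ0 : 0 ≤ τ := by linarith
  have hCw : C * w * τ ^ 2 ≤ (w ^ 80) ^ 3 := by
    have h1 : τ ^ 2 ≤ (8 * w ^ 100) ^ 2 := pow_le_pow_left₀ hτ0 hτ2 2
    calc C * w * τ ^ 2 ≤ C * w * (8 * w ^ 100) ^ 2 := mul_le_mul_of_nonneg_left h1 (by positivity)
      _ = 64 * C * w ^ 201 := by ring
      _ ≤ w * w ^ 201 := mul_le_mul_of_nonneg_right hwC (by positivity)
      _ = w ^ 202 := by ring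
      _ ≤ w ^ 240 := pow_le_pow_right₀ hw1 (by norm_num)
      _ = (w ^ 80) ^ 3 := by ring
  obtain ⟨R, hR⟩ : ∃ R : ℝ, R = 64 * (C + 1) * w ^ 81 := ⟨_, rfl⟩
  have hR1 : 1 ≤ R := by
    have h1 : (1 : ℝ) ≤ w ^ 81 := one_le_pow₀ hw1
    rw [hR]
    nlinarith
  obtain ⟨S, hS⟩ : ∃ S : Finset (E 3), S = Z.filter (fun b => |dist b z1 - τ| ≤ w ∧
    |dist b z2 - τ| ≤ w ∧ |dist b z3 - τ| ≤ w) := ⟨_, rfl⟩
  rw [← hS]
  rcases S.eq_empty_or_nonempty with h0 | ⟨a, ha⟩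
  · rw [h0, Finset.card_empty, Nat.cast_zero]
    positivity
  have ha2 := ha
  rw [hS, Finset.mem_filter] at ha2
  obtain ⟨haZ, ha1, ha2, ha3⟩ := ha2
  obtain ⟨a', ha'⟩ := hG z1 z2 z3 a τ w (w ^ 80) hw1 hwτ (by positivity) h80τ hCw h12 h13 h23
    ha1 ha2 ha3
  have hS2 : ∀ b ∈ S, b ∈ Z ∧ (dist b a ≤ R ∨ dist b a' ≤ R) := by
    intro b hb
    rw [hS, Finset.mem_filter] at hb
    obtain ⟨hbZ, hb1, hb2, hb3⟩ := hb
    refine ⟨hbZ, ?_⟩
    rw [hR]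
    rcases ha' b hb1 hb2 hb3 with h | h
    · exact Or.inl (gb_dist hC hw1 hτ0 hτ2 dist_nonneg h)
    · exact Or.inr (gb_dist hC hw1 hτ0 hτ2 dist_nonneg h)
  have hc1 := hdens a haZ R hR1
  obtain ⟨T, hT⟩ : ∃ T : Finset (E 3), T = S.filter (fun b => dist b a' ≤ R) := ⟨_, rfl⟩
  have hcT : (T.card : ℝ) ≤ 2 * u * (2 * R) := by
    rcases T.eq_empty_or_nonempty with h0 | ⟨b0, hb0⟩
    · rw [h0, Finset.card_empty, Nat.cast_zero]
      positivity
    · have hb1 := hb0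
      rw [hT, Finset.mem_filter] at hb1
      have hb2 := hS2 b0 hb1.1
      refine le_trans ?_ (hdens b0 hb2.1 (2 * R) (by linarith))
      have hsub : T ⊆ Yn Z b0 (2 * R) := by
        intro b hb
        rw [hT, Finset.mem_filter] at hb
        unfold Yn
        rw [Finset.mem_filter]
        refine ⟨(hS2 b hb.1).1, ?_⟩
        have h1 := dist_triangle_right b b0 a'
        linarith [hb.2, hb1.2]
      exact_mod_cast Finset.card_le_card hsub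
  have hsub : S ⊆ Yn Z a R ∪ T := by
    intro b hb
    rw [Finset.mem_union]
    obtain ⟨h1, h2⟩ := hS2 b hb
    rcases h2 with h2 | h2
    · left
      unfold Yn
      rw [Finset.mem_filter]
      exact ⟨h1, h2⟩
    · right
      rw [hT, Finset.mem_filter]
      exact ⟨hb, h2⟩
  have hcard : (S.card : ℝ) ≤ ((Yn Z a R).card : ℝ) + T.card := by
    exact_mod_cast (Finset.card_le_card hsub).trans (Finset.card_union_le _ _)
  calc (S.card : ℝ) ≤ ((Yn Z a R).card : ℝ) + T.card := hcard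
    _ ≤ 2 * u * R + 2 * u * (2 * R) := add_le_add hc1 hcT
    _ = 6 * (64 * (C + 1)) * u * w ^ 81 := by
        rw [hR]
        ring

end Pool.LibTH93
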