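import Pool.Agent.LibTH93.FB

/-
PLAN (GB2). Copy of discreteR (FB.lean) with arbitrary rectangles Y n x R n, n in J, instead of Y x R_n. For q in Y0 x R0 with gamma q <> 0 choose ch q in J (classical choice) with q in Y (ch q) x R (ch q) and
|gamma q| <= 2^(ch q). f n x = sum over q in Y n x R n of (if gamma q <> 0 and ch q = n then gamma q else 0) * Fk; coefficients at most 2^n (0 <= 2^n), so FB_piece (copy it) with level_Fk3 for Y n, R n (Sep of subsets)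
gives the two bounds with m n = wt (Y n x R n); interp_levels. sum over n in J of f n = sum over Y0 x R0 of gamma F: exchange: for q with gamma q <> 0 only n = ch q contributes (q in Y n x R n, a subset of Y0 x R0:
Finset.sum_subset to write all sums over Y0 x R0 with indicator), for gamma q = 0 both sides have 0.
-/

set_option autoImplicit false

noncomputable section

open MeasureTheory Metric Set Filter

namespace Pool.LibTH93

open Pool.LibSR53 Pool.LibTP53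

/-- one level, coefficients at most 2^j -/
private lemma GB2_piece {d : ℕ} (F : P d → E d → ℂ) (T : Finset (P d)) (t C0 M : ℝ) (ht : 0 < t)
    (h1 : ∀ γ : P d → ℂ, (∀ i, ‖γ i‖ ≤ 1) →
      ∫⁻ x, ‖∑ i ∈ T, γ i * F i x‖ₑ ^ t ≤ ENNReal.ofReal (C0 * M))
    (j : ℤ) (γ : P d → ℂ) (hγ : ∀ i ∈ T, ‖γ i‖ ≤ (2 : ℝ) ^ j) :
    ∫⁻ x, ‖∑ i ∈ T, γ i * F i x‖ₑ ^ t ≤
      ENNReal.ofReal (C0 * ((2 : ℝ) ^ j) ^ t * M) := by
  classical
  have h2j : (0 : ℝ) < 2 ^ j := zpow_pos two_pos j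
  let γ' : P d → ℂ := fun i => if i ∈ T then γ i / ((2 : ℝ) ^ j : ℝ) else 0
  have hγ' : ∀ i, ‖γ' i‖ ≤ 1 := by
    intro i
    by_cases hi : i ∈ T
    · have h0 : γ' i = γ i / ((2 : ℝ) ^ j : ℝ) := if_pos hi
      rw [h0, norm_div, Complex.norm_real, Real.norm_of_nonneg h2j.le, div_le_one h2j]
      exact hγ i hi
    · have h0 : γ' i = 0 := if_neg hi
      rw [h0, norm_zero]
      exact zero_le_one
  have e1 : ∀ x, ∑ i ∈ T, γ i * F i x = (((2 : ℝ) ^ j : ℝ) : ℂ) * ∑ i ∈ T, γ' i * F i x := by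
    intro x
    rw [Finset.mul_sum]
    refine Finset.sum_congr rfl fun i hi => ?_
    have h0 : γ' i = γ i / ((2 : ℝ) ^ j : ℝ) := if_pos hi
    have h3 : (((2 : ℝ) ^ j : ℝ) : ℂ) ≠ 0 := Complex.ofReal_ne_zero.2 h2j.ne'
    rw [h0]
    field_simp
  have e2 : ∀ x, ‖∑ i ∈ T, γ i * F i x‖ₑ ^ t =
      ENNReal.ofReal (((2 : ℝ) ^ j) ^ t) * ‖∑ i ∈ T, γ' i * F i x‖ₑ ^ t := by
    intro x
    rw [e1, enorm_mul, ENNReal.mul_rpow_of_nonneg _ _ ht.le]
    congr 1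
    rw [← ofReal_norm, Complex.norm_real, Real.norm_of_nonneg h2j.le,
      ENNReal.ofReal_rpow_of_nonneg h2j.le ht.le]
  simp only [e2]
  rw [lintegral_const_mul' _ _ ENNReal.ofReal_ne_top]
  calc ENNReal.ofReal (((2 : ℝ) ^ j) ^ t) * ∫⁻ x, ‖∑ i ∈ T, γ' i * F i x‖ₑ ^ t
      ≤ ENNReal.ofReal (((2 : ℝ) ^ j) ^ t) * ENNReal.ofReal (C0 * M) := by
        gcongr
        exact h1 γ' hγ'
    _ = ENNReal.ofReal (((2 : ℝ) ^ j) ^ t * (C0 * M)) := by
        rw [ENNReal.ofReal_mul (Real.rpow_nonneg h2j.le _)]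
    _ = _ := by
        congr 1
        ring

/-- the discrete inequality for coefficients with one rectangle at every dyadic height -/
theorem discreteG (η : SchwartzMap (E 3) ℂ) (ε : ℝ) (hε : 0 < ε)
    (hη : Van η ε) (p : ℝ) (hp1 : 1 < p) (hp2 : p * (1 + (1 : ℝ) / 2) < 2) :
    ∃ C : ℝ, 0 < C ∧ ∀ (Y0 : Finset (E 3)) (R0 : Finset ℝ), Pool.LibTP53.Sep Y0 R0 →
      ∀ (J : Finset ℤ) (Y : ℤ → Finset (E 3)) (R : ℤ → Finset ℝ), (∀ n, Y n ⊆ Y0) →
      (∀ n, R n ⊆ R0) → ∀ γ : P 3 → ℂ,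
      (∀ q ∈ Y0 ×ˢ R0, γ q ≠ 0 → ∃ n ∈ J, q ∈ Y n ×ˢ R n ∧ ‖γ q‖ ≤ (2 : ℝ) ^ n) →
      ∫⁻ x, ‖∑ q ∈ Y0 ×ˢ R0, γ q * Fk η q.1 q.2 x‖ₑ ^ p ≤
        ENNReal.ofReal (C * ∑ n ∈ J, ((2 : ℝ) ^ n) ^ p * wt (Y n ×ˢ R n)) := by
  classical
  have hpθ : p < 2 := by nlinarith
  obtain ⟨s, hs1, hs2, hs3⟩ : ∃ s : ℝ, 1 < s ∧ s < p ∧
      (p - 1) * s / (s - 1) * (1 + (1 : ℝ) / 2) < 2 := by
    have hcont : ContinuousAt (fun s : ℝ => (p - 1) * s / (s - 1) * (1 + (1 : ℝ) / 2)) p := by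
      apply ContinuousAt.mul _ continuousAt_const
      apply ContinuousAt.div
      · exact (continuous_const.mul continuous_id).continuousAt
      · exact (continuous_id.sub continuous_const).continuousAt
      · linarith
    have hval : (p - 1) * p / (p - 1) * (1 + (1 : ℝ) / 2) < 2 := by
      rw [mul_div_assoc, mul_div_cancel₀ _ (by linarith : p - 1 ≠ 0)]
      exact hp2
    have hev : ∀ᶠ s in nhds p, (p - 1) * s / (s - 1) * (1 + (1 : ℝ) / 2) < 2 :=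
      hcont.eventually_lt continuousAt_const hval
    obtain ⟨r, hr, hball⟩ := Metric.eventually_nhds_iff.mp hev
    refine ⟨max ((1 + p) / 2) (p - r / 2), ?_, ?_, ?_⟩
    · exact lt_of_lt_of_le (by linarith) (le_max_left _ _)
    · exact max_lt (by linarith) (by linarith)
    · apply hball
      rw [Real.dist_eq, abs_lt]
      constructor
      · have := le_max_right ((1 + p) / 2) (p - r / 2)
        linarith
      · have : max ((1 + p) / 2) (p - r / 2) < p := max_lt (by linarith) (by linarith)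
        linarith
  have hq2 : 1 < (p - 1) * s / (s - 1) := by
    rw [lt_div_iff₀ (by linarith)]
    nlinarith
  obtain ⟨Ca, hCa, ha⟩ := level_Fk3 η ε hε hη s hs1 (by nlinarith)
  obtain ⟨Cb, hCb, hb⟩ := level_Fk3 η ε hε hη _ hq2 hs3
  obtain ⟨Ci, hCi, hi⟩ := interp_levels p s (Ca + Cb) hp1 hpθ hs1 hs2 (by linarith)
  refine ⟨Ci, hCi, ?_⟩
  intro Y0 R0 hS J Y R hY hR γ hγ
  have hch : ∀ q : P 3, ∃ n : ℤ, q ∈ Y0 ×ˢ R0 → γ q ≠ 0 →
      n ∈ J ∧ q ∈ Y n ×ˢ R n ∧ ‖γ q‖ ≤ (2 : ℝ) ^ n := by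
    intro q
    by_cases h : q ∈ Y0 ×ˢ R0 ∧ γ q ≠ 0
    · obtain ⟨n, h1, h2, h3⟩ := hγ q h.1 h.2
      exact ⟨n, fun _ _ => ⟨h1, h2, h3⟩⟩
    · exact ⟨0, fun h1 h2 => absurd ⟨h1, h2⟩ h⟩
  choose ch hch using hch
  set β : ℤ → P 3 → ℂ := fun n q =>
    if q ∈ Y0 ×ˢ R0 ∧ γ q ≠ 0 ∧ ch q = n then γ q else 0 with hβ
  have hSn : ∀ n, Pool.LibTP53.Sep (Y n) (R n) := fun n =>
    ⟨fun y hy z hz => hS.ysep y (hY n hy) z (hY n hz),
      fun r hr s hs => hS.rsep r (hR n hr) s (hR n hs),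
      fun r hr => hS.one_le r (hR n hr)⟩
  have hT1 : ∀ q ∈ Y0 ×ˢ R0, 1 ≤ q.2 := fun q hq => hS.one_le q.2 (Finset.mem_product.1 hq).2
  have hsub : ∀ n, Y n ×ˢ R n ⊆ Y0 ×ˢ R0 := fun n => Finset.product_subset_product (hY n) (hR n)
  have hm : ∀ n, 0 ≤ wt (Y n ×ˢ R n) := fun n => Finset.sum_nonneg fun q hq =>
    pow_nonneg (by linarith [hT1 q (hsub n hq)]) _
  have hβn : ∀ n, ∀ q ∈ Y n ×ˢ R n, ‖β n q‖ ≤ (2 : ℝ) ^ n := by
    intro n q hq
    by_cases h : q ∈ Y0 ×ˢ R0 ∧ γ q ≠ 0 ∧ ch q = n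
    · have h0 : β n q = γ q := if_pos h
      rw [h0]
      have h1 := (hch q h.1 h.2.1).2.2
      rwa [h.2.2] at h1
    · have h0 : β n q = 0 := if_neg h
      rw [h0, norm_zero]
      exact (zpow_pos two_pos n).le
  have hmeas : ∀ j ∈ J, AEStronglyMeasurable
      (fun x => ∑ q ∈ Y j ×ˢ R j, β j q * Fk η q.1 q.2 x) (volume : Measure (E 3)) := by
    intro j _
    refine Finset.aestronglyMeasurable_fun_sum _ fun q hq => ?_
    exact aestronglyMeasurable_const.mul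
      (Fk_continuous (by norm_num) η q.1 q.2
        (by linarith [hT1 q (hsub j hq)])).aestronglyMeasurable
  have hsA : ∀ j ∈ J, ∫⁻ x, ‖∑ q ∈ Y j ×ˢ R j, β j q * Fk η q.1 q.2 x‖ₑ ^ s ≤
      ENNReal.ofReal ((Ca + Cb) * ((2 : ℝ) ^ j) ^ s * wt (Y j ×ˢ R j)) := by
    intro j _
    refine (GB2_piece (fun q => Fk η q.1 q.2) (Y j ×ˢ R j) s Ca (wt (Y j ×ˢ R j)) (by linarith)
      (fun γ' hγ' => ha (Y j) (R j) (hSn j) γ' hγ') j (β j) (hβn j)).trans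
        (ENNReal.ofReal_le_ofReal ?_)
    refine mul_le_mul_of_nonneg_right (mul_le_mul_of_nonneg_right (by linarith) ?_) (hm j)
    exact Real.rpow_nonneg (zpow_pos two_pos j).le _
  have hsB : ∀ j ∈ J, ∫⁻ x, ‖∑ q ∈ Y j ×ˢ R j, β j q * Fk η q.1 q.2 x‖ₑ ^
      ((p - 1) * s / (s - 1)) ≤
      ENNReal.ofReal ((Ca + Cb) * ((2 : ℝ) ^ j) ^ ((p - 1) * s / (s - 1)) *
        wt (Y j ×ˢ R j)) := by
    intro j _
    refine (GB2_piece (fun q => Fk η q.1 q.2) (Y j ×ˢ R j) _ Cb (wt (Y j ×ˢ R j)) (by linarith)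
      (fun γ' hγ' => hb (Y j) (R j) (hSn j) γ' hγ') j (β j) (hβn j)).trans
        (ENNReal.ofReal_le_ofReal ?_)
    refine mul_le_mul_of_nonneg_right (mul_le_mul_of_nonneg_right (by linarith) ?_) (hm j)
    exact Real.rpow_nonneg (zpow_pos two_pos j).le _
  have hmain := hi (volume : Measure (E 3)) J
    (fun j x => ∑ q ∈ Y j ×ˢ R j, β j q * Fk η q.1 q.2 x) (fun j => wt (Y j ×ˢ R j)) hmeas hm
    hsA hsB
  have hbig : ∀ j x, ∑ q ∈ Y j ×ˢ R j, β j q * Fk η q.1 q.2 x =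
      ∑ q ∈ Y0 ×ˢ R0, β j q * Fk η q.1 q.2 x := by
    intro j x
    refine Finset.sum_subset (hsub j) fun q hq hq' => ?_
    have h0 : β j q = 0 := by
      refine if_neg ?_
      rintro ⟨h1, h2, h3⟩
      apply hq'
      rw [← h3]
      exact (hch q h1 h2).2.1
    rw [h0, zero_mul]
  have hdec : ∀ x, ∑ q ∈ Y0 ×ˢ R0, γ q * Fk η q.1 q.2 x =
      ∑ j ∈ J, ∑ q ∈ Y j ×ˢ R j, β j q * Fk η q.1 q.2 x := by
    intro x
    simp only [hbig]
    rw [Finset.sum_comm]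
    refine Finset.sum_congr rfl fun q hq => ?_
    rw [← Finset.sum_mul]
    congr 1
    by_cases h0 : γ q = 0
    · rw [h0]
      refine (Finset.sum_eq_zero fun j _ => ?_).symm
      exact if_neg fun h => h.2.1 h0
    · rw [Finset.sum_eq_single (ch q)]
      · exact (if_pos ⟨hq, h0, rfl⟩).symm
      · intro j _ hj
        exact if_neg fun h => hj h.2.2.symm
      · intro h
        exact absurd (hch q hq h0).1 h
  simp only [hdec]
  exact hmain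

end Pool.LibTH93
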