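import Pool.Agent.LibTH93.GB

/-
PLAN (GC). Bipartite form. m = Z.card, m' = Z'.card. deg b = card of {z in Z : |dist z b - tau| <= w} for b in Z', I = sum over b in Z' of deg b = card of the filter of Z x Z'. I^3 <= m'^2 sum deg^3 (Hoelder:
inner_le_Lp_mul_Lq, or twice Cauchy: I^2 <= m' sum deg^2, (sum deg^2)^2 <= (sum deg)(sum deg^3), so I^4 <= m'^2 I sum deg^3). sum deg^3 = number of (z1,z2,z3,b), z_i in Z, b in Z', all |dist z_i b - tau| <= w.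
Quadruples with dist z_i z_j < w^80 for some pair: for each of the 3 pairs <= m * 2 u w^80 * m * m' (z2 in Yn Z z1 (w^80), z3 and b free). The others: <= m^3 * C u w^81 (triple_count for Z'; dist symmetric).
So I^3 <= m'^2 (6 u w^80 m^2 m' + C u w^81 m^3) <= (6 + C) u w^81 (m + m')^5 and (m + m')^2 <= 256 u^2 w^200: I^3 <= C' (m + m')^3 u^3 w^281 <= (C'' u w^94 (m + m'))^3 (w^281 <= w^282).
-/

set_option autoImplicit false

noncomputable section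

open MeasureTheory Metric Set Filter

namespace Pool.LibTH93

open Pool.LibSR53 Pool.LibTP53

/-- triples with a close pair -/
private theorem GC_triples {α : Type} (Z : Finset α) (χ : α → α → ℝ) (A X M : ℝ) (hM : 0 ≤ M)
    (hX : ∀ z ∈ Z, ∑ z' ∈ Z, χ z z' ≤ X) (T : α → α → α → ℝ)
    (hT : ∀ z1 ∈ Z, ∀ z2 ∈ Z, ∀ z3 ∈ Z,
      T z1 z2 z3 ≤ A + M * (χ z1 z2 + χ z1 z3 + χ z2 z3)) :
    ∑ z1 ∈ Z, ∑ z2 ∈ Z, ∑ z3 ∈ Z, T z1 z2 z3 ≤
      (Z.card : ℝ) ^ 3 * A + 3 * (Z.card : ℝ) ^ 2 * M * X := by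
  have hc : (0 : ℝ) ≤ Z.card := Nat.cast_nonneg _
  have h3 : ∀ z1 ∈ Z, ∀ z2 ∈ Z, ∑ z3 ∈ Z, T z1 z2 z3 ≤
      (Z.card * A + 2 * M * X) + Z.card * M * χ z1 z2 := by
    intro z1 h1 z2 h2
    have e1 := mul_le_mul_of_nonneg_left (hX z1 h1) hM
    have e2 := mul_le_mul_of_nonneg_left (hX z2 h2) hM
    calc ∑ z3 ∈ Z, T z1 z2 z3
        ≤ ∑ z3 ∈ Z, ((A + M * χ z1 z2) + M * χ z1 z3 + M * χ z2 z3) :=
          Finset.sum_le_sum fun z3 h3 => (hT z1 h1 z2 h2 z3 h3).trans_eq (by ring)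
      _ = Z.card * (A + M * χ z1 z2) + M * (∑ z3 ∈ Z, χ z1 z3) + M * (∑ z3 ∈ Z, χ z2 z3) := by
          rw [Finset.sum_add_distrib, Finset.sum_add_distrib, Finset.sum_const, nsmul_eq_mul,
            Finset.mul_sum, Finset.mul_sum]
      _ ≤ _ := by linarith
  have h2 : ∀ z1 ∈ Z, ∑ z2 ∈ Z, ∑ z3 ∈ Z, T z1 z2 z3 ≤
      Z.card * (Z.card * A + 2 * M * X) + Z.card * M * X := by
    intro z1 h1
    calc ∑ z2 ∈ Z, ∑ z3 ∈ Z, T z1 z2 z3
        ≤ ∑ z2 ∈ Z, ((Z.card * A + 2 * M * X) + Z.card * M * χ z1 z2) :=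
          Finset.sum_le_sum fun z2 h2 => h3 z1 h1 z2 h2
      _ = Z.card * (Z.card * A + 2 * M * X) + Z.card * M * (∑ z2 ∈ Z, χ z1 z2) := by
          rw [Finset.sum_add_distrib, Finset.sum_const, nsmul_eq_mul, Finset.mul_sum]
      _ ≤ _ := by
          have := mul_le_mul_of_nonneg_left (hX z1 h1) (mul_nonneg hc hM)
          linarith
  calc ∑ z1 ∈ Z, ∑ z2 ∈ Z, ∑ z3 ∈ Z, T z1 z2 z3
      ≤ ∑ _z1 ∈ Z, ((Z.card : ℝ) * (Z.card * A + 2 * M * X) + Z.card * M * X) :=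
        Finset.sum_le_sum h2
    _ = Z.card * ((Z.card : ℝ) * (Z.card * A + 2 * M * X) + Z.card * M * X) := by
        rw [Finset.sum_const, nsmul_eq_mul]
    _ = _ := by ring

/-- the sum of the cubes of the degrees counts triples -/
private theorem GC_cube {α β : Type} (Z : Finset α) (Z' : Finset β) (a : α → β → ℝ) :
    ∑ b ∈ Z', (∑ z ∈ Z, a z b) ^ 3 =
      ∑ z1 ∈ Z, ∑ z2 ∈ Z, ∑ z3 ∈ Z, ∑ b ∈ Z', a z1 b * a z2 b * a z3 b := by
  have h : ∀ b ∈ Z', (∑ z ∈ Z, a z b) ^ 3 =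
      ∑ z1 ∈ Z, ∑ z2 ∈ Z, ∑ z3 ∈ Z, a z1 b * a z2 b * a z3 b := by
    intro b _
    rw [pow_succ, pow_two, Finset.sum_mul_sum, Finset.sum_mul]
    refine Finset.sum_congr rfl fun z1 _ => ?_
    rw [Finset.sum_mul]
    refine Finset.sum_congr rfl fun z2 _ => ?_
    rw [Finset.mul_sum]
  rw [Finset.sum_congr rfl h, Finset.sum_comm]
  refine Finset.sum_congr rfl fun z1 _ => ?_
  rw [Finset.sum_comm]
  refine Finset.sum_congr rfl fun z2 _ => ?_
  rw [Finset.sum_comm]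

/-- the final computation -/
private theorem GC_final {C u w m m' I S : ℝ} (hC : 0 < C) (hu : 1 ≤ u) (hw : 1 ≤ w)
    (hm : 0 ≤ m) (hm' : 0 ≤ m') (hm1 : m ≤ 8 * u * w ^ 100) (hm2 : m' ≤ 8 * u * w ^ 100)
    (hIS : I ^ 3 ≤ m' ^ 2 * S)
    (hS : S ≤ m ^ 3 * (C * u * w ^ 81) + 3 * m ^ 2 * m' * (2 * u * w ^ 80)) :
    I ≤ 256 * (6 + C) * u * w ^ 94 * (m + m') := by
  have hu0 : 0 < u := by linarith
  have hw0 : 0 < w := by linarith
  set n := m + m' with hn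
  have hn0 : 0 ≤ n := by positivity
  have hmn : m ≤ n := by linarith
  have hmn' : m' ≤ n := by linarith
  have h1 : w ^ 80 ≤ w ^ 81 := pow_le_pow_right₀ hw (by norm_num)
  have h2 : w ^ 281 ≤ w ^ 282 := pow_le_pow_right₀ hw (by norm_num)
  have hS' : S ≤ (6 + C) * u * w ^ 81 * n ^ 3 := by
    have e1 : m ^ 3 * (C * u * w ^ 81) ≤ n ^ 3 * (C * u * w ^ 81) := by gcongr
    have e2 : 3 * m ^ 2 * m' * (2 * u * w ^ 80) ≤ 3 * n ^ 2 * n * (2 * u * w ^ 81) := by gcongr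
    calc S ≤ n ^ 3 * (C * u * w ^ 81) + 3 * n ^ 2 * n * (2 * u * w ^ 81) := by linarith
      _ = _ := by ring
  have hn2 : n ^ 2 ≤ 256 * u ^ 2 * w ^ 200 := by
    calc n ^ 2 ≤ (16 * u * w ^ 100) ^ 2 := by
          refine pow_le_pow_left₀ hn0 ?_ 2
          linarith
      _ = _ := by ring
  have h3 : I ^ 3 ≤ (256 * (6 + C) * u * w ^ 94 * n) ^ 3 := by
    calc I ^ 3 ≤ m' ^ 2 * S := hIS
      _ ≤ m' ^ 2 * ((6 + C) * u * w ^ 81 * n ^ 3) := by gcongr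
      _ ≤ n ^ 2 * ((6 + C) * u * w ^ 81 * n ^ 3) := by gcongr
      _ ≤ (256 * u ^ 2 * w ^ 200) * ((6 + C) * u * w ^ 81 * n ^ 3) := by gcongr
      _ = (256 * (6 + C)) * (u ^ 3 * n ^ 3) * w ^ 281 := by ring
      _ ≤ (256 * (6 + C)) * (u ^ 3 * n ^ 3) * w ^ 282 := by gcongr
      _ ≤ (256 * (6 + C)) ^ 3 * (u ^ 3 * n ^ 3) * w ^ 282 := by
          have h5 : 1 ≤ 256 * (6 + C) := by linarith
          have h6 : 256 * (6 + C) ≤ (256 * (6 + C)) ^ 3 := le_self_pow₀ h5 (by norm_num)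
          gcongr
      _ = (256 * (6 + C) * u * w ^ 94 * n) ^ 3 := by ring
  exact le_of_pow_le_pow_left₀ (by norm_num) (by positivity) h3

open scoped Classical in
/-- pairs at distance about tau between two one-dimensional sets of points in space -/
theorem pairs_dist : ∃ C w0 : ℝ, 0 < C ∧ 1 ≤ w0 ∧ ∀ (Z Z' : Finset (E 3)) (u w τ : ℝ), 1 ≤ u →
    w0 ≤ w → w ^ 100 / 4 ≤ τ → τ ≤ 8 * w ^ 100 →
    (∀ z ∈ Z, ∀ ρ : ℝ, 1 ≤ ρ → ((Yn Z z ρ).card : ℝ) ≤ 2 * u * ρ) →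
    (∀ z ∈ Z', ∀ ρ : ℝ, 1 ≤ ρ → ((Yn Z' z ρ).card : ℝ) ≤ 2 * u * ρ) →
    (Z.card : ℝ) ≤ 8 * u * w ^ 100 → (Z'.card : ℝ) ≤ 8 * u * w ^ 100 →
    (((Z ×ˢ Z').filter (fun x => |dist x.1 x.2 - τ| ≤ w)).card : ℝ) ≤
      C * u * w ^ 94 * ((Z.card : ℝ) + Z'.card) := by
  obtain ⟨C, w0, hC, hw0, hT⟩ := triple_count
  refine ⟨256 * (6 + C), w0, by positivity, hw0, ?_⟩
  intro Z Z' u w τ hu hw hτ1 hτ2 hZ hZ' hm hm'
  have hw1 : 1 ≤ w := hw0.trans hw
  have hu0 : 0 < u := by linarith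
  have hwp : 0 < w := by linarith
  have hw80 : 1 ≤ w ^ 80 := one_le_pow₀ hw1
  set a : E 3 → E 3 → ℝ := fun z b => if |dist z b - τ| ≤ w then 1 else 0 with ha
  set χ : E 3 → E 3 → ℝ := fun z z' => if dist z' z ≤ w ^ 80 then 1 else 0 with hχ
  have ha0 : ∀ z b, 0 ≤ a z b := by
    intro z b
    simp only [ha]
    split_ifs <;> norm_num
  have ha1 : ∀ z b, a z b ≤ 1 := by
    intro z b
    simp only [ha]
    split_ifs <;> norm_num
  have hχ0 : ∀ z z', 0 ≤ χ z z' := by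
    intro z b
    simp only [hχ]
    split_ifs <;> norm_num
  have hI : (((Z ×ˢ Z').filter (fun x => |dist x.1 x.2 - τ| ≤ w)).card : ℝ) =
      ∑ b ∈ Z', ∑ z ∈ Z, a z b := by
    rw [Finset.card_filter, Nat.cast_sum, Finset.sum_product_right]
    refine Finset.sum_congr rfl fun b _ => Finset.sum_congr rfl fun z _ => ?_
    simp only [ha]
    split_ifs <;> simp
  have hX : ∀ z ∈ Z, ∑ z' ∈ Z, χ z z' ≤ 2 * u * w ^ 80 := by
    intro z hz
    refine le_trans (le_of_eq ?_) (hZ z hz (w ^ 80) hw80)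
    rw [Yn, Finset.card_filter, Nat.cast_sum]
    refine Finset.sum_congr rfl fun z' _ => ?_
    simp only [hχ]
    split_ifs <;> simp
  have hA : 0 ≤ C * u * w ^ 81 := by positivity
  have hTT : ∀ z1 ∈ Z, ∀ z2 ∈ Z, ∀ z3 ∈ Z, ∑ b ∈ Z', a z1 b * a z2 b * a z3 b ≤
      C * u * w ^ 81 + (Z'.card : ℝ) * (χ z1 z2 + χ z1 z3 + χ z2 z3) := by
    intro z1 _ z2 _ z3 _
    have hc : (0 : ℝ) ≤ Z'.card := Nat.cast_nonneg _
    have hle : ∑ b ∈ Z', a z1 b * a z2 b * a z3 b ≤ Z'.card := by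
      calc ∑ b ∈ Z', a z1 b * a z2 b * a z3 b ≤ ∑ _b ∈ Z', (1 : ℝ) := by
            refine Finset.sum_le_sum fun b _ => ?_
            exact mul_le_one₀ (mul_le_one₀ (ha1 _ _) (ha0 _ _) (ha1 _ _)) (ha0 _ _) (ha1 _ _)
        _ = Z'.card := by simp
    by_cases hg : 1 ≤ χ z1 z2 + χ z1 z3 + χ z2 z3
    · have := mul_le_mul_of_nonneg_left hg hc
      linarith
    · push Not at hg
      have g12 : w ^ 80 ≤ dist z1 z2 := by
        by_contra h
        push Not at h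
        have e : χ z1 z2 = 1 := by
          simp only [hχ]
          rw [if_pos]
          rw [dist_comm]
          exact h.le
        linarith [hχ0 z1 z3, hχ0 z2 z3]
      have g13 : w ^ 80 ≤ dist z1 z3 := by
        by_contra h
        push Not at h
        have e : χ z1 z3 = 1 := by
          simp only [hχ]
          rw [if_pos]
          rw [dist_comm]
          exact h.le
        linarith [hχ0 z1 z2, hχ0 z2 z3]
      have g23 : w ^ 80 ≤ dist z2 z3 := by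
        by_contra h
        push Not at h
        have e : χ z2 z3 = 1 := by
          simp only [hχ]
          rw [if_pos]
          rw [dist_comm]
          exact h.le
        linarith [hχ0 z1 z2, hχ0 z1 z3]
      have h5 := hT Z' u w τ hu hw hτ1 hτ2 hZ' z1 z2 z3 g12 g13 g23
      have h6 : ∑ b ∈ Z', a z1 b * a z2 b * a z3 b =
          ((Z'.filter (fun b => |dist b z1 - τ| ≤ w ∧ |dist b z2 - τ| ≤ w ∧
            |dist b z3 - τ| ≤ w)).card : ℝ) := by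
        rw [Finset.card_filter, Nat.cast_sum]
        refine Finset.sum_congr rfl fun b _ => ?_
        simp only [ha, dist_comm b]
        by_cases c1 : |dist z1 b - τ| ≤ w <;> by_cases c2 : |dist z2 b - τ| ≤ w <;>
          by_cases c3 : |dist z3 b - τ| ≤ w <;> simp only [c1, c2, c3] <;> norm_num
      rw [h6]
      have h7 : 0 ≤ (Z'.card : ℝ) * (χ z1 z2 + χ z1 z3 + χ z2 z3) :=
        mul_nonneg hc (add_nonneg (add_nonneg (hχ0 _ _) (hχ0 _ _)) (hχ0 _ _))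
      linarith
  have hS := GC_triples Z χ (C * u * w ^ 81) (2 * u * w ^ 80) (Z'.card : ℝ)
    (Nat.cast_nonneg _) hX (fun z1 z2 z3 => ∑ b ∈ Z', a z1 b * a z2 b * a z3 b) hTT
  rw [← GC_cube] at hS
  rw [hI]
  have hdeg : ∀ b ∈ Z', 0 ≤ ∑ z ∈ Z, a z b := fun b _ => Finset.sum_nonneg fun z _ => ha0 z b
  refine GC_final hC hu hw1 (Nat.cast_nonneg _) (Nat.cast_nonneg _) hm hm' ?_ hS
  exact pow_sum_le_card_mul_sum_pow hdeg 2

end Pool.LibTH93
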