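import Pool.Agent.LibTH93.Defs

/-
PLAN (GD2). Rn = {r | 2^(n-1) < |b r| <= 2^n} (measurable). For b r <> 0 let n = Int.clog 2 |b r|: 2^(n-1) < |b r| <= 2^n (Int.zpow_pred_clog_lt_self, Int.self_le_zpow_clog). Upper bound: tsum over n of
ofReal ((2^n)^p) * integral over Rn cap A of ofReal (w r) = integral over A of (tsum over n of ofReal ((2^n)^p) * indicator of Rn) * ofReal (w r) (lintegral_tsum, lintegral_indicator), and pointwise the tsum has
at most one nonzero term (the sets Rn are disjoint: n is determined by r) which is <= ofReal (2^p) * ‖b r‖ₑ^p since 2^n <= 2 |b r|. General measure space so that it serves for b on the half line and for f on space.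
-/

set_option autoImplicit false

noncomputable section

open MeasureTheory Metric Set Filter

namespace Pool.LibTH93

/-- dyadic layers of a measurable function -/
theorem layers {α : Type} [MeasurableSpace α] (μ : Measure α) (b : α → ℝ) (hb : Measurable b)
    (p : ℝ) (hp : 0 < p) :
    (∀ n : ℤ, MeasurableSet {r | (2 : ℝ) ^ (n - 1) < |b r| ∧ |b r| ≤ (2 : ℝ) ^ n}) ∧
    (∀ r, b r ≠ 0 → ∃ n : ℤ, (2 : ℝ) ^ (n - 1) < |b r| ∧ |b r| ≤ (2 : ℝ) ^ n) ∧
    ∑' n : ℤ, ENNReal.ofReal (((2 : ℝ) ^ n) ^ p) *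
      μ {r | (2 : ℝ) ^ (n - 1) < |b r| ∧ |b r| ≤ (2 : ℝ) ^ n} ≤
      ENNReal.ofReal (2 ^ p) * ∫⁻ r, ‖b r‖ₑ ^ p ∂μ := by
  have habs : Measurable (fun r => |b r|) := continuous_abs.measurable.comp hb
  have hms : ∀ n : ℤ, MeasurableSet {r | (2 : ℝ) ^ (n - 1) < |b r| ∧ |b r| ≤ (2 : ℝ) ^ n} :=
    fun n => (measurableSet_lt measurable_const habs).inter
      (measurableSet_le habs measurable_const)
  have hex : ∀ r, b r ≠ 0 → ∃ n : ℤ, (2 : ℝ) ^ (n - 1) < |b r| ∧ |b r| ≤ (2 : ℝ) ^ n := by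
    intro r hr
    have h1 := Int.zpow_pred_clog_lt_self (b := 2) (by norm_num) (abs_pos.2 hr)
    have h2 := Int.self_le_zpow_clog (b := 2) (by norm_num) |b r|
    exact ⟨Int.clog 2 |b r|, by exact_mod_cast h1, by exact_mod_cast h2⟩
  refine ⟨hms, hex, ?_⟩
  have huniq : ∀ r (m n : ℤ), (2 : ℝ) ^ (m - 1) < |b r| → |b r| ≤ (2 : ℝ) ^ n → m ≤ n := by
    intro r m n h1 h2
    have h3 := h1.trans_le h2
    rw [zpow_lt_zpow_iff_right₀ (by norm_num)] at h3
    omega
  have hstep : ∀ n : ℤ, ENNReal.ofReal (((2 : ℝ) ^ n) ^ p) *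
      μ {r | (2 : ℝ) ^ (n - 1) < |b r| ∧ |b r| ≤ (2 : ℝ) ^ n} =
      ∫⁻ r, ({r | (2 : ℝ) ^ (n - 1) < |b r| ∧ |b r| ≤ (2 : ℝ) ^ n}).indicator
        (fun _ => ENNReal.ofReal (((2 : ℝ) ^ n) ^ p)) r ∂μ := by
    intro n
    rw [lintegral_indicator_const (hms n)]
  simp_rw [hstep]
  rw [← lintegral_tsum (fun n => (measurable_const.indicator (hms n)).aemeasurable)]
  rw [← lintegral_const_mul _ (by fun_prop)]
  refine lintegral_mono fun r => ?_
  by_cases hr : b r = 0
  · have : ∀ n : ℤ, ({r | (2 : ℝ) ^ (n - 1) < |b r| ∧ |b r| ≤ (2 : ℝ) ^ n}).indicator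
        (fun _ => ENNReal.ofReal (((2 : ℝ) ^ n) ^ p)) r = 0 := by
      intro n
      apply Set.indicator_of_notMem
      simp only [Set.mem_setOf_eq, hr, abs_zero, not_and]
      intro h
      exact absurd h (not_lt.2 (by positivity))
    simp only [this, tsum_zero]
    exact zero_le
  · obtain ⟨m, hm1, hm2⟩ := hex r hr
    rw [tsum_eq_single m]
    · rw [Set.indicator_of_mem (by exact ⟨hm1, hm2⟩)]
      have h3 : ((2 : ℝ) ^ m) ^ p ≤ 2 ^ p * |b r| ^ p := by
        rw [← Real.mul_rpow (by norm_num) (abs_nonneg _)]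
        apply Real.rpow_le_rpow (by positivity) _ hp.le
        have : (2 : ℝ) ^ m = 2 * 2 ^ (m - 1) := by
          rw [← zpow_one_add₀ (by norm_num)]; congr 1; ring
        rw [this]
        linarith
      have h4 : ‖b r‖ₑ ^ p = ENNReal.ofReal (|b r| ^ p) := by
        rw [Real.enorm_eq_ofReal_abs, ENNReal.ofReal_rpow_of_nonneg (abs_nonneg _) hp.le]
      rw [h4, ← ENNReal.ofReal_mul (by positivity)]
      exact ENNReal.ofReal_le_ofReal h3
    · intro n hn
      apply Set.indicator_of_notMem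
      rintro ⟨h1, h2⟩
      exact hn (le_antisymm (huniq r n m h1 hm2) (huniq r m n hm1 h2))

end Pool.LibTH93
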