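import Pool.Agent.LibTH93.Defs
import Pool.Agent.LibTP53.NH
import Pool.Agent.LibSR53.K7
import Pool.Agent.LibSR53.K8

/-
PLAN (KA). Ef r r' t >= 1/(1+|t-(r+r')|)^2 and |t - (r+r')| <= t + 2r'. First bound. Case norm v >= r'/4: Ip_loc (LibTP53.NH): (r r')^nu (1+|v|)^(-nu) <= 4^nu r^nu. Case norm v < r'/4: |v + zeta - zeta'| >= r' - r - |v| >= r'/2 >= 1
for zeta, zeta' on the spheres (radii r, r'; look at kernel_cross in LibSR53.K8): tail_bound (K7), delta = r'/2, M = d + 3: C (r r')^nu/delta^M <= C' r^nu/r'^2 <= C'' r^nu Ef. Second bound (|v| >= 4r'):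
|v + zeta - zeta'| >= |v| - r - r' >= |v|/2 >= 1, tail_bound with M = 2d + 6: (r r')^nu <= r^nu |v|^d, so <= C r^nu |v|^d/(|v|/2)^(2d+6).
-/

set_option autoImplicit false

noncomputable section

open MeasureTheory Metric Set Filter

namespace Pool.LibTH93

open Pool.LibSR53 Pool.LibTP53

private theorem KA_nu_pos {d : ℕ} (hd : 2 ≤ d) : 0 < nu d := by
  have : (2 : ℝ) ≤ d := by exact_mod_cast hd
  simp only [nu]
  linarith

/-- a power of exponent nu is at most the power of exponent d -/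
private theorem KA_pow {d : ℕ} {x : ℝ} (hx : 1 ≤ x) (n : ℕ) (hn : d ≤ n) :
    x ^ nu d ≤ x ^ n := by
  rw [← Real.rpow_natCast x n]
  refine Real.rpow_le_rpow_of_exponent_le hx ?_
  have h1 : (d : ℝ) ≤ n := by exact_mod_cast hn
  have h2 : (0 : ℝ) ≤ d := Nat.cast_nonneg d
  simp only [nu]
  linarith

/-- the second term of the localisation factor bounds the inverse square of the large radius -/
private theorem KA_Ef {r r' t : ℝ} (hr : 1 ≤ r) (hrr : 4 * r ≤ r') (ht : 0 ≤ t)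
    (ht' : t ≤ r + r') : 1 / r' ^ 2 ≤ 9 * Ef r r' t := by
  have hr0' : 0 < r' := by linarith
  have h1 : |t - (r + r')| ≤ 2 * r' := by
    rw [abs_sub_comm, abs_of_nonneg (by linarith)]
    linarith
  have h0 : 0 ≤ |t - (r + r')| := abs_nonneg _
  have h2 : (1 + |t - (r + r')|) ^ 2 ≤ (3 * r') ^ 2 := by
    refine pow_le_pow_left₀ (by linarith) ?_ 2
    linarith
  have h3 : 1 / (3 * r') ^ 2 ≤ 1 / (1 + |t - (r + r')|) ^ 2 :=
    one_div_le_one_div_of_le (by positivity) h2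
  have h4 : 0 ≤ 1 / (1 + |t - (|r - r'|)|) ^ 2 := by positivity
  have h5 : 1 / r' ^ 2 = 9 * (1 / (3 * r') ^ 2) := by
    field_simp
    norm_num
  rw [h5]
  simp only [Ef]
  linarith

/-- Gram matrix at different radii, localised -/
theorem kernel_crossL {d : ℕ} (hd : 2 ≤ d) (Ψ φ : SchwartzMap (E d) ℂ)
    (hφ : ∀ v, Ψ v = ∫ ξ, ex v ξ * φ ξ) (ε : ℝ) (hε : 0 < ε) (hv : ∀ ξ, ‖ξ‖ < ε → φ ξ = 0) :
    ∃ C : ℝ, 0 < C ∧ ∀ r r' : ℝ, 1 ≤ r → 4 * r ≤ r' → ∀ v : E d,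
      ‖Ip Ψ r r' v‖ ≤ C * r ^ (nu d) * Ef r r' ‖v‖ ∧
      (4 * r' ≤ ‖v‖ → ‖Ip Ψ r r' v‖ ≤ C * r ^ (nu d) / ‖v‖ ^ (d + 6)) := by
  obtain ⟨Cb, hCb, hb⟩ := Ip_loc hd Ψ φ hφ ε hε hv
  obtain ⟨Ct, hCt, ht⟩ := tail_bound hd Ψ (d + 3)
  obtain ⟨Cs, hCs, hs⟩ := tail_bound hd Ψ (2 * d + 6)
  have hν := KA_nu_pos hd
  refine ⟨Cb * 4 ^ nu d + Ct * 2 ^ (d + 3) * 9 + Cs * 2 ^ (2 * d + 6), by positivity, ?_⟩
  intro r r' hr hrr v
  have hr0 : 0 < r := by linarith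
  have hr0' : 0 < r' := by linarith
  have hr1' : 1 ≤ r' := by linarith
  have hv0 := norm_nonneg v
  have hrν : 0 < r ^ nu d := Real.rpow_pos_of_pos hr0 _
  have hE := NH_Ef_nonneg r r' ‖v‖
  have h4ν : (0 : ℝ) < 4 ^ nu d := Real.rpow_pos_of_pos (by norm_num) _
  constructor
  · by_cases h1 : r' / 4 ≤ ‖v‖
    · have h4 : (r * r') ^ nu d * (1 + ‖v‖) ^ (-nu d) ≤ 4 ^ nu d * r ^ nu d := by
        rw [Real.rpow_neg (by positivity), ← div_eq_mul_inv, div_le_iff₀ (by positivity),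
          Real.mul_rpow hr0.le hr0'.le]
        have h5 : r' ^ nu d ≤ 4 ^ nu d * (1 + ‖v‖) ^ nu d := by
          rw [← Real.mul_rpow (by norm_num) (by positivity)]
          refine Real.rpow_le_rpow hr0'.le ?_ hν.le
          linarith
        calc r ^ nu d * r' ^ nu d ≤ r ^ nu d * (4 ^ nu d * (1 + ‖v‖) ^ nu d) := by
              gcongr
          _ = 4 ^ nu d * r ^ nu d * (1 + ‖v‖) ^ nu d := by ring
      calc ‖Ip Ψ r r' v‖ ≤ Cb * (r * r') ^ nu d * (1 + ‖v‖) ^ (-nu d) * Ef r r' ‖v‖ :=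
            hb r r' hr0 hr0' v
        _ = Cb * ((r * r') ^ nu d * (1 + ‖v‖) ^ (-nu d)) * Ef r r' ‖v‖ := by ring
        _ ≤ Cb * (4 ^ nu d * r ^ nu d) * Ef r r' ‖v‖ := by gcongr
        _ = (Cb * 4 ^ nu d) * (r ^ nu d * Ef r r' ‖v‖) := by ring
        _ ≤ (Cb * 4 ^ nu d + Ct * 2 ^ (d + 3) * 9 + Cs * 2 ^ (2 * d + 6)) *
            (r ^ nu d * Ef r r' ‖v‖) := by
            refine mul_le_mul_of_nonneg_right ?_ (by positivity)
            have e1 : 0 ≤ Ct * 2 ^ (d + 3) * 9 := by positivity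
            have e2 : 0 ≤ Cs * 2 ^ (2 * d + 6) := by positivity
            linarith
        _ = _ := by ring
    · push Not at h1
      have hδ : 1 ≤ r' / 2 := by linarith
      have h5 := (ht (r' / 2) r r' hδ hr0 hr0' v (by
        intro ζ ζ' hz hz'
        have e2 : ‖ζ'‖ ≤ ‖v + ζ - ζ'‖ + (‖v‖ + ‖ζ‖) := by
          have e3 := norm_sub_le (v + ζ) (v + ζ - ζ')
          rw [show v + ζ - (v + ζ - ζ') = ζ' by abel] at e3
          have e4 := norm_add_le v ζ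
          linarith
        rw [hz, hz'] at e2
        linarith)).1
      have h6 : (r * r') ^ nu d / (r' / 2) ^ (d + 3) ≤ r ^ nu d * (2 ^ (d + 3) * (1 / r' ^ 2)) := by
        rw [Real.mul_rpow hr0.le hr0'.le, div_pow, div_div_eq_mul_div,
          div_le_iff₀ (by positivity)]
        have e1 : r' ^ nu d ≤ r' ^ (d + 1) := KA_pow hr1' (d + 1) (by omega)
        calc r ^ nu d * r' ^ nu d * 2 ^ (d + 3) ≤ r ^ nu d * r' ^ (d + 1) * 2 ^ (d + 3) := by
              gcongr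
          _ = r ^ nu d * (2 ^ (d + 3) * (1 / r' ^ 2)) * r' ^ (d + 3) := by
              field_simp
              ring
      have h7 : 1 / r' ^ 2 ≤ 9 * Ef r r' ‖v‖ := KA_Ef hr hrr hv0 (by linarith)
      calc ‖Ip Ψ r r' v‖ ≤ Ct * (r * r') ^ nu d / (r' / 2) ^ (d + 3) := h5
        _ = Ct * ((r * r') ^ nu d / (r' / 2) ^ (d + 3)) := by ring
        _ ≤ Ct * (r ^ nu d * (2 ^ (d + 3) * (1 / r' ^ 2))) := by gcongr
        _ ≤ Ct * (r ^ nu d * (2 ^ (d + 3) * (9 * Ef r r' ‖v‖))) := by gcongr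
        _ = (Ct * 2 ^ (d + 3) * 9) * (r ^ nu d * Ef r r' ‖v‖) := by ring
        _ ≤ (Cb * 4 ^ nu d + Ct * 2 ^ (d + 3) * 9 + Cs * 2 ^ (2 * d + 6)) *
            (r ^ nu d * Ef r r' ‖v‖) := by
            refine mul_le_mul_of_nonneg_right ?_ (by positivity)
            have e1 : 0 ≤ Cb * 4 ^ nu d := by positivity
            have e2 : 0 ≤ Cs * 2 ^ (2 * d + 6) := by positivity
            linarith
        _ = _ := by ring
  · intro h1
    have hv1 : 1 ≤ ‖v‖ := by linarith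
    have hvp : 0 < ‖v‖ := by linarith
    have hδ : 1 ≤ ‖v‖ / 2 := by linarith
    have h5 := (hs (‖v‖ / 2) r r' hδ hr0 hr0' v (by
      intro ζ ζ' hz hz'
      have e2 : ‖v‖ ≤ ‖v + ζ - ζ'‖ + (‖ζ‖ + ‖ζ'‖) := by
        have e3 := norm_sub_le (v + ζ - ζ') (ζ - ζ')
        rw [show v + ζ - ζ' - (ζ - ζ') = v by abel] at e3
        have e4 := norm_sub_le ζ ζ'
        linarith
      rw [hz, hz'] at e2
      linarith)).1
    have h6 : (r * r') ^ nu d / (‖v‖ / 2) ^ (2 * d + 6) ≤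
        r ^ nu d * (2 ^ (2 * d + 6) * (1 / ‖v‖ ^ (d + 6))) := by
      rw [Real.mul_rpow hr0.le hr0'.le, div_pow, div_div_eq_mul_div,
        div_le_iff₀ (by positivity)]
      have e1 : r' ^ nu d ≤ ‖v‖ ^ d :=
        (Real.rpow_le_rpow hr0'.le (by linarith) hν.le).trans (KA_pow hv1 d le_rfl)
      calc r ^ nu d * r' ^ nu d * 2 ^ (2 * d + 6) ≤ r ^ nu d * ‖v‖ ^ d * 2 ^ (2 * d + 6) := by
            gcongr
        _ = r ^ nu d * (2 ^ (2 * d + 6) * (1 / ‖v‖ ^ (d + 6))) * ‖v‖ ^ (2 * d + 6) := by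
            rw [show 2 * d + 6 = d + (d + 6) by ring, pow_add ‖v‖ d (d + 6)]
            field_simp
    calc ‖Ip Ψ r r' v‖ ≤ Cs * (r * r') ^ nu d / (‖v‖ / 2) ^ (2 * d + 6) := h5
      _ = Cs * ((r * r') ^ nu d / (‖v‖ / 2) ^ (2 * d + 6)) := by ring
      _ ≤ Cs * (r ^ nu d * (2 ^ (2 * d + 6) * (1 / ‖v‖ ^ (d + 6)))) := by gcongr
      _ = (Cs * 2 ^ (2 * d + 6)) * (r ^ nu d / ‖v‖ ^ (d + 6)) := by ring
      _ ≤ (Cb * 4 ^ nu d + Ct * 2 ^ (d + 3) * 9 + Cs * 2 ^ (2 * d + 6)) *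
          (r ^ nu d / ‖v‖ ^ (d + 6)) := by
          refine mul_le_mul_of_nonneg_right ?_ (by positivity)
          have e1 : 0 ≤ Cb * 4 ^ nu d := by positivity
          have e2 : 0 ≤ Ct * 2 ^ (d + 3) * 9 := by positivity
          linarith
      _ = _ := by ring

end Pool.LibTH93
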