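import Pool.Agent.LibTH93.Defs

/-
PLAN (LA). prod_card: Yn Y a.1 (2^i) x Rn (Rk k R) a.2 (2^i) is a subset of nb (sc k (Y x R)) a (2^i) (dist of pairs is the max: Prod.dist_eq, Real.dist_eq; Rk gives the scale), DensT at a.
Z_dens: z = p.1 with p in nb (sc k S) a (2^(i+1)). For 1 <= rho <= 2^(k+5): take the natural j with rho <= 2^j <= 2 rho (exists_nat_pow_near / induction), j <= k+6; y in Yn Z z rho gives (y, p.2) in
nb (sc k (Y x R)) p (2^j) (y in Y since Z is contained in Y), injective: card <= u 2^j <= 2 u rho. For rho > 2^(k+5): Yn Z z rho subset of Z, and Z is within 2^(i+2) <= 2^(k+5) of p.1, so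
Z.card <= u 2^(i+2) = 4 u 2^i (same argument with j = i+2) <= 2 u rho. The last also gives the bound of Z.card.
-/

set_option autoImplicit false

noncomputable section

open MeasureTheory Metric Set Filter

namespace Pool.LibTH93

open Pool.LibSR53 Pool.LibTP53

/-- a set of centres close to the centre of a point of the scale -/
private theorem LA_aux {d : ℕ} {Y : Finset (E d)} {R : Finset ℝ} {u : ℝ} {S : Finset (P d)}
    (hS : S ⊆ Y ×ˢ R) (hD : DensT (Y ×ˢ R) u S) {k j : ℕ} (hj : j ≤ k + 6) {p : P d}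
    (hp : p ∈ sc k S) (W : Finset (E d)) (hWY : W ⊆ Y) (hW : ∀ y ∈ W, dist y p.1 ≤ (2 : ℝ) ^ j) :
    (W.card : ℝ) ≤ u * 2 ^ j := by
  classical
  have hpS : p ∈ S ∧ (2 : ℝ) ^ k ≤ p.2 ∧ p.2 < (2 : ℝ) ^ (k + 1) := by
    have h := hp
    unfold sc at h
    simpa using h
  have hpR : p.2 ∈ R := (Finset.mem_product.1 (hS hpS.1)).2
  have hmain := hD k p hp j hj
  refine le_trans ?_ hmain
  have hinj : ∀ x ∈ W, ∀ y ∈ W, (fun y : E d => ((y, p.2) : P d)) x = (fun y : E d => ((y, p.2) : P d)) y →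
      x = y := fun x _ y _ h => congrArg Prod.fst h
  have hc : (W.image (fun y : E d => ((y, p.2) : P d))).card = W.card :=
    Finset.card_image_of_injOn (fun x hx y hy h => hinj x hx y hy h)
  rw [← hc]
  exact Nat.cast_le.2 (Finset.card_le_card (by
    intro q hq
    rw [Finset.mem_image] at hq
    obtain ⟨y, hy, rfl⟩ := hq
    unfold nb sc
    rw [Finset.mem_filter, Finset.mem_filter, Finset.mem_product]
    refine ⟨⟨⟨hWY hy, hpR⟩, hpS.2⟩, ?_⟩
    rw [Prod.dist_eq]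
    refine max_le (hW y hy) ?_
    show dist p.2 p.2 ≤ (2 : ℝ) ^ j
    rw [dist_self]
    positivity))

/-- product sets of given density -/
theorem prod_card {d : ℕ} {Y : Finset (E d)} {R : Finset ℝ} {u : ℝ} {S : Finset (P d)}
    (hS : S ⊆ Y ×ˢ R) (hD : DensT (Y ×ˢ R) u S) {k i : ℕ} (hi : i ≤ k + 6) {a : P d}
    (ha : a ∈ sc k S) :
    ((Yn Y a.1 ((2 : ℝ) ^ i)).card : ℝ) * ((Rn (Rk k R) a.2 ((2 : ℝ) ^ i)).card : ℝ) ≤
      u * 2 ^ i := by
  classical
  have haS : a ∈ S ∧ (2 : ℝ) ^ k ≤ a.2 ∧ a.2 < (2 : ℝ) ^ (k + 1) := by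
    have h := ha
    unfold sc at h
    simpa using h
  have hmain := hD k a ha i hi
  refine le_trans ?_ hmain
  rw [← Nat.cast_mul, ← Finset.card_product]
  exact Nat.cast_le.2 (Finset.card_le_card (by
    intro q hq
    rw [Finset.mem_product] at hq
    obtain ⟨h1, h2⟩ := hq
    unfold Yn at h1
    unfold Rn Rk at h2
    rw [Finset.mem_filter] at h1
    rw [Finset.mem_filter, Finset.mem_filter] at h2
    unfold nb sc
    rw [Finset.mem_filter, Finset.mem_filter, Finset.mem_product]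
    refine ⟨⟨⟨h1.1, h2.1.1⟩, h2.1.2⟩, ?_⟩
    rw [Prod.dist_eq]
    refine max_le h1.2 ?_
    rw [Real.dist_eq]
    exact h2.2))

open scoped Classical in
/-- the centres form a set of dimension one -/
theorem Z_dens {d : ℕ} {Y : Finset (E d)} {R : Finset ℝ} {u : ℝ} {S : Finset (P d)}
    (hS : S ⊆ Y ×ˢ R) (hu : 0 ≤ u) (hD : DensT (Y ×ˢ R) u S) {k i : ℕ} (hi : i ≤ k + 3) {a : P d}
    (ha : a ∈ sc k S) :
    (∀ z ∈ (nb (sc k S) a ((2 : ℝ) ^ (i + 1))).image Prod.fst, ∀ ρ : ℝ, 1 ≤ ρ →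
      ((Yn ((nb (sc k S) a ((2 : ℝ) ^ (i + 1))).image Prod.fst) z ρ).card : ℝ) ≤ 2 * u * ρ) ∧
    ((((nb (sc k S) a ((2 : ℝ) ^ (i + 1))).image Prod.fst).card : ℝ) ≤ 8 * u * 2 ^ i) := by
  set Z := (nb (sc k S) a ((2 : ℝ) ^ (i + 1))).image Prod.fst with hZ
  have hZmem : ∀ z ∈ Z, ∃ p : P d, p ∈ sc k S ∧ dist p a ≤ (2 : ℝ) ^ (i + 1) ∧ p.1 = z := by
    intro z hz
    rw [hZ, Finset.mem_image] at hz
    obtain ⟨p, hp, rfl⟩ := hz
    unfold nb at hp
    rw [Finset.mem_filter] at hp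
    exact ⟨p, hp.1, hp.2, rfl⟩
  have hZa : ∀ z ∈ Z, dist z a.1 ≤ (2 : ℝ) ^ (i + 1) := by
    intro z hz
    obtain ⟨p, _, hp2, rfl⟩ := hZmem z hz
    rw [Prod.dist_eq] at hp2
    exact le_trans (le_max_left _ _) hp2
  have hZY : Z ⊆ Y := by
    intro z hz
    obtain ⟨p, hp1, _, rfl⟩ := hZmem z hz
    have h : p ∈ S := by
      unfold sc at hp1
      exact (Finset.mem_filter.1 hp1).1
    exact (Finset.mem_product.1 (hS h)).1
  have h2i : (2 : ℝ) ^ (i + 2) = 4 * 2 ^ i := by ring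
  have hi0 : (0 : ℝ) < 2 ^ i := by positivity
  constructor
  · intro z hz ρ hρ
    obtain ⟨p, hp1, hp2, hp3⟩ := hZmem z hz
    have hsub : Yn Z z ρ ⊆ Z := by
      unfold Yn
      exact Finset.filter_subset _ _
    by_cases hρk : ρ ≤ (2 : ℝ) ^ (k + 5)
    · obtain ⟨n, hn1, hn2⟩ := exists_nat_pow_near hρ (by norm_num : (1 : ℝ) < 2)
      have hnk : n ≤ k + 5 := by
        by_contra hlt
        push Not at hlt
        have h1 : (2 : ℝ) ^ (k + 5) < 2 ^ n := pow_lt_pow_right₀ (by norm_num) hlt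
        linarith
      have h1 := LA_aux hS hD (k := k) (j := n + 1) (by omega) hp1 (Yn Z z ρ)
        (hsub.trans hZY) (fun y hy => by
          unfold Yn at hy
          rw [Finset.mem_filter] at hy
          rw [hp3]
          linarith [hy.2])
      have h2 : (2 : ℝ) ^ (n + 1) = 2 * 2 ^ n := by ring
      rw [h2] at h1
      nlinarith [h1, hn1, hu]
    · push Not at hρk
      have h1 := LA_aux hS hD (k := k) (j := i + 2) (by omega) hp1 (Yn Z z ρ)
        (hsub.trans hZY) (fun y hy => by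
          have h2 := hZa y (hsub hy)
          have h3 := hZa z hz
          rw [hp3]
          have h4 := dist_triangle_right y z a.1
          have h5 : (2 : ℝ) ^ (i + 2) = 2 ^ (i + 1) + 2 ^ (i + 1) := by ring
          rw [h5]
          linarith)
      have h6 : (2 : ℝ) ^ (i + 2) ≤ 2 ^ (k + 5) := pow_le_pow_right₀ (by norm_num) (by omega)
      have h7 : u * (2 : ℝ) ^ (i + 2) ≤ u * ρ := mul_le_mul_of_nonneg_left (by linarith) hu
      have h8 : 0 ≤ u * ρ := mul_nonneg hu (by linarith)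
      linarith
  · have h1 := LA_aux hS hD (k := k) (j := i + 1) (by omega) ha Z hZY hZa
    have h2 : (2 : ℝ) ^ (i + 1) = 2 * 2 ^ i := by ring
    rw [h2] at h1
    have h3 : 0 ≤ u * 2 ^ i := mul_nonneg hu hi0.le
    linarith

end Pool.LibTH93
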