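import Pool.Agent.LibTH93.Defs
import Pool.Agent.LibTP53.CA

/-
PLAN (WA). Points r of R (1-separated) with |r - c| > w: on each side of c, sum of 1/(1+|r-c|)^2 <= sum over m >= 0 of 1/(1+w+m)^2 <= sum of 1/((w+m)(w+m+1)) <= 1/w (telescoping; fiber over
m = floor(|r-c| - w), at most one point per side and m, as in CA), so <= 2/w in all. D1 p (y,r) = |t - |p.2 - r||, t = norm (p.1 - y) >= 0: it is |r - (p.2 - t)| or |r - (p.2 + t)|, and D1 > w
implies that both are > w (D1 = min of the two): sum <= 2/w + 2/w. D2 p (y,r) = |r - (t - p.2)|: sum <= 2/w.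
-/

set_option autoImplicit false

noncomputable section

open MeasureTheory Metric Set Filter

namespace Pool.LibTH93

open Pool.LibSR53 Pool.LibTP53

private theorem WA_harm (w : ℝ) (hw : 1 ≤ w) (n : ℕ) :
    ∑ m ∈ Finset.range n, (1 : ℝ) / (1 + (w + m)) ^ 2 ≤ 1 / w - 1 / (w + n) := by
  induction n with
  | zero => simp
  | succ n ih =>
    rw [Finset.sum_range_succ]
    have h0 : (0 : ℝ) ≤ (n : ℝ) := Nat.cast_nonneg n
    have h1 : (0 : ℝ) < w + n := by linarith
    have h2 : (0 : ℝ) < w + n + 1 := by linarith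
    have hstep : (1 : ℝ) / (1 + (w + n)) ^ 2 ≤ 1 / (w + n) - 1 / (w + n + 1) := by
      have e1 : 1 / (w + n) - 1 / (w + n + 1) = 1 / ((w + n) * (w + n + 1)) := by
        field_simp
        ring
      rw [e1]
      apply one_div_le_one_div_of_le (by positivity)
      nlinarith
    have e3 : w + ((n + 1 : ℕ) : ℝ) = w + n + 1 := by
      push_cast
      ring
    rw [e3]
    linarith

open scoped Classical in
private theorem WA_two (R : Finset ℝ) (hR : ∀ r ∈ R, ∀ s ∈ R, r ≠ s → 1 ≤ |r - s|) (c w : ℝ)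
    (hw : 1 ≤ w) (m : ℕ) :
    ((R.filter (fun r => w < |r - c|)).filter (fun r => ⌊|r - c| - w⌋₊ = m)).card ≤ 2 := by
  have key : ∀ r ∈ (R.filter (fun r => w < |r - c|)).filter (fun r => ⌊|r - c| - w⌋₊ = m),
      r ∈ R ∧ w < |r - c| ∧ w + m ≤ |r - c| ∧ |r - c| < w + m + 1 := by
    intro r hr
    rw [Finset.mem_filter, Finset.mem_filter] at hr
    have f1 := Nat.floor_le (sub_nonneg.2 hr.1.2.le)
    have f2 := Nat.lt_floor_add_one (|r - c| - w)
    rw [hr.2] at f1 f2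
    exact ⟨hr.1.1, hr.1.2, by linarith, by linarith⟩
  have hinj : Set.InjOn (fun r : ℝ => decide (c ≤ r))
      (↑((R.filter (fun r => w < |r - c|)).filter (fun r => ⌊|r - c| - w⌋₊ = m)) : Set ℝ) := by
    intro r hr s hs hrs
    obtain ⟨r0, -, r1, r2⟩ := key r hr
    obtain ⟨s0, -, s1, s2⟩ := key s hs
    by_contra hne
    have h1 := hR r r0 s s0 hne
    have hiff : c ≤ r ↔ c ≤ s := by
      simpa using hrs
    by_cases hc : c ≤ r
    · have hc' := hiff.1 hc
      rw [abs_of_nonneg (by linarith)] at r1 r2 s1 s2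
      have h2 : |r - s| < 1 := by
        rw [abs_lt]
        constructor <;> linarith
      linarith
    · have hc' : ¬ c ≤ s := fun h => hc (hiff.2 h)
      have hc1 := not_le.1 hc
      have hc2 := not_le.1 hc'
      rw [abs_of_neg (by linarith)] at r1 r2 s1 s2
      have h2 : |r - s| < 1 := by
        rw [abs_lt]
        constructor <;> linarith
      linarith
  have hcard := Finset.card_le_card_of_injOn
    (s := (R.filter (fun r => w < |r - c|)).filter (fun r => ⌊|r - c| - w⌋₊ = m))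
    (t := (Finset.univ : Finset Bool)) (fun r : ℝ => decide (c ≤ r))
    (fun _ _ => Finset.mem_coe.2 (Finset.mem_univ _)) hinj
  simpa using hcard

open scoped Classical in
/-- tails of the inverse squares -/
private theorem WA_tail (R : Finset ℝ) (hR : ∀ r ∈ R, ∀ s ∈ R, r ≠ s → 1 ≤ |r - s|) (c w : ℝ)
    (hw : 1 ≤ w) : ∑ r ∈ R.filter (fun r => w < |r - c|), 1 / (1 + |r - c|) ^ 2 ≤ 2 / w := by
  set M : ℕ := (R.filter (fun r => w < |r - c|)).sup (fun r => ⌊|r - c| - w⌋₊) with hM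
  have hmaps : ∀ r ∈ R.filter (fun r => w < |r - c|), ⌊|r - c| - w⌋₊ ∈ Finset.range (M + 1) := by
    intro r hr
    rw [Finset.mem_range]
    exact Nat.lt_succ_of_le (Finset.le_sup (f := fun r => ⌊|r - c| - w⌋₊) hr)
  rw [← Finset.sum_fiberwise_of_maps_to hmaps]
  have hfib : ∀ m ∈ Finset.range (M + 1),
      ∑ r ∈ (R.filter (fun r => w < |r - c|)).filter (fun r => ⌊|r - c| - w⌋₊ = m),
        1 / (1 + |r - c|) ^ 2 ≤ 2 * (1 / (1 + (w + (m : ℝ))) ^ 2) := by
    intro m _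
    have hm0 : (0 : ℝ) ≤ (m : ℝ) := Nat.cast_nonneg m
    have hb : ∀ r ∈ (R.filter (fun r => w < |r - c|)).filter (fun r => ⌊|r - c| - w⌋₊ = m),
        1 / (1 + |r - c|) ^ 2 ≤ 1 / (1 + (w + (m : ℝ))) ^ 2 := by
      intro r hr
      rw [Finset.mem_filter, Finset.mem_filter] at hr
      have f1 := Nat.floor_le (sub_nonneg.2 hr.1.2.le)
      rw [hr.2] at f1
      apply one_div_le_one_div_of_le (by positivity)
      apply pow_le_pow_left₀ (by positivity)
      linarith
    have h1 := Finset.sum_le_card_nsmul _ _ _ hb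
    refine h1.trans ?_
    rw [nsmul_eq_mul]
    apply mul_le_mul_of_nonneg_right
    · exact_mod_cast WA_two R hR c w hw m
    · positivity
  refine (Finset.sum_le_sum hfib).trans ?_
  rw [← Finset.mul_sum]
  have h3 := WA_harm w hw (M + 1)
  have h4 : (0 : ℝ) < 1 / (w + ((M + 1 : ℕ) : ℝ)) := by positivity
  have h5 : 2 / w = 2 * (1 / w) := by ring
  rw [h5]
  linarith

open scoped Classical in
/-- tails of the localisation factor over the radii -/
theorem D1_tail {d : ℕ} (R : Finset ℝ) (hR : ∀ r ∈ R, ∀ s ∈ R, r ≠ s → 1 ≤ |r - s|) (p : P d)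
    (y : E d) (w : ℝ) (hw : 1 ≤ w) :
    ∑ r ∈ R.filter (fun r => w < D1 p (y, r)), 1 / (1 + D1 p (y, r)) ^ 2 ≤ 8 / w := by
  have hD : ∀ r : ℝ, D1 p (y, r) ≤ |r - (p.2 - ‖p.1 - y‖)| ∧
      D1 p (y, r) ≤ |r - (p.2 + ‖p.1 - y‖)| ∧ (D1 p (y, r) = |r - (p.2 - ‖p.1 - y‖)| ∨
        D1 p (y, r) = |r - (p.2 + ‖p.1 - y‖)|) := by
    intro r
    have ht : 0 ≤ ‖p.1 - y‖ := norm_nonneg _
    unfold D1
    simp only
    revert ht
    generalize ‖p.1 - y‖ = t
    intro ht
    have e1 : |r - (p.2 - t)| = |t - (p.2 - r)| := by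
      congr 1
      ring
    have e2 : |r - (p.2 + t)| = |t + (p.2 - r)| := by
      rw [← abs_neg]
      congr 1
      ring
    rw [e1, e2]
    generalize p.2 - r = x
    rcases le_total 0 x with h | h
    · rw [abs_of_nonneg h]
      refine ⟨le_rfl, ?_, Or.inl rfl⟩
      rw [abs_of_nonneg (by linarith : 0 ≤ t + x), abs_le]
      constructor <;> linarith
    · rw [abs_of_nonpos h, sub_neg_eq_add]
      refine ⟨?_, le_rfl, Or.inr rfl⟩
      rw [abs_of_nonneg (by linarith : 0 ≤ t - x), abs_le]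
      constructor <;> linarith
  have h1 := WA_tail R hR (p.2 - ‖p.1 - y‖) w hw
  have h2 := WA_tail R hR (p.2 + ‖p.1 - y‖) w hw
  have hs1 : R.filter (fun r => w < D1 p (y, r)) ⊆
      R.filter (fun r => w < |r - (p.2 - ‖p.1 - y‖)|) := by
    intro r hr
    rw [Finset.mem_filter] at hr ⊢
    exact ⟨hr.1, hr.2.trans_le (hD r).1⟩
  have hs2 : R.filter (fun r => w < D1 p (y, r)) ⊆
      R.filter (fun r => w < |r - (p.2 + ‖p.1 - y‖)|) := by
    intro r hr
    rw [Finset.mem_filter] at hr ⊢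
    exact ⟨hr.1, hr.2.trans_le (hD r).2.1⟩
  have g1 : ∑ r ∈ R.filter (fun r => w < D1 p (y, r)), 1 / (1 + |r - (p.2 - ‖p.1 - y‖)|) ^ 2 ≤
      2 / w :=
    (Finset.sum_le_sum_of_subset_of_nonneg hs1 (fun r _ _ => by positivity)).trans h1
  have g2 : ∑ r ∈ R.filter (fun r => w < D1 p (y, r)), 1 / (1 + |r - (p.2 + ‖p.1 - y‖)|) ^ 2 ≤
      2 / w :=
    (Finset.sum_le_sum_of_subset_of_nonneg hs2 (fun r _ _ => by positivity)).trans h2
  have g3 : ∑ r ∈ R.filter (fun r => w < D1 p (y, r)), 1 / (1 + D1 p (y, r)) ^ 2 ≤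
      ∑ r ∈ R.filter (fun r => w < D1 p (y, r)), (1 / (1 + |r - (p.2 - ‖p.1 - y‖)|) ^ 2 +
        1 / (1 + |r - (p.2 + ‖p.1 - y‖)|) ^ 2) := by
    refine Finset.sum_le_sum fun r _ => ?_
    rcases (hD r).2.2 with h | h
    · rw [h]
      exact le_add_of_nonneg_right (by positivity)
    · rw [h]
      exact le_add_of_nonneg_left (by positivity)
  rw [Finset.sum_add_distrib] at g3
  have hw0 : 0 < w := by linarith
  have h5 : 8 / w = 2 / w + 2 / w + 4 / w := by ring
  have h6 : 0 ≤ 4 / w := by positivity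
  rw [h5]
  linarith

open scoped Classical in
theorem D2_tail {d : ℕ} (R : Finset ℝ) (hR : ∀ r ∈ R, ∀ s ∈ R, r ≠ s → 1 ≤ |r - s|) (p : P d)
    (y : E d) (w : ℝ) (hw : 1 ≤ w) :
    ∑ r ∈ R.filter (fun r => w < D2 p (y, r)), 1 / (1 + D2 p (y, r)) ^ 2 ≤ 8 / w := by
  have hD : ∀ r : ℝ, D2 p (y, r) = |r - (‖p.1 - y‖ - p.2)| := by
    intro r
    unfold D2
    simp only
    rw [← abs_neg]
    congr 1
    ring
  have h1 := WA_tail R hR (‖p.1 - y‖ - p.2) w hw
  simp only [hD]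
  have hw0 : 0 < w := by linarith
  have h5 : 8 / w = 2 / w + 6 / w := by ring
  have h6 : 0 ≤ 6 / w := by positivity
  rw [h5]
  linarith

end Pool.LibTH93
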