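import Pool.Agent.LibTH93.GC
import Pool.Agent.LibTH93.WA
import Pool.Agent.LibTH93.LA

/-
PLAN (LB). t = 2^i = w^100, Q = nb (sc k S) a (2 t), Z = Q.image fst, RB = Rn (Rk k R) a.2 (2t) (contains a.2, so 1 <= card RB <= w), card (Yn Y a.1 (2t)) <= 2 u t (prod_card with i+1 <= k+6).
Wf p q = 1/(1+D1)^2 + 1/(1+D2)^2 <= sum over s = 1,2 of ([D_s <= w] + [D_s > w]/(1+D_s)^2). TAILS: for fixed p group q by its centre y in Yn Y a.1 (2t) (q.2 in R, injective): D1_tail, D2_tail: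
<= 2 u t * 16/w = 32 u w^99 per p. MAIN, s = 1: pairs (p,q) in Q x Q with t/2 < dist p q, D1 p q <= w: map to ((p.2,q.2),(p.1,q.1)), injective, p.2, q.2 in RB; for fixed (r,r') the pairs (p.1,q.1) are in
the filter of Z x Z with tau = |r - r'| (dist = norm of the difference). tau >= t/4: dist p q = max(norm, |r-r'|) > t/2, and norm > t/2 gives |r-r'| >= t/2 - w >= t/4. tau <= norm + w <= 4t + w <= 8t.
pairs_dist with Z' = Z (Z_dens; w^100 = 2^i): <= 2 C u w^94 card Z, times card RB ^2 <= w^2, card Z <= card Q. If the set for (r,r') is empty nothing is needed. s = 2: tau = r + r' >= 2 2^k >= t/4 (i <= k+3), same.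
Total C u w^96 card Q <= C u w^99 card Q. w0 = max of the w0 of pairs_dist and 2.
-/

set_option autoImplicit false

noncomputable section

open MeasureTheory Metric Set Filter

namespace Pool.LibTH93

open Pool.LibSR53 Pool.LibTP53

/-- the trivial split -/
private theorem LB_split (x w : ℝ) (hx : 0 ≤ x) :
    1 / (1 + x) ^ 2 ≤ (if x ≤ w then (1 : ℝ) else 0) + (if w < x then 1 / (1 + x) ^ 2 else 0) := by
  by_cases h : x ≤ w
  · rw [if_pos h, if_neg (not_lt.mpr h), add_zero, div_le_one (by positivity)]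
    nlinarith
  · rw [if_neg h, if_pos (not_le.mp h), zero_add]

private theorem LB_tail (N : Finset (P 3)) (YN : Finset (E 3)) (R : Finset ℝ)
    (hN : N ⊆ YN ×ˢ R) (D : P 3 → ℝ) (w B : ℝ)
    (hD : ∀ y ∈ YN, ∑ r ∈ R.filter (fun r => w < D (y, r)), 1 / (1 + D (y, r)) ^ 2 ≤ B) :
    ∑ q ∈ N, (if w < D q then 1 / (1 + D q) ^ 2 else 0) ≤ (YN.card : ℝ) * B := by
  calc ∑ q ∈ N, (if w < D q then 1 / (1 + D q) ^ 2 else 0)
      ≤ ∑ q ∈ YN ×ˢ R, (if w < D q then 1 / (1 + D q) ^ 2 else 0) := by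
        apply Finset.sum_le_sum_of_subset_of_nonneg hN
        intro q _ _
        split_ifs <;> positivity
    _ = ∑ y ∈ YN, ∑ r ∈ R, (if w < D (y, r) then 1 / (1 + D (y, r)) ^ 2 else 0) := by
        rw [Finset.sum_product]
    _ ≤ ∑ y ∈ YN, B := by
        apply Finset.sum_le_sum
        intro y hy
        rw [← Finset.sum_filter]
        exact hD y hy
    _ = (YN.card : ℝ) * B := by
        rw [Finset.sum_const, nsmul_eq_mul]

private theorem LB_sumcard (N : Finset (P 3)) (c e : P 3 → P 3 → Prop)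
    [∀ p q, Decidable (c p q)] [∀ p q, Decidable (e p q)] :
    ∑ p ∈ N, ∑ q ∈ N.filter (fun q => c p q), (if e p q then (1 : ℝ) else 0) =
      (((N ×ˢ N).filter (fun x => c x.1 x.2 ∧ e x.1 x.2)).card : ℝ) := by
  rw [Finset.card_filter, Nat.cast_sum, Finset.sum_product]
  refine Finset.sum_congr rfl fun p _ => ?_
  rw [Finset.sum_filter]
  refine Finset.sum_congr rfl fun q _ => ?_
  by_cases h1 : c p q <;> by_cases h2 : e p q <;> simp [h1, h2]

open scoped Classical in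
private theorem LB_count (N : Finset (P 3)) (RB : Finset ℝ) (hRB : ∀ p ∈ N, p.2 ∈ RB)
    (T : ℝ → ℝ → ℝ) (w B : ℝ) (hB : 0 ≤ B)
    (H : ∀ τ : ℝ, w ^ 100 / 4 ≤ τ → τ ≤ 8 * w ^ 100 →
      ((((N.image Prod.fst) ×ˢ (N.image Prod.fst)).filter
        (fun x => |dist x.1 x.2 - τ| ≤ w)).card : ℝ) ≤ B)
    (A : P 3 → P 3 → Prop) [∀ p q, Decidable (A p q)]
    (hA : ∀ p ∈ N, ∀ q ∈ N, A p q → |dist p.1 q.1 - T p.2 q.2| ≤ w ∧
      w ^ 100 / 4 ≤ T p.2 q.2 ∧ T p.2 q.2 ≤ 8 * w ^ 100) :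
    (((N ×ˢ N).filter (fun x => A x.1 x.2)).card : ℝ) ≤ (RB.card : ℝ) ^ 2 * B := by
  set F : Finset (P 3 × P 3) := (N ×ˢ N).filter (fun x => A x.1 x.2) with hF
  have hFm : ∀ x ∈ F, x.1 ∈ N ∧ x.2 ∈ N ∧ A x.1 x.2 := by
    intro x hx
    rw [hF, Finset.mem_filter, Finset.mem_product] at hx
    exact ⟨hx.1.1, hx.1.2, hx.2⟩
  have h1 : F.card = ∑ y ∈ RB ×ˢ RB, (F.filter (fun x => (x.1.2, x.2.2) = y)).card := by
    apply Finset.card_eq_sum_card_fiberwise
    intro x hx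
    have hx' := hFm x hx
    rw [Finset.mem_coe, Finset.mem_product]
    exact ⟨hRB _ hx'.1, hRB _ hx'.2.1⟩
  rw [h1, Nat.cast_sum]
  calc ∑ y ∈ RB ×ˢ RB, ((F.filter (fun x => (x.1.2, x.2.2) = y)).card : ℝ)
      ≤ ∑ y ∈ RB ×ˢ RB, B := by
        refine Finset.sum_le_sum fun y _ => ?_
        by_cases hne : (F.filter (fun x => (x.1.2, x.2.2) = y)).Nonempty
        · obtain ⟨x, hx⟩ := hne
          rw [Finset.mem_filter] at hx
          have hx' := hFm x hx.1
          have hT := hA x.1 hx'.1 x.2 hx'.2.1 hx'.2.2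
          have e1 : x.1.2 = y.1 := congrArg Prod.fst hx.2
          have e2 : x.2.2 = y.2 := congrArg Prod.snd hx.2
          rw [e1, e2] at hT
          refine le_trans ?_ (H (T y.1 y.2) hT.2.1 hT.2.2)
          have hc := Finset.card_le_card_of_injOn
            (s := F.filter (fun x => (x.1.2, x.2.2) = y))
            (t := ((N.image Prod.fst) ×ˢ (N.image Prod.fst)).filter
              (fun x => |dist x.1 x.2 - T y.1 y.2| ≤ w))
            (fun x : P 3 × P 3 => (x.1.1, x.2.1)) (by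
              intro z hz
              rw [Finset.mem_coe, Finset.mem_filter] at hz
              have hz' := hFm z hz.1
              have hTz := hA z.1 hz'.1 z.2 hz'.2.1 hz'.2.2
              have f1 : z.1.2 = y.1 := congrArg Prod.fst hz.2
              have f2 : z.2.2 = y.2 := congrArg Prod.snd hz.2
              rw [f1, f2] at hTz
              rw [Finset.mem_coe, Finset.mem_filter, Finset.mem_product]
              exact ⟨⟨Finset.mem_image_of_mem _ hz'.1, Finset.mem_image_of_mem _ hz'.2.1⟩,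
                hTz.1⟩) (by
              intro z hz z' hz' hzz
              rw [Finset.mem_coe, Finset.mem_filter] at hz hz'
              have f1 : z.1.2 = y.1 := congrArg Prod.fst hz.2
              have f2 : z.2.2 = y.2 := congrArg Prod.snd hz.2
              have g1 : z'.1.2 = y.1 := congrArg Prod.fst hz'.2
              have g2 : z'.2.2 = y.2 := congrArg Prod.snd hz'.2
              have hzz' : (z.1.1, z.2.1) = (z'.1.1, z'.2.1) := hzz
              obtain ⟨k1, k2⟩ := Prod.mk.inj hzz'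
              exact Prod.ext (Prod.ext k1 (f1.trans g1.symm)) (Prod.ext k2 (f2.trans g2.symm)))
          exact_mod_cast hc
        · rw [Finset.not_nonempty_iff_eq_empty] at hne
          rw [hne]
          simpa using hB
    _ = (RB.card : ℝ) ^ 2 * B := by
        rw [Finset.sum_const, Finset.card_product, nsmul_eq_mul]
        push_cast
        ring

open scoped Classical in
/-- few radii: the geometric gain -/
theorem few_radii : ∃ C w0 : ℝ, 0 < C ∧ 1 ≤ w0 ∧ ∀ (Y : Finset (E 3)) (R : Finset ℝ)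
    (S : Finset (P 3)) (u : ℝ), Pool.LibTP53.Sep Y R → S ⊆ Y ×ˢ R → 1 ≤ u → DensT (Y ×ˢ R) u S →
    ∀ k i : ℕ, i ≤ k + 3 → ∀ a ∈ sc k S, ∀ w : ℝ, w0 ≤ w → w ^ 100 = (2 : ℝ) ^ i →
    ((Rn (Rk k R) a.2 ((2 : ℝ) ^ (i + 1))).card : ℝ) ≤ w →
    ∑ p ∈ nb (sc k S) a ((2 : ℝ) ^ (i + 1)),
      ∑ q ∈ (nb (sc k S) a ((2 : ℝ) ^ (i + 1))).filter (fun q => (2 : ℝ) ^ i / 2 < dist p q),
        Wf p q ≤ C * u * w ^ 99 * ((nb (sc k S) a ((2 : ℝ) ^ (i + 1))).card : ℝ) := by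
  obtain ⟨C, w0, hC, hw0, hpd⟩ := pairs_dist
  refine ⟨32 + 4 * C, max w0 2, by positivity, le_max_of_le_left hw0, ?_⟩
  intro Y R S u hYR hS hu hD k i hi a ha w hw hwi hRn
  have hwC : w0 ≤ w := (le_max_left _ _).trans hw
  have hw2 : 2 ≤ w := (le_max_right _ _).trans hw
  have hw1 : 1 ≤ w := by linarith
  have hwp : 0 < w := by linarith
  have hu0 : 0 ≤ u := by linarith
  -- membership
  have hmS : ∀ p ∈ sc k S, p ∈ S ∧ (2 : ℝ) ^ k ≤ p.2 ∧ p.2 < (2 : ℝ) ^ (k + 1) := by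
    intro p hp
    simp only [sc, Finset.mem_filter] at hp
    exact hp
  have hYR' : ∀ p ∈ sc k S, p.1 ∈ Y ∧ p.2 ∈ R := by
    intro p hp
    have := hS (hmS p hp).1
    rwa [Finset.mem_product] at this
  set N : Finset (P 3) := nb (sc k S) a ((2 : ℝ) ^ (i + 1)) with hN
  have hNm : ∀ p ∈ N, p ∈ sc k S ∧ dist p a ≤ (2 : ℝ) ^ (i + 1) := by
    intro p hp
    simp only [hN, nb, Finset.mem_filter] at hp
    exact hp
  have hNd : ∀ p ∈ N, dist p.1 a.1 ≤ (2 : ℝ) ^ (i + 1) ∧ |p.2 - a.2| ≤ (2 : ℝ) ^ (i + 1) := by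
    intro p hp
    have h := (hNm p hp).2
    rw [Prod.dist_eq, max_le_iff] at h
    rw [← Real.dist_eq]
    exact h
  set YN : Finset (E 3) := Yn Y a.1 ((2 : ℝ) ^ (i + 1)) with hYN
  set RB : Finset ℝ := Rn (Rk k R) a.2 ((2 : ℝ) ^ (i + 1)) with hRB
  have hRBm : ∀ p ∈ N, p.2 ∈ RB := by
    intro p hp
    have h1 := (hNm p hp).1
    simp only [hRB, Rn, Rk, Finset.mem_filter]
    exact ⟨⟨(hYR' p h1).2, (hmS p h1).2⟩, (hNd p hp).2⟩
  have hNsub : N ⊆ YN ×ˢ R := by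
    intro p hp
    have h1 := (hNm p hp).1
    rw [Finset.mem_product]
    refine ⟨?_, (hYR' p h1).2⟩
    simp only [hYN, Yn, Finset.mem_filter]
    exact ⟨(hYR' p h1).1, (hNd p hp).1⟩
  have haN : a ∈ N := by
    simp only [hN, nb, Finset.mem_filter]
    refine ⟨ha, ?_⟩
    rw [dist_self]
    positivity
  have hRB1 : (1 : ℝ) ≤ (RB.card : ℝ) := by
    have : 0 < RB.card := Finset.card_pos.mpr ⟨a.2, hRBm a haN⟩
    exact_mod_cast this
  have h2i : (2 : ℝ) ^ (i + 1) = 2 * w ^ 100 := by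
    rw [hwi, pow_succ]
    ring
  have hpc := prod_card hS hD (show i + 1 ≤ k + 6 by omega) ha
  have hYNc : (YN.card : ℝ) ≤ 2 * u * w ^ 100 := by
    have h0 : (0 : ℝ) ≤ (YN.card : ℝ) := Nat.cast_nonneg _
    have h1 : (YN.card : ℝ) * 1 ≤ (YN.card : ℝ) * (RB.card : ℝ) :=
      mul_le_mul_of_nonneg_left hRB1 h0
    have h2 : (YN.card : ℝ) * (RB.card : ℝ) ≤ u * (2 * w ^ 100) := by
      rw [← h2i]
      exact hpc
    linarith
  obtain ⟨hZ1, hZ2⟩ := Z_dens hS hu0 hD hi ha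
  rw [← hwi] at hZ2
  have hNc : (0 : ℝ) ≤ (N.card : ℝ) := Nat.cast_nonneg _
  have hZN : ((N.image Prod.fst).card : ℝ) ≤ (N.card : ℝ) := by
    exact_mod_cast Finset.card_image_le
  have hB0 : 0 ≤ C * u * w ^ 94 * (2 * (N.card : ℝ)) := by positivity
  have hH : ∀ τ : ℝ, w ^ 100 / 4 ≤ τ → τ ≤ 8 * w ^ 100 →
      ((((N.image Prod.fst) ×ˢ (N.image Prod.fst)).filter
        (fun x => |dist x.1 x.2 - τ| ≤ w)).card : ℝ) ≤ C * u * w ^ 94 * (2 * (N.card : ℝ)) := by
    intro τ h1 h2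
    refine (hpd (N.image Prod.fst) (N.image Prod.fst) u w τ hu hwC h1 h2 hZ1 hZ1
      (by simpa [mul_assoc] using hZ2) (by simpa [mul_assoc] using hZ2)).trans ?_
    apply mul_le_mul_of_nonneg_left _ (by positivity)
    linarith
  -- facts on the powers of w
  have hw100 : w ≤ w ^ 100 / 4 := by
    have h1 : (2 : ℝ) ^ 99 ≤ w ^ 99 := pow_le_pow_left₀ (by norm_num) hw2 99
    have h2 : (4 : ℝ) ≤ w ^ 99 := le_trans (by norm_num) h1
    have h3 : w ^ 100 = w ^ 99 * w := pow_succ w 99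
    rw [h3]
    nlinarith
  have hnormle : ∀ p ∈ N, ∀ q ∈ N, dist p.1 q.1 ≤ 4 * w ^ 100 := by
    intro p hp q hq
    have h1 := (hNd p hp).1
    have h2 := (hNd q hq).1
    rw [h2i] at h1 h2
    calc dist p.1 q.1 ≤ dist p.1 a.1 + dist a.1 q.1 := dist_triangle _ _ _
      _ ≤ 2 * w ^ 100 + 2 * w ^ 100 := by
          rw [dist_comm a.1 q.1]
          exact add_le_add h1 h2
      _ = 4 * w ^ 100 := by ring
  -- the main counts
  have hmain1 : ((((N ×ˢ N).filter (fun x => (2 : ℝ) ^ i / 2 < dist x.1 x.2 ∧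
      D1 x.1 x.2 ≤ w)).card : ℕ) : ℝ) ≤
      (RB.card : ℝ) ^ 2 * (C * u * w ^ 94 * (2 * (N.card : ℝ))) := by
    refine LB_count N RB hRBm (fun r r' => |r - r'|) w _ hB0 hH
      (fun p q => (2 : ℝ) ^ i / 2 < dist p q ∧ D1 p q ≤ w) ?_
    intro p hp q hq hpq
    have e1 : |dist p.1 q.1 - (|p.2 - q.2|)| ≤ w := by
      rw [dist_eq_norm]
      exact hpq.2
    have e2 := abs_le.mp e1
    refine ⟨e1, ?_, ?_⟩
    · have h1 := hpq.1
      rw [Prod.dist_eq, lt_max_iff, Real.dist_eq, ← hwi] at h1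
      rcases h1 with h1 | h1
      · linarith [e2.2]
      · have : 0 ≤ w ^ 100 := by positivity
        linarith
    · have := hnormle p hp q hq
      linarith [e2.1]
  have hmain2 : ((((N ×ˢ N).filter (fun x => (2 : ℝ) ^ i / 2 < dist x.1 x.2 ∧
      D2 x.1 x.2 ≤ w)).card : ℕ) : ℝ) ≤
      (RB.card : ℝ) ^ 2 * (C * u * w ^ 94 * (2 * (N.card : ℝ))) := by
    refine LB_count N RB hRBm (fun r r' => r + r') w _ hB0 hH
      (fun p q => (2 : ℝ) ^ i / 2 < dist p q ∧ D2 p q ≤ w) ?_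
    intro p hp q hq hpq
    have e1 : |dist p.1 q.1 - (p.2 + q.2)| ≤ w := by
      rw [dist_eq_norm]
      exact hpq.2
    have e2 := abs_le.mp e1
    refine ⟨e1, ?_, ?_⟩
    · have h1 := (hmS p (hNm p hp).1).2.1
      have h2 := (hmS q (hNm q hq).1).2.1
      have h3 : (2 : ℝ) ^ i ≤ 8 * 2 ^ k := by
        calc (2 : ℝ) ^ i ≤ 2 ^ (k + 3) := pow_le_pow_right₀ (by norm_num) hi
          _ = 8 * 2 ^ k := by rw [pow_add]; ring
      rw [hwi]
      linarith
    · have := hnormle p hp q hq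
      linarith [e2.1]
  -- the tails
  have ht1 : ∀ p : P 3, ∑ q ∈ N, (if w < D1 p q then 1 / (1 + D1 p q) ^ 2 else 0) ≤
      16 * u * w ^ 99 := by
    intro p
    have h1 := LB_tail N YN R hNsub (fun q => D1 p q) w (8 / w)
      (fun y _ => D1_tail R hYR.rsep p y w hw1)
    refine h1.trans ?_
    have h2 : (YN.card : ℝ) * (8 / w) ≤ 2 * u * w ^ 100 * (8 / w) :=
      mul_le_mul_of_nonneg_right hYNc (by positivity)
    refine h2.trans (le_of_eq ?_)
    rw [pow_succ w 99]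
    field_simp
    ring
  have ht2 : ∀ p : P 3, ∑ q ∈ N, (if w < D2 p q then 1 / (1 + D2 p q) ^ 2 else 0) ≤
      16 * u * w ^ 99 := by
    intro p
    have h1 := LB_tail N YN R hNsub (fun q => D2 p q) w (8 / w)
      (fun y _ => D2_tail R hYR.rsep p y w hw1)
    refine h1.trans ?_
    have h2 : (YN.card : ℝ) * (8 / w) ≤ 2 * u * w ^ 100 * (8 / w) :=
      mul_le_mul_of_nonneg_right hYNc (by positivity)
    refine h2.trans (le_of_eq ?_)
    rw [pow_succ w 99]
    field_simp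
    ring
  have hD1n : ∀ p q : P 3, 0 ≤ D1 p q := fun p q => abs_nonneg _
  have hD2n : ∀ p q : P 3, 0 ≤ D2 p q := fun p q => abs_nonneg _
  -- splitting
  have hsplit : ∑ p ∈ N, ∑ q ∈ N.filter (fun q => (2 : ℝ) ^ i / 2 < dist p q), Wf p q ≤
      ∑ p ∈ N, ∑ q ∈ N.filter (fun q => (2 : ℝ) ^ i / 2 < dist p q),
        (((if D1 p q ≤ w then (1 : ℝ) else 0) + (if D2 p q ≤ w then (1 : ℝ) else 0)) +
        ((if w < D1 p q then 1 / (1 + D1 p q) ^ 2 else 0) +
        (if w < D2 p q then 1 / (1 + D2 p q) ^ 2 else 0))) := by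
    refine Finset.sum_le_sum fun p _ => Finset.sum_le_sum fun q _ => ?_
    have h1 := LB_split (D1 p q) w (hD1n p q)
    have h2 := LB_split (D2 p q) w (hD2n p q)
    have h3 : Wf p q = 1 / (1 + D1 p q) ^ 2 + 1 / (1 + D2 p q) ^ 2 := rfl
    rw [h3]
    linarith
  refine hsplit.trans ?_
  simp only [Finset.sum_add_distrib]
  have hs1 : ∑ p ∈ N, ∑ q ∈ N.filter (fun q => (2 : ℝ) ^ i / 2 < dist p q),
      (if D1 p q ≤ w then (1 : ℝ) else 0) ≤
      (RB.card : ℝ) ^ 2 * (C * u * w ^ 94 * (2 * (N.card : ℝ))) := by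
    rw [LB_sumcard N (fun p q => (2 : ℝ) ^ i / 2 < dist p q) (fun p q => D1 p q ≤ w)]
    exact hmain1
  have hs2 : ∑ p ∈ N, ∑ q ∈ N.filter (fun q => (2 : ℝ) ^ i / 2 < dist p q),
      (if D2 p q ≤ w then (1 : ℝ) else 0) ≤
      (RB.card : ℝ) ^ 2 * (C * u * w ^ 94 * (2 * (N.card : ℝ))) := by
    rw [LB_sumcard N (fun p q => (2 : ℝ) ^ i / 2 < dist p q) (fun p q => D2 p q ≤ w)]
    exact hmain2
  have hsub : ∀ (D : P 3 → P 3 → ℝ), (∀ p q, 0 ≤ D p q) →
      (∀ p : P 3, ∑ q ∈ N, (if w < D p q then 1 / (1 + D p q) ^ 2 else 0) ≤ 16 * u * w ^ 99) →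
      ∑ p ∈ N, ∑ q ∈ N.filter (fun q => (2 : ℝ) ^ i / 2 < dist p q),
        (if w < D p q then 1 / (1 + D p q) ^ 2 else 0) ≤ 16 * u * w ^ 99 * (N.card : ℝ) := by
    intro D hDn hDt
    calc ∑ p ∈ N, ∑ q ∈ N.filter (fun q => (2 : ℝ) ^ i / 2 < dist p q),
        (if w < D p q then 1 / (1 + D p q) ^ 2 else 0)
        ≤ ∑ p ∈ N, 16 * u * w ^ 99 := by
          refine Finset.sum_le_sum fun p _ => le_trans ?_ (hDt p)
          apply Finset.sum_le_sum_of_subset_of_nonneg (Finset.filter_subset _ _)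
          intro q _ _
          have := hDn p q
          split_ifs <;> positivity
      _ = 16 * u * w ^ 99 * (N.card : ℝ) := by
          rw [Finset.sum_const, nsmul_eq_mul]
          ring
  have hs3 := hsub D1 hD1n ht1
  have hs4 := hsub D2 hD2n ht2
  have hRB2 : (RB.card : ℝ) ^ 2 ≤ w ^ 2 := pow_le_pow_left₀ (by linarith) hRn 2
  have hfin : (RB.card : ℝ) ^ 2 * (C * u * w ^ 94 * (2 * (N.card : ℝ))) ≤
      2 * C * u * w ^ 99 * (N.card : ℝ) := by
    calc (RB.card : ℝ) ^ 2 * (C * u * w ^ 94 * (2 * (N.card : ℝ)))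
        ≤ w ^ 2 * (C * u * w ^ 94 * (2 * (N.card : ℝ))) :=
          mul_le_mul_of_nonneg_right hRB2 hB0
      _ = 2 * C * u * (N.card : ℝ) * w ^ 96 := by ring
      _ ≤ 2 * C * u * (N.card : ℝ) * w ^ 99 := by
          apply mul_le_mul_of_nonneg_left _ (by positivity)
          exact pow_le_pow_right₀ hw1 (by norm_num)
      _ = _ := by ring
  calc _ ≤ (2 * C * u * w ^ 99 * (N.card : ℝ) + 2 * C * u * w ^ 99 * (N.card : ℝ)) +
        (16 * u * w ^ 99 * (N.card : ℝ) + 16 * u * w ^ 99 * (N.card : ℝ)) :=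
        add_le_add (add_le_add (hs1.trans hfin) (hs2.trans hfin)) (add_le_add hs3 hs4)
    _ = _ := by ring

end Pool.LibTH93
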