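import Pool.Agent.LibTH93.LB
import Pool.Agent.LibTP53.CA

/-
PLAN (LC). w = 2^(i/100) (rpow), w >= 1, w^100 = 2^i (Real.rpow_natCast, rpow_mul). For every p the sum over q in Q of Wf p q is <= 12 card (Yn Y a.1 (2^(i+1))) (group by centres, Wf_sum of CA, q.2 in R).
prod_card (i+1 <= k+6): card Yn * card Rn <= 2 u w^100, a.2 in Rn so card Rn >= 1. (1) w < w0: 12 * 2 u w^100 <= 24 w0 u w^99. (2) w >= w0 and card Rn <= w: few_radii.
(3) card Rn > w: card Yn <= 2 u w^99.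
-/

set_option autoImplicit false

noncomputable section

open MeasureTheory Metric Set Filter

namespace Pool.LibTH93

open Pool.LibSR53 Pool.LibTP53

private theorem LC_nn {d : ℕ} (p q : P d) : 0 ≤ Wf p q := by
  unfold Wf
  positivity

/-- the trivial estimate -/
private theorem LC_triv {d : ℕ} (N : Finset (P d)) (YN : Finset (E d)) (R : Finset ℝ)
    (hR : ∀ r ∈ R, ∀ s ∈ R, r ≠ s → 1 ≤ |r - s|) (hN : N ⊆ YN ×ˢ R) (p : P d) :
    ∑ q ∈ N, Wf p q ≤ 12 * (YN.card : ℝ) := by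
  calc ∑ q ∈ N, Wf p q ≤ ∑ q ∈ YN ×ˢ R, Wf p q := by
        apply Finset.sum_le_sum_of_subset_of_nonneg hN
        intro q _ _
        exact LC_nn p q
    _ = ∑ y ∈ YN, ∑ r ∈ R, Wf p ((y, r) : P d) := by
        rw [Finset.sum_product]
    _ ≤ ∑ y ∈ YN, (12 : ℝ) := Finset.sum_le_sum fun y _ => Wf_sum R hR p y
    _ = 12 * (YN.card : ℝ) := by
        rw [Finset.sum_const, nsmul_eq_mul]
        ring

private theorem LC_pow (i : ℕ) : ((2 : ℝ) ^ ((i : ℝ) / 100)) ^ 100 = (2 : ℝ) ^ i := by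
  rw [← Real.rpow_natCast ((2 : ℝ) ^ ((i : ℝ) / 100)) 100, ← Real.rpow_mul (by norm_num),
    ← Real.rpow_natCast 2 i]
  congr 1
  push_cast
  ring

open scoped Classical in
/-- the local estimate, with a gain of a small power -/
theorem local_sum : ∃ C : ℝ, 0 < C ∧ ∀ (Y : Finset (E 3)) (R : Finset ℝ)
    (S : Finset (P 3)) (u : ℝ), Pool.LibTP53.Sep Y R → S ⊆ Y ×ˢ R → 1 ≤ u → DensT (Y ×ˢ R) u S →
    ∀ k i : ℕ, i ≤ k + 3 → ∀ a ∈ sc k S,
    ∑ p ∈ nb (sc k S) a ((2 : ℝ) ^ (i + 1)),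
      ∑ q ∈ (nb (sc k S) a ((2 : ℝ) ^ (i + 1))).filter (fun q => (2 : ℝ) ^ i / 2 < dist p q),
        Wf p q ≤ C * u * (((2 : ℝ) ^ ((i : ℝ) / 100)) ^ 99) *
          ((nb (sc k S) a ((2 : ℝ) ^ (i + 1))).card : ℝ) := by
  obtain ⟨C, w0, hC, hw0, hfr⟩ := few_radii
  refine ⟨C + 24 * w0, by positivity, ?_⟩
  intro Y R S u hYR hS hu hD k i hi a ha
  have hwi := LC_pow i
  have hw1 : (1 : ℝ) ≤ (2 : ℝ) ^ ((i : ℝ) / 100) :=
    Real.one_le_rpow (by norm_num) (by positivity)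
  set w : ℝ := (2 : ℝ) ^ ((i : ℝ) / 100) with hw
  have hwp : 0 < w := by linarith
  have hu0 : 0 ≤ u := by linarith
  have hmS : ∀ p ∈ sc k S, p ∈ S ∧ (2 : ℝ) ^ k ≤ p.2 ∧ p.2 < (2 : ℝ) ^ (k + 1) := by
    intro p hp
    simp only [sc, Finset.mem_filter] at hp
    exact hp
  have hYR' : ∀ p ∈ sc k S, p.1 ∈ Y ∧ p.2 ∈ R := by
    intro p hp
    have := hS (hmS p hp).1
    rwa [Finset.mem_product] at this
  by_cases hcase : w0 ≤ w ∧
      ((Rn (Rk k R) a.2 ((2 : ℝ) ^ (i + 1))).card : ℝ) ≤ w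
  · refine (hfr Y R S u hYR hS hu hD k i hi a ha w hcase.1 hwi hcase.2).trans ?_
    apply mul_le_mul_of_nonneg_right _ (Nat.cast_nonneg _)
    apply mul_le_mul_of_nonneg_right _ (by positivity)
    apply mul_le_mul_of_nonneg_right _ hu0
    linarith
  · set N : Finset (P 3) := nb (sc k S) a ((2 : ℝ) ^ (i + 1)) with hN
    have hNm : ∀ p ∈ N, p ∈ sc k S ∧ dist p a ≤ (2 : ℝ) ^ (i + 1) := by
      intro p hp
      simp only [hN, nb, Finset.mem_filter] at hp
      exact hp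
    have hNd : ∀ p ∈ N, dist p.1 a.1 ≤ (2 : ℝ) ^ (i + 1) ∧ |p.2 - a.2| ≤ (2 : ℝ) ^ (i + 1) := by
      intro p hp
      have h := (hNm p hp).2
      rw [Prod.dist_eq, max_le_iff] at h
      rw [← Real.dist_eq]
      exact h
    set YN : Finset (E 3) := Yn Y a.1 ((2 : ℝ) ^ (i + 1)) with hYN
    set RB : Finset ℝ := Rn (Rk k R) a.2 ((2 : ℝ) ^ (i + 1)) with hRB
    have hNsub : N ⊆ YN ×ˢ R := by
      intro p hp
      have h1 := (hNm p hp).1
      rw [Finset.mem_product]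
      refine ⟨?_, (hYR' p h1).2⟩
      simp only [hYN, Yn, Finset.mem_filter]
      exact ⟨(hYR' p h1).1, (hNd p hp).1⟩
    have haRB : a.2 ∈ RB := by
      simp only [hRB, Rn, Rk, Finset.mem_filter]
      refine ⟨⟨(hYR' a ha).2, (hmS a ha).2⟩, ?_⟩
      rw [sub_self, abs_zero]
      positivity
    have hRB1 : (1 : ℝ) ≤ (RB.card : ℝ) := by
      have : 0 < RB.card := Finset.card_pos.mpr ⟨a.2, haRB⟩
      exact_mod_cast this
    have hpc : (YN.card : ℝ) * (RB.card : ℝ) ≤ 2 * u * w ^ 100 := by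
      have h1 := prod_card hS hD (show i + 1 ≤ k + 6 by omega) ha
      refine h1.trans (le_of_eq ?_)
      rw [hwi, pow_succ]
      ring
    have hYNn : (0 : ℝ) ≤ (YN.card : ℝ) := Nat.cast_nonneg _
    have hYNc : 12 * (YN.card : ℝ) ≤ 24 * w0 * u * w ^ 99 := by
      have hp : w ^ 100 = w ^ 99 * w := pow_succ w 99
      have hnn : 0 ≤ u * w ^ 99 := by positivity
      by_cases h1 : w0 ≤ w
      · have h2 : w < (RB.card : ℝ) := by
          by_contra h3
          exact hcase ⟨h1, not_lt.mp h3⟩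
        have h3 : (YN.card : ℝ) * w ≤ (2 * u * w ^ 99) * w := by
          calc (YN.card : ℝ) * w ≤ (YN.card : ℝ) * (RB.card : ℝ) :=
                mul_le_mul_of_nonneg_left h2.le hYNn
            _ ≤ 2 * u * w ^ 100 := hpc
            _ = (2 * u * w ^ 99) * w := by rw [hp]; ring
        have h4 : (YN.card : ℝ) ≤ 2 * u * w ^ 99 := le_of_mul_le_mul_right h3 hwp
        nlinarith
      · have h2 : w ≤ w0 := (not_le.mp h1).le
        have h3 : (YN.card : ℝ) ≤ 2 * u * w ^ 100 := by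
          calc (YN.card : ℝ) = (YN.card : ℝ) * 1 := (mul_one _).symm
            _ ≤ (YN.card : ℝ) * (RB.card : ℝ) := mul_le_mul_of_nonneg_left hRB1 hYNn
            _ ≤ _ := hpc
        have h4 : u * w ^ 99 * w ≤ u * w ^ 99 * w0 := mul_le_mul_of_nonneg_left h2 hnn
        rw [hp] at h3
        nlinarith
    calc ∑ p ∈ N, ∑ q ∈ N.filter (fun q => (2 : ℝ) ^ i / 2 < dist p q), Wf p q
        ≤ ∑ p ∈ N, 24 * w0 * u * w ^ 99 := by
          refine Finset.sum_le_sum fun p _ => ?_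
          calc ∑ q ∈ N.filter (fun q => (2 : ℝ) ^ i / 2 < dist p q), Wf p q
              ≤ ∑ q ∈ N, Wf p q := by
                apply Finset.sum_le_sum_of_subset_of_nonneg (Finset.filter_subset _ _)
                intro q _ _
                exact LC_nn p q
            _ ≤ 12 * (YN.card : ℝ) := LC_triv N YN R hYR.rsep hNsub p
            _ ≤ _ := hYNc
      _ = 24 * w0 * u * w ^ 99 * (N.card : ℝ) := by
          rw [Finset.sum_const, nsmul_eq_mul]
          ring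
      _ ≤ (C + 24 * w0) * u * w ^ 99 * (N.card : ℝ) := by
          apply mul_le_mul_of_nonneg_right _ (Nat.cast_nonneg _)
          apply mul_le_mul_of_nonneg_right _ (by positivity)
          apply mul_le_mul_of_nonneg_right _ hu0
          linarith

end Pool.LibTH93
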