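import Pool.Agent.LibTH93.LC
import Pool.Agent.LibSR53.C1
import Pool.Agent.LibSR53.C2

/-
PLAN (LD). exists_sep_C2 (LibSR53.C2) with h = 2^i: T' subset of sc k S, 2^i-separated, every p has a in T' with dist p a < 2^i. If dist p q <= 2^i then p, q are in nb (sc k S) a (2^(i+1)). So the left side is
<= sum over a in T' of the left side of local_sum <= C u w^99 * sum over a in T' of card (nb (sc k S) a (2^(i+1))). Exchange: this is the sum over p in sc k S of card {a in T' : dist p a <= 2^(i+1)} <= C1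
(packing, LibSR53.C1, h = 2^i, R = 2^(i+1): C1 = C 2^4).
-/

set_option autoImplicit false

noncomputable section

open MeasureTheory Metric Set Filter

namespace Pool.LibTH93

open Pool.LibSR53 Pool.LibTP53

private theorem LD_Wf (p q : P 3) : 0 ≤ Wf p q := by
  unfold Wf
  positivity

private theorem LD_nb {S : Finset (P 3)} {p q : P 3} {h : ℝ} :
    q ∈ nb S p h ↔ q ∈ S ∧ dist q p ≤ h := by
  unfold nb
  rw [Finset.mem_filter]

open scoped Classical in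
/-- pairs of one scale at distance about 2^i -/
theorem shell_sum : ∃ C : ℝ, 0 < C ∧ ∀ (Y : Finset (E 3)) (R : Finset ℝ)
    (S : Finset (P 3)) (u : ℝ), Pool.LibTP53.Sep Y R → S ⊆ Y ×ˢ R → 1 ≤ u → DensT (Y ×ˢ R) u S →
    ∀ k i : ℕ, i ≤ k + 3 →
    ∑ p ∈ sc k S,
      ∑ q ∈ (sc k S).filter (fun q => (2 : ℝ) ^ i / 2 < dist p q ∧ dist p q ≤ (2 : ℝ) ^ i),
        Wf p q ≤ C * u * (((2 : ℝ) ^ ((i : ℝ) / 100)) ^ 99) * ((sc k S).card : ℝ) := by
  obtain ⟨C, hC, hloc⟩ := local_sum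
  obtain ⟨C1, hC1, hpack⟩ := packing 3
  refine ⟨C * (C1 * 2 ^ 4), by positivity, ?_⟩
  intro Y R S u hsep hS hu hD k i hi
  obtain ⟨M, hM⟩ : ∃ M, M = sc k S := ⟨_, rfl⟩
  obtain ⟨w, hw⟩ : ∃ w : ℝ, w = ((2 : ℝ) ^ ((i : ℝ) / 100)) ^ 99 := ⟨_, rfl⟩
  have hw0 : 0 ≤ w := by
    rw [hw]
    positivity
  have hloc' := fun a (ha : a ∈ M) => hloc Y R S u hsep hS hu hD k i hi a (hM ▸ ha)
  rw [← hM, ← hw]
  rw [← hM, ← hw] at hloc'
  obtain ⟨T, hT, hTs, hcov⟩ := exists_sep_C2 M (h := (2 : ℝ) ^ i) (by positivity)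
  obtain ⟨G, hG⟩ : ∃ G : P 3 → P 3 → ℝ, G = fun a p =>
    ∑ q ∈ (nb M a ((2 : ℝ) ^ (i + 1))).filter (fun q => (2 : ℝ) ^ i / 2 < dist p q), Wf p q :=
    ⟨_, rfl⟩
  have hG0 : ∀ a p, 0 ≤ G a p := by
    intro a p
    rw [hG]
    exact Finset.sum_nonneg fun q _ => LD_Wf p q
  have h2i : (2 : ℝ) ^ (i + 1) = 2 ^ i + 2 ^ i := by ring
  have h2i0 : (0 : ℝ) < 2 ^ i := by positivity
  have h1 : ∀ p ∈ M, ∑ q ∈ M.filter (fun q => (2 : ℝ) ^ i / 2 < dist p q ∧
      dist p q ≤ (2 : ℝ) ^ i), Wf p q ≤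
      ∑ a ∈ T, if p ∈ nb M a ((2 : ℝ) ^ (i + 1)) then G a p else 0 := by
    intro p hp
    obtain ⟨a, ha, hpa⟩ := hcov p hp
    have hpn : p ∈ nb M a ((2 : ℝ) ^ (i + 1)) := LD_nb.2 ⟨hp, by rw [h2i]; linarith⟩
    have h2 : ∑ q ∈ M.filter (fun q => (2 : ℝ) ^ i / 2 < dist p q ∧ dist p q ≤ (2 : ℝ) ^ i),
        Wf p q ≤ G a p := by
      rw [hG]
      refine Finset.sum_le_sum_of_subset_of_nonneg ?_ fun q _ _ => LD_Wf p q
      intro q hq
      obtain ⟨hq1, hq2, hq3⟩ := Finset.mem_filter.1 hq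
      refine Finset.mem_filter.2 ⟨LD_nb.2 ⟨hq1, ?_⟩, hq2⟩
      have h3 := dist_triangle q p a
      rw [dist_comm q p] at h3
      rw [h2i]
      linarith
    refine h2.trans ?_
    have h3 := Finset.single_le_sum
      (f := fun a => if p ∈ nb M a ((2 : ℝ) ^ (i + 1)) then G a p else 0)
      (s := T) (fun a _ => by
        show 0 ≤ if p ∈ nb M a ((2 : ℝ) ^ (i + 1)) then G a p else 0
        split_ifs
        · exact hG0 a p
        · exact le_rfl) ha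
    simp only [if_pos hpn] at h3
    exact h3
  have h4 : ∀ a ∈ T, ∑ p ∈ M, (if p ∈ nb M a ((2 : ℝ) ^ (i + 1)) then G a p else 0) ≤
      C * u * w * ((nb M a ((2 : ℝ) ^ (i + 1))).card : ℝ) := by
    intro a ha
    have h5 : ∑ p ∈ M, (if p ∈ nb M a ((2 : ℝ) ^ (i + 1)) then G a p else 0) =
        ∑ p ∈ nb M a ((2 : ℝ) ^ (i + 1)), G a p := by
      rw [← Finset.sum_filter]
      refine Finset.sum_congr ?_ fun _ _ => rfl
      ext p
      rw [Finset.mem_filter]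
      exact ⟨fun h => h.2, fun h => ⟨(LD_nb.1 h).1, h⟩⟩
    rw [h5, hG]
    exact hloc' a (hT ha)
  have h6 : ∑ a ∈ T, ((nb M a ((2 : ℝ) ^ (i + 1))).card : ℝ) ≤ C1 * 2 ^ 4 * (M.card : ℝ) := by
    have h7 : ∑ a ∈ T, ((nb M a ((2 : ℝ) ^ (i + 1))).card : ℝ) =
        ∑ p ∈ M, ((T.filter fun a => dist a p ≤ (2 : ℝ) ^ (i + 1)).card : ℝ) := by
      have h8 : ∀ a, ((nb M a ((2 : ℝ) ^ (i + 1))).card : ℝ) =
          ∑ p ∈ M, if dist a p ≤ (2 : ℝ) ^ (i + 1) then (1 : ℝ) else 0 := by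
        intro a
        rw [Finset.sum_boole]
        unfold nb
        simp only [dist_comm a]
      rw [Finset.sum_congr rfl fun a _ => h8 a, Finset.sum_comm]
      refine Finset.sum_congr rfl fun p _ => ?_
      rw [Finset.sum_boole]
    rw [h7]
    have h9 : ∀ p ∈ M, ((T.filter fun a => dist a p ≤ (2 : ℝ) ^ (i + 1)).card : ℝ) ≤
        C1 * 2 ^ 4 := by
      intro p _
      have h10 := hpack ((2 : ℝ) ^ i) ((2 : ℝ) ^ (i + 1)) (by positivity)
        (pow_le_pow_right₀ (by norm_num) (Nat.le_succ i)) p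
        (T.filter fun a => dist a p ≤ (2 : ℝ) ^ (i + 1))
        (fun a ha b hb hab => hTs a (Finset.mem_filter.1 ha).1 b (Finset.mem_filter.1 hb).1 hab)
        (fun a ha => (Finset.mem_filter.1 ha).2)
      have h11 : (2 : ℝ) ^ (i + 1) / 2 ^ i = 2 := by
        rw [pow_succ]
        field_simp
      rw [h11] at h10
      exact h10
    refine (Finset.sum_le_sum h9).trans (le_of_eq ?_)
    rw [Finset.sum_const, nsmul_eq_mul]
    ring
  refine (Finset.sum_le_sum h1).trans ?_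
  rw [Finset.sum_comm]
  refine (Finset.sum_le_sum h4).trans ?_
  rw [← Finset.mul_sum]
  refine (mul_le_mul_of_nonneg_left h6 (by positivity)).trans (le_of_eq ?_)
  ring

end Pool.LibTH93
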