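import Pool.Agent.LibTH93.LA
import Pool.Agent.LibTP53.CA
import Pool.Agent.LibTP53.CD

/-
PLAN (LE). As cols_near (LibTP53.CE). Q = the filtered set. For y in Q.image fst choose q in Q with q.1 = y: for t in As (fun _ => 0) (Rk k R) p.2 q.2 (more than M elements; |t - p.2| <= |p.2 - q.2| <= dist p q <= 2^i)
the point (y,t) is in nb (sc k (Y x R)) p (2^i); different y give different points: card (Q.image fst) * M <= u 2^i (DensT, i <= k+6). For every centre y the sum of Wf p q over the q with centre y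
is <= 12 (Wf_sum): total <= 12 u 2^i / M.
-/

set_option autoImplicit false

noncomputable section

open MeasureTheory Metric Set Filter

namespace Pool.LibTH93

open Pool.LibSR53 Pool.LibTP53

open scoped Classical in
/-- far radii, row by row, up to distance 2^i -/
theorem row_near {d : ℕ} (Y : Finset (E d)) (R : Finset ℝ) (S : Finset (P d)) (u : ℝ)
    (hs : Pool.LibTP53.Sep Y R) (hS : S ⊆ Y ×ˢ R) (hD : DensT (Y ×ˢ R) u S) (k i M : ℕ) (hi : i ≤ k + 6)
    (hM : 1 ≤ M) (p : P d) (hp : p ∈ sc k S) :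
    ∑ q ∈ (sc k S).filter (fun q => M < Ac (fun _ => 0) (Rk k R) p.2 q.2 ∧ dist p q ≤ (2 : ℝ) ^ i),
      Wf p q ≤ 12 * u * 2 ^ i / M := by
  have hsc : ∀ (T : Finset (P d)) (q : P d), q ∈ sc k T ↔
      q ∈ T ∧ (2 : ℝ) ^ k ≤ q.2 ∧ q.2 < (2 : ℝ) ^ (k + 1) := by
    intro T q
    simp only [sc, Finset.mem_filter]
  have hWf : ∀ q : P d, 0 ≤ Wf p q := by
    intro q
    unfold Wf
    positivity
  set Q : Finset (P d) := (sc k S).filter
    (fun q => M < Ac (fun _ => 0) (Rk k R) p.2 q.2 ∧ dist p q ≤ (2 : ℝ) ^ i) with hQ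
  have hQm : ∀ q ∈ Q, q ∈ S ∧ M < Ac (fun _ => 0) (Rk k R) p.2 q.2 ∧ dist p q ≤ (2 : ℝ) ^ i := by
    intro q hq
    rw [hQ, Finset.mem_filter, hsc] at hq
    exact ⟨hq.1.1, hq.2⟩
  set N : Finset (P d) := nb (sc k (Y ×ˢ R)) p ((2 : ℝ) ^ i) with hN
  have hNm : ∀ q : P d, q ∈ N ↔ q ∈ sc k (Y ×ˢ R) ∧ dist q p ≤ (2 : ℝ) ^ i := by
    intro q
    simp only [hN, nb, Finset.mem_filter]
  set N0 : Finset (P d) := N.filter (fun q => q.1 ∈ Q.image Prod.fst) with hN0
  have h3 : M * (Q.image Prod.fst).card ≤ N0.card := by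
    apply Finset.mul_card_image_le_card_of_maps_to (f := Prod.fst)
    · intro q hq
      rw [hN0, Finset.mem_filter] at hq
      exact hq.2
    · intro y hy
      obtain ⟨q, hqQ, hqy⟩ := Finset.mem_image.mp hy
      obtain ⟨hqS, hqA, hqd⟩ := hQm q hqQ
      have hqE := Finset.mem_product.mp (hS hqS)
      rw [Prod.dist_eq, max_le_iff] at hqd
      refine le_trans (le_of_lt hqA) ?_
      have h5 : Ac (fun _ => 0) (Rk k R) p.2 q.2 =
          ((As (fun _ => 0) (Rk k R) p.2 q.2).image (fun t : ℝ => ((y, t) : P d))).card := by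
        rw [Finset.card_image_of_injective]
        · rfl
        · intro t t' h
          exact (Prod.mk.inj h).2
      rw [h5]
      apply Finset.card_le_card
      intro x hx
      obtain ⟨t, ht, rfl⟩ := Finset.mem_image.mp hx
      simp only [As, Rk, Finset.mem_filter] at ht
      obtain ⟨⟨htR, htk, htk'⟩, -, htd⟩ := ht
      rw [Finset.mem_filter, hN0, Finset.mem_filter, hNm, hsc, Finset.mem_product]
      refine ⟨⟨⟨⟨⟨?_, htR⟩, htk, htk'⟩, ?_⟩, hy⟩, rfl⟩
      · rw [← hqy]
        exact hqE.1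
      · rw [Prod.dist_eq, max_le_iff]
        refine ⟨?_, ?_⟩
        · rw [← hqy, dist_comm]
          exact hqd.1
        · show dist t p.2 ≤ 2 ^ i
          rw [Real.dist_eq]
          have h6 := hqd.2
          rw [Real.dist_eq] at h6
          exact htd.trans h6
  have h4 : ((Q.image Prod.fst).card : ℝ) * M ≤ u * 2 ^ i := by
    have h5 : ((M * (Q.image Prod.fst).card : ℕ) : ℝ) ≤ (N0.card : ℝ) := by exact_mod_cast h3
    have h6 : (N0.card : ℝ) ≤ (N.card : ℝ) := by
      exact_mod_cast Finset.card_le_card (Finset.filter_subset _ _)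
    have h7 := hD k p hp i hi
    rw [Nat.cast_mul] at h5
    rw [mul_comm]
    exact (h5.trans h6).trans h7
  have h8 : ∑ q ∈ Q, Wf p q ≤ ((Q.image Prod.fst).card : ℝ) * 12 := by
    rw [← Finset.sum_fiberwise_of_maps_to (g := Prod.fst) (t := Q.image Prod.fst)
      (fun q hq => Finset.mem_image_of_mem _ hq)]
    rw [← nsmul_eq_mul]
    apply Finset.sum_le_card_nsmul
    intro y _
    refine le_trans ?_ (Wf_sum R hs.rsep p y)
    have h9 : ∑ q ∈ Q.filter (fun q => q.1 = y), Wf p q =
        ∑ r ∈ (Q.filter (fun q => q.1 = y)).image Prod.snd, Wf p ((y, r) : P d) := by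
      rw [Finset.sum_image]
      · apply Finset.sum_congr rfl
        intro q hq
        rw [Finset.mem_filter] at hq
        rw [← hq.2]
      · intro q hq q' hq' h
        rw [Finset.mem_coe, Finset.mem_filter] at hq hq'
        exact Prod.ext (hq.2.trans hq'.2.symm) h
    rw [h9]
    apply Finset.sum_le_sum_of_subset_of_nonneg
    · intro r hr
      obtain ⟨q, hq, rfl⟩ := Finset.mem_image.mp hr
      rw [Finset.mem_filter] at hq
      exact (Finset.mem_product.mp (hS (hQm q hq.1).1)).2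
    · intro r _ _
      exact hWf _
  have hM0 : (0 : ℝ) < M := by exact_mod_cast hM
  rw [le_div_iff₀ hM0]
  calc (∑ q ∈ Q, Wf p q) * M ≤ ((Q.image Prod.fst).card : ℝ) * 12 * M :=
        mul_le_mul_of_nonneg_right h8 hM0.le
    _ = 12 * (((Q.image Prod.fst).card : ℝ) * M) := by ring
    _ ≤ 12 * (u * 2 ^ i) := by linarith
    _ = 12 * u * 2 ^ i := by ring

end Pool.LibTH93
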