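import Pool.Agent.LibTH93.Defs
import Pool.Agent.LibSR53.C1
import Pool.Agent.LibSR53.L1

/-
PLAN (LF). Dens u S (radii i <= k) from DensT: nb (sc k S) p x is contained in nb (sc k (Y x R)) p x. Shells 2^(k+j) < dist p q <= 2^(k+j+1), j >= 3 (exists_nat_pow_near or Nat.find). There |p.2 - q.2| < 2^k < dist, so
dist p q = norm (p.1 - q.1), D1 >= dist - 2^k >= dist/2, D2 >= dist - 4 2^k >= dist/2, Wf p q <= 8/dist^2, (1+dist)^(-nu 3) <= 1/dist (nu 3 = 1), (1+dist/2^k)^5 >= 2^(5j): term <= 8 2^(-3(k+j)) 2^(-5j).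
count_ball (LibSR53.C1) with j+1: card <= C u 2^k 2^(4(j+1)). Sum over j of 8 * 16 C u 2^(-2k) 2^(-4j) <= C' u/4^k. (Structure as far_sum in LibSR53.L1.)
-/

set_option autoImplicit false

noncomputable section

open MeasureTheory Metric Set Filter

namespace Pool.LibTH93

open Pool.LibSR53 Pool.LibTP53

private lemma LF_geom {d : ℕ} {p q : P d} {k : ℕ} (hp1 : (2 : ℝ) ^ k ≤ p.2)
    (hp2 : p.2 < (2 : ℝ) ^ (k + 1)) (hq1 : (2 : ℝ) ^ k ≤ q.2) (hq2 : q.2 < (2 : ℝ) ^ (k + 1))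
    (hD : (2 : ℝ) ^ (k + 3) < dist p q) : Wf p q ≤ 8 / dist p q ^ 2 := by
  have h2k : (0 : ℝ) < 2 ^ k := by positivity
  have e1 : (2 : ℝ) ^ (k + 1) = 2 * 2 ^ k := by rw [pow_succ]; ring
  have e3 : (2 : ℝ) ^ (k + 3) = 8 * 2 ^ k := by rw [pow_add]; ring
  rw [e1] at hp2 hq2
  rw [e3] at hD
  have hr : |p.2 - q.2| < 2 ^ k := by
    rw [abs_lt]; constructor <;> linarith
  have hdist : dist p q = ‖p.1 - q.1‖ := by
    rw [Prod.dist_eq] at hD ⊢
    rw [Real.dist_eq] at hD ⊢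
    rw [dist_eq_norm] at hD ⊢
    apply max_eq_left
    by_contra hcon
    push Not at hcon
    rw [max_eq_right hcon.le] at hD
    linarith
  set D := dist p q with hDdef
  have hD0 : 0 < D := by linarith
  have hD1 : D / 2 ≤ |‖p.1 - q.1‖ - (|p.2 - q.2|)| := by
    rw [← hdist]
    have h1 := le_abs_self (D - |p.2 - q.2|)
    linarith
  have hD2 : D / 2 ≤ |‖p.1 - q.1‖ - (p.2 + q.2)| := by
    rw [← hdist]
    have h1 := le_abs_self (D - (p.2 + q.2))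
    linarith
  have hone : ∀ x : ℝ, D / 2 ≤ x → 1 / (1 + x) ^ 2 ≤ 4 / D ^ 2 := by
    intro x hx
    have hx0 : 0 < 1 + x := by linarith
    rw [div_le_div_iff₀ (pow_pos hx0 2) (pow_pos hD0 2)]
    have h1 : D ≤ 2 * (1 + x) := by linarith
    have h2 : D ^ 2 ≤ (2 * (1 + x)) ^ 2 := pow_le_pow_left₀ hD0.le h1 2
    nlinarith
  unfold Wf
  have h1 := hone _ hD1
  have h2 := hone _ hD2
  calc _ ≤ 4 / D ^ 2 + 4 / D ^ 2 := add_le_add h1 h2
    _ = 8 / D ^ 2 := by ring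

open scoped Classical in
/-- very far points of the same scale -/
theorem row_tail : ∃ C : ℝ, 0 < C ∧ ∀ (Y : Finset (E 3)) (R : Finset ℝ) (S : Finset (P 3))
    (u : ℝ), S ⊆ Y ×ˢ R → 0 ≤ u → DensT (Y ×ˢ R) u S → ∀ (k : ℕ), ∀ p ∈ sc k S,
    ∑ q ∈ (sc k S).filter (fun q => (2 : ℝ) ^ (k + 3) < dist p q),
      (1 + dist p q) ^ (-nu 3) / (1 + dist p q / 2 ^ k) ^ 5 * Wf p q ≤ C * u / 4 ^ k := by
  obtain ⟨C1, hC1, hcount⟩ := count_ball 3
  refine ⟨256 * C1, by positivity, ?_⟩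
  intro Y R S u hS hu hT k p hp
  -- density of S itself
  have hD : Dens u S := by
    intro k' p' hp' i hi
    refine le_trans ?_ (hT k' p' hp' i (by omega))
    have hsub : nb (sc k' S) p' ((2 : ℝ) ^ i) ⊆ nb (sc k' (Y ×ˢ R)) p' ((2 : ℝ) ^ i) := by
      intro q hq
      unfold nb sc at hq ⊢
      rw [Finset.mem_filter, Finset.mem_filter] at hq ⊢
      exact ⟨⟨hS hq.1.1, hq.1.2⟩, hq.2⟩
    exact_mod_cast Finset.card_le_card hsub
  have hp' : (2 : ℝ) ^ k ≤ p.2 ∧ p.2 < (2 : ℝ) ^ (k + 1) := (Finset.mem_filter.1 hp).2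
  set F : Finset (P 3) := (sc k S).filter (fun q => (2 : ℝ) ^ (k + 3) < dist p q) with hF
  have h2k : (0 : ℝ) < 2 ^ k := by positivity
  -- the shell of a far point
  have hlev : ∀ q ∈ F, ∃ m : ℕ, (2 : ℝ) ^ (k + m) ≤ dist p q ∧ dist p q < 2 ^ (k + m + 1) := by
    intro q hq
    have h1 : (2 : ℝ) ^ (k + 3) < dist p q := (Finset.mem_filter.1 hq).2
    have h0 : (1 : ℝ) ≤ 2 ^ (k + 3) := one_le_pow₀ (by norm_num)
    obtain ⟨n, hn1, hn2⟩ := exists_nat_pow_near (h0.trans h1.le) (by norm_num : (1 : ℝ) < 2)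
    have h3 : (2 : ℝ) ^ (k + 3) < 2 ^ (n + 1) := h1.trans hn2
    have h4 := (pow_lt_pow_iff_right₀ (by norm_num : (1 : ℝ) < 2)).1 h3
    obtain ⟨m, rfl⟩ := Nat.exists_eq_add_of_le (show k ≤ n by omega)
    exact ⟨m, hn1, hn2⟩
  choose! g hg using hlev
  set w : ℕ → ℝ := fun m => 8 / (2 ^ (k + m)) ^ 3 / (2 ^ m) ^ 5 with hw
  have hw0 : ∀ m, 0 ≤ w m := fun m => by rw [hw]; positivity
  have hν : -nu 3 = -1 := by unfold nu; norm_num
  have hterm : ∀ q ∈ F,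
      (1 + dist p q) ^ (-nu 3) / (1 + dist p q / 2 ^ k) ^ 5 * Wf p q ≤ w (g q) := by
    intro q hq
    obtain ⟨h1, h2⟩ := hg q hq
    have hq1 : (2 : ℝ) ^ (k + 3) < dist p q := (Finset.mem_filter.1 hq).2
    have hq2 : (2 : ℝ) ^ k ≤ q.2 ∧ q.2 < (2 : ℝ) ^ (k + 1) :=
      (Finset.mem_filter.1 (Finset.mem_filter.1 hq).1).2
    have hW := LF_geom hp'.1 hp'.2 hq2.1 hq2.2 hq1
    set D := dist p q with hDdef
    have h2g : (0 : ℝ) < 2 ^ (k + g q) := by positivity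
    have hD0 : 0 < D := lt_of_lt_of_le h2g h1
    have hW0 : 0 ≤ Wf p q := by unfold Wf; positivity
    have hW2 : Wf p q ≤ 8 / (2 ^ (k + g q)) ^ 2 := by
      refine hW.trans ?_
      apply div_le_div_of_nonneg_left (by norm_num) (by positivity)
      exact pow_le_pow_left₀ h2g.le h1 2
    have hA : (1 + D) ^ (-nu 3) ≤ 1 / 2 ^ (k + g q) := by
      rw [hν, Real.rpow_neg_one, ← one_div]
      apply div_le_div_of_nonneg_left (by norm_num) h2g
      linarith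
    have hB : (2 ^ g q : ℝ) ^ 5 ≤ (1 + D / 2 ^ k) ^ 5 := by
      refine pow_le_pow_left₀ (by positivity) ?_ _
      have h3 : (2 : ℝ) ^ (k + g q) / 2 ^ k = 2 ^ g q := by
        rw [pow_add]; field_simp
      have h4 : (2 : ℝ) ^ (k + g q) / 2 ^ k ≤ D / 2 ^ k :=
        div_le_div_of_nonneg_right h1 h2k.le
      linarith
    have hAB : (1 + D) ^ (-nu 3) / (1 + D / 2 ^ k) ^ 5 ≤
        (1 / 2 ^ (k + g q)) / (2 ^ g q) ^ 5 :=
      div_le_div₀ (by positivity) hA (by positivity) hB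
    calc (1 + D) ^ (-nu 3) / (1 + D / 2 ^ k) ^ 5 * Wf p q
        ≤ ((1 / 2 ^ (k + g q)) / (2 ^ g q) ^ 5) * (8 / (2 ^ (k + g q)) ^ 2) :=
          mul_le_mul hAB hW2 hW0 (by positivity)
      _ = w (g q) := by
          rw [hw]
          field_simp
  have hcard : ∀ m : ℕ, (({q ∈ F | g q = m} : Finset (P 3)).card : ℝ) * w m ≤
      128 * C1 * u / 4 ^ k * (1 / 2) ^ m := by
    intro m
    have hsub : ({q ∈ F | g q = m} : Finset (P 3)) ⊆
        nb (sc k S) p ((2 : ℝ) ^ (k + (m + 1))) := by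
      intro q hq
      obtain ⟨hq1, hq2⟩ := Finset.mem_filter.1 hq
      have h2 := (hg q hq1).2
      refine Finset.mem_filter.2 ⟨(Finset.mem_filter.1 hq1).1, ?_⟩
      rw [dist_comm, ← hq2]
      exact h2.le
    have hc : (({q ∈ F | g q = m} : Finset (P 3)).card : ℝ) ≤
        ((nb (sc k S) p ((2 : ℝ) ^ (k + (m + 1)))).card : ℝ) := by
      exact_mod_cast Finset.card_le_card hsub
    have hN := hcount k u S hu hD p (m + 1)
    have key : (2 : ℝ) ^ k * 2 ^ ((m + 1) * (3 + 1)) * (8 / (2 ^ (k + m)) ^ 3 / (2 ^ m) ^ 5) ≤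
        128 / 4 ^ k * (1 / 2) ^ m := by
      have e4 : (4 : ℝ) ^ k = (2 ^ k) ^ 2 := by
        rw [← pow_mul, mul_comm k 2, pow_mul]; norm_num
      have e5 : (2 : ℝ) ^ ((m + 1) * (3 + 1)) = 16 * (2 ^ m) ^ 4 := by
        rw [← pow_mul, show (m + 1) * (3 + 1) = m * 4 + 4 by ring, pow_add]; ring
      rw [e4, e5, pow_add, one_div, inv_pow]
      set a : ℝ := 2 ^ k
      set b : ℝ := 2 ^ m with hb
      have ha : 0 < a := h2k
      have hb1 : 1 ≤ b := one_le_pow₀ (by norm_num)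
      have hb0 : 0 < b := by linarith
      have e6 : a * (16 * b ^ 4) * (8 / (a * b) ^ 3 / b ^ 5) = 128 / a ^ 2 * (b ^ 4)⁻¹ := by
        field_simp
        ring
      rw [e6]
      apply mul_le_mul_of_nonneg_left _ (by positivity)
      apply inv_anti₀ hb0
      calc b = b ^ 1 := (pow_one b).symm
        _ ≤ b ^ 4 := pow_le_pow_right₀ hb1 (by norm_num)
    calc (({q ∈ F | g q = m} : Finset (P 3)).card : ℝ) * w m
        ≤ (C1 * u * 2 ^ k * 2 ^ ((m + 1) * (3 + 1))) * w m :=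
          mul_le_mul_of_nonneg_right (hc.trans hN) (hw0 m)
      _ = C1 * u * ((2 : ℝ) ^ k * 2 ^ ((m + 1) * (3 + 1)) *
            (8 / (2 ^ (k + m)) ^ 3 / (2 ^ m) ^ 5)) := by rw [hw]; ring
      _ ≤ C1 * u * (128 / 4 ^ k * (1 / 2) ^ m) :=
          mul_le_mul_of_nonneg_left key (by positivity)
      _ = 128 * C1 * u / 4 ^ k * (1 / 2) ^ m := by ring
  calc ∑ q ∈ F, (1 + dist p q) ^ (-nu 3) / (1 + dist p q / 2 ^ k) ^ 5 * Wf p q
      ≤ ∑ q ∈ F, w (g q) := Finset.sum_le_sum hterm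
    _ = ∑ m ∈ F.image g, (({q ∈ F | g q = m} : Finset (P 3)).card : ℝ) * w m := by
        rw [Finset.sum_comp w g]
        simp only [nsmul_eq_mul]
    _ ≤ ∑ m ∈ F.image g, 128 * C1 * u / 4 ^ k * (1 / 2) ^ m :=
        Finset.sum_le_sum fun m _ => hcard m
    _ = 128 * C1 * u / 4 ^ k * ∑ m ∈ F.image g, (1 / 2 : ℝ) ^ m := by rw [Finset.mul_sum]
    _ ≤ 128 * C1 * u / 4 ^ k * ((1 / 2 : ℝ) ^ 0 / (1 - 1 / 2)) := by
        refine mul_le_mul_of_nonneg_left ?_ (by positivity)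
        exact geom_tail_aux (1 / 2) (by norm_num) (by norm_num) 0 _ (fun j _ => Nat.zero_le j)
    _ = 256 * C1 * u / 4 ^ k := by norm_num; ring

end Pool.LibTH93
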