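import Pool.Agent.LibTH93.LD
import Pool.Agent.LibTH93.LE
import Pool.Agent.LibTH93.LF
import Pool.Agent.LibTP53.CD
import Pool.Agent.LibTP53.HA
import Pool.Agent.LibTP53.CH
import Pool.Agent.LibSR53.L2

/-
PLAN (LG). As same_scaleW (LibTP53.CH; delivered file TP53_CH.lean in the team store), one class only: near r s := Ac 0 r s <= M and Ac 0 s r <= M (Ac (fun _ => 0) (Rk k R)), M = ceil (sqrt u), sqrt u <= M <= 2 sqrt u.
near_far (HA) with A = sc k S, c = Prod.snd, w p = gamma p . v p, N = 2 M (degree of CD with b = 0, s0 = 1), D = C0 (2 2^k)^2 (hdiag exactly as in CH). hoff: not near means M < Ac p.2 q.2 or M < Ac q.2 p.2; by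
symmetry (exchange p and q, norm_inner_symm, Wf symmetric) it is <= 2 * sum over p, sum over q with M < Ac p.2 q.2 of C0 4^k kernel(p,q) (KerL.loc with R = 2^k, d = 3), kernel = (1+dist)^(-1)/(1+dist/2^k)^5 Wf.
If 2^k < M/2 there is no such pair (Ac_dist: M <= 2|p.2-q.2| < 2 2^k). Otherwise 4^k >= u/4. Split q: dist > 2^(k+3): row_tail: <= C u/4^k <= 4 C. Shell i <= k+3 (2^i/2 < dist <= 2^i for i >= 1, dist <= 1 for i = 0):
kernel <= (2/2^i) Wf. Shells with 2^i <= 2 u^100 (at most C (1 + log u) of them): row_near: <= (2/2^i) 12 u 2^i/M = 24 u/M <= 24 sqrt u each. Shells with 2^i > u^100: all pairs: shell_sum: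
(2/2^i) C u (2^(i/100))^99 card = 2 C u 2^(-i/100) card; geometric series, first term <= u^(-1): sum <= C' card.
-/

set_option autoImplicit false

noncomputable section

open MeasureTheory Metric Set Filter

namespace Pool.LibTH93

open Pool.LibSR53 Pool.LibTP53


private theorem LG_Wf_nonneg {d : ℕ} (p q : P d) : 0 ≤ Wf p q := by
  unfold Wf
  positivity

private theorem LG_Wf_comm {d : ℕ} (p q : P d) : Wf p q = Wf q p := by
  unfold Wf
  rw [norm_sub_rev p.1 q.1, abs_sub_comm p.2 q.2, add_comm p.2 q.2]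

/-- the majorant of the Gram matrix at one scale -/
private def LG_K (k : ℕ) (p q : P 3) : ℝ :=
  (1 + dist p q) ^ (-nu 3) / (1 + dist p q / 2 ^ k) ^ 5 * Wf p q

private theorem LG_K_nonneg (k : ℕ) (p q : P 3) : 0 ≤ LG_K k p q := by
  unfold LG_K
  have h1 := LG_Wf_nonneg p q
  have h2 : 0 ≤ dist p q := dist_nonneg
  positivity

private theorem LG_K_comm (k : ℕ) (p q : P 3) : LG_K k p q = LG_K k q p := by
  unfold LG_K
  rw [dist_comm p q, LG_Wf_comm p q]

private theorem LG_nu : nu 3 = 1 := by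
  norm_num [nu]

/-- the majorant on one shell -/
private theorem LG_K_le (k i : ℕ) (p q : P 3) (h : i = 0 ∨ (2 : ℝ) ^ i / 2 < dist p q) :
    LG_K k p q ≤ 2 / 2 ^ i * Wf p q := by
  unfold LG_K
  refine mul_le_mul_of_nonneg_right ?_ (LG_Wf_nonneg p q)
  have h2 : 0 ≤ dist p q := dist_nonneg
  rw [LG_nu, Real.rpow_neg_one]
  have h3 : (1 : ℝ) ≤ (1 + dist p q / 2 ^ k) ^ 5 := by
    refine one_le_pow₀ ?_
    have : 0 ≤ dist p q / 2 ^ k := by positivity
    linarith
  have h4 : (1 + dist p q)⁻¹ / (1 + dist p q / 2 ^ k) ^ 5 ≤ (1 + dist p q)⁻¹ :=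
    div_le_self (by positivity) h3
  refine h4.trans ?_
  rw [inv_le_iff_one_le_mul₀ (by positivity)]
  rcases h with h | h
  · subst h
    norm_num
    linarith
  · have h5 : (0 : ℝ) < 2 ^ i := by positivity
    have h6 : (2 : ℝ) / 2 ^ i * (2 ^ i / 2) = 1 := by field_simp
    calc (1 : ℝ) = 2 / 2 ^ i * (2 ^ i / 2) := h6.symm
      _ ≤ 2 / 2 ^ i * (1 + dist p q) := by
          refine mul_le_mul_of_nonneg_left ?_ (by positivity)
          linarith

/-- the near pairs of radii -/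
private def LG_near (Q : Finset ℝ) (M : ℕ) (r s : ℝ) : Prop :=
  Ac (fun _ => 0) Q r s ≤ M ∧ Ac (fun _ => 0) Q s r ≤ M

open scoped Classical in
/-- the double sum over the far pairs -/
private theorem LG_double {ι : Type} (A : Finset ι) (K : ι → ι → ℝ) (hK0 : ∀ p q, 0 ≤ K p q)
    (hKs : ∀ p q, K p q = K q p) (X : ι → ι → Prop) (Nn : ι → ι → Prop)
    (h : ∀ p q, ¬ Nn p q → X p q ∨ X q p) (c : ℝ)
    (hX : ∑ p ∈ A, ∑ q ∈ A.filter (fun q => X p q), K p q ≤ c) :
    ∑ p ∈ A, ∑ q ∈ A.filter (fun q => ¬ Nn p q), K p q ≤ 2 * c := by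
  have hswap : ∑ p ∈ A, ∑ q ∈ A, (if X q p then K p q else 0) =
      ∑ p ∈ A, ∑ q ∈ A, (if X p q then K p q else 0) := by
    rw [Finset.sum_comm]
    refine Finset.sum_congr rfl fun p _ => Finset.sum_congr rfl fun q _ => ?_
    rw [hKs q p]
  have hX1 : ∑ p ∈ A, ∑ q ∈ A, (if X p q then K p q else 0) ≤ c := by
    refine le_trans (le_of_eq ?_) hX
    refine Finset.sum_congr rfl fun p _ => ?_
    rw [← Finset.sum_filter]
  have hmain : ∑ p ∈ A, ∑ q ∈ A.filter (fun q => ¬ Nn p q), K p q ≤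
      ∑ p ∈ A, ∑ q ∈ A, ((if X p q then K p q else 0) + (if X q p then K p q else 0)) := by
    refine Finset.sum_le_sum fun p _ => ?_
    rw [Finset.sum_filter]
    refine Finset.sum_le_sum fun q _ => ?_
    have h0 := hK0 p q
    have n1 : 0 ≤ (if X p q then K p q else 0) := by split_ifs <;> simp [h0]
    have n2 : 0 ≤ (if X q p then K p q else 0) := by split_ifs <;> simp [h0]
    by_cases hn : Nn p q
    · rw [if_neg (not_not.2 hn)]
      linarith
    · rw [if_pos hn]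
      rcases h p q hn with h1 | h1
      · rw [if_pos h1]
        linarith
      · rw [if_pos h1]
        linarith
  refine hmain.trans ?_
  simp only [Finset.sum_add_distrib]
  rw [hswap]
  linarith

open scoped Classical in
/-- points with the same radius -/
private theorem LG_fix {H : Type} [NormedAddCommGroup H] [InnerProductSpace ℂ H] {d : ℕ}
    {C0 : ℝ} {v : P d → H} (hv : Ker d C0 v) (A : Finset (P d))
    (hsep : ∀ p ∈ A, ∀ q ∈ A, p.1 ≠ q.1 → 1 ≤ dist p.1 q.1) (M : ℝ)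
    (h1 : ∀ p ∈ A, 1 ≤ p.2) (hM : ∀ p ∈ A, p.2 ≤ M) (γ : P d → ℂ) (hγ : ∀ p, ‖γ p‖ ≤ 1)
    (ρ : ℝ) (hρ : ρ ∈ A.image Prod.snd) :
    ‖∑ p ∈ A.filter (fun p => p.2 = ρ), γ p • v p‖ ^ 2 ≤
      C0 * M ^ (d - 1) * ((A.filter (fun p => p.2 = ρ)).card : ℝ) := by
  have hC0 := hv.pos
  obtain ⟨p1, hp1, rfl⟩ := Finset.mem_image.1 hρ
  set T := A.filter (fun p => p.2 = p1.2) with hT
  have hinj : Set.InjOn Prod.fst (T : Set (P d)) := by
    intro a ha b hb hab
    have ha' := (Finset.mem_filter.1 ha).2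
    have hb' := (Finset.mem_filter.1 hb).2
    exact Prod.ext hab (ha'.trans hb'.symm)
  have hTs : ∑ p ∈ T, γ p • v p = ∑ y ∈ T.image Prod.fst, γ (y, p1.2) • v (y, p1.2) := by
    rw [Finset.sum_image hinj]
    refine Finset.sum_congr rfl fun p hp => ?_
    rw [← (Finset.mem_filter.1 hp).2]
  have hcard : (T.image Prod.fst).card = T.card := Finset.card_image_of_injOn hinj
  have h2 := hv.fix p1.2 (h1 p1 hp1) (T.image Prod.fst) (fun y => γ (y, p1.2)) (by
    intro y hy z hz hyz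
    obtain ⟨a, ha, rfl⟩ := Finset.mem_image.1 hy
    obtain ⟨b, hb, rfl⟩ := Finset.mem_image.1 hz
    exact hsep a (Finset.mem_filter.1 ha).1 b (Finset.mem_filter.1 hb).1 hyz)
  rw [hTs]
  refine h2.trans ?_
  have h4 : ∑ y ∈ T.image Prod.fst, ‖γ (y, p1.2)‖ ^ 2 ≤ (T.card : ℝ) := by
    rw [← hcard]
    calc ∑ y ∈ T.image Prod.fst, ‖γ (y, p1.2)‖ ^ 2 ≤ ∑ y ∈ T.image Prod.fst, (1 : ℝ) := by
          refine Finset.sum_le_sum fun y _ => ?_
          exact pow_le_one₀ (norm_nonneg _) (hγ _)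
      _ = ((T.image Prod.fst).card : ℝ) := by simp
  have h5 : p1.2 ^ (d - 1) ≤ M ^ (d - 1) :=
    pow_le_pow_left₀ (le_trans zero_le_one (h1 p1 hp1)) (hM p1 hp1) _
  have h6 : 0 ≤ p1.2 := le_trans zero_le_one (h1 p1 hp1)
  have h7 : 0 ≤ M := h6.trans (hM p1 hp1)
  exact mul_le_mul (mul_le_mul_of_nonneg_left h5 hC0.le) h4
    (Finset.sum_nonneg fun _ _ => by positivity) (by positivity)

/-- the shell of a point -/
private theorem LG_shell (k : ℕ) (x : ℝ) (h : x ≤ 2 ^ (k + 3)) :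
    ∃ i : ℕ, i ≤ k + 3 ∧ x ≤ (2 : ℝ) ^ i ∧ (i = 0 ∨ (2 : ℝ) ^ i / 2 < x) := by
  classical
  have hex : ∃ i : ℕ, x ≤ (2 : ℝ) ^ i := ⟨k + 3, h⟩
  refine ⟨Nat.find hex, Nat.find_min' hex h, Nat.find_spec hex, ?_⟩
  rcases Nat.eq_zero_or_pos (Nat.find hex) with h0 | h0
  · exact Or.inl h0
  · right
    have h1 := Nat.find_min hex (m := Nat.find hex - 1) (by omega)
    push Not at h1
    have h2 : (2 : ℝ) ^ (Nat.find hex) = 2 ^ (Nat.find hex - 1) * 2 := by
      rw [← pow_succ]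
      congr 1
      omega
    rw [h2]
    linarith

open scoped Classical in
/-- splitting of one row -/
private theorem LG_row (A : Finset (P 3)) (k I0 : ℕ) (X : P 3 → P 3 → Prop)
    [hXd : ∀ p, DecidablePred (X p)] (p : P 3) :
    ∑ q ∈ A.filter (fun q => X p q), LG_K k p q ≤
      ∑ q ∈ A.filter (fun q => (2 : ℝ) ^ (k + 3) < dist p q), LG_K k p q +
      ∑ i ∈ Finset.range (min (I0 + 1) (k + 4)), 2 / 2 ^ i *
        ∑ q ∈ A.filter (fun q => X p q ∧ dist p q ≤ (2 : ℝ) ^ i), Wf p q +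
      ∑ i ∈ Finset.Ico (I0 + 1) (k + 4), 2 / 2 ^ i *
        ∑ q ∈ A.filter (fun q => (2 : ℝ) ^ i / 2 < dist p q ∧ dist p q ≤ (2 : ℝ) ^ i),
          Wf p q := by
  have e : ∀ (s : Finset ℕ) (Z : ℕ → P 3 → Prop) [∀ i, DecidablePred (Z i)],
      ∑ i ∈ s, 2 / 2 ^ i *
      ∑ q ∈ A.filter (fun q => Z i q), Wf p q =
      ∑ q ∈ A, ∑ i ∈ s, (if Z i q then 2 / 2 ^ i * Wf p q else 0) := by
    intro s Z _
    rw [Finset.sum_comm]
    refine Finset.sum_congr rfl fun i _ => ?_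
    rw [Finset.mul_sum, Finset.sum_filter]
  rw [e (Finset.range (min (I0 + 1) (k + 4))) (fun i q => X p q ∧ dist p q ≤ (2 : ℝ) ^ i),
    e (Finset.Ico (I0 + 1) (k + 4))
      (fun i q => (2 : ℝ) ^ i / 2 < dist p q ∧ dist p q ≤ (2 : ℝ) ^ i),
    Finset.sum_filter, Finset.sum_filter, ← Finset.sum_add_distrib, ← Finset.sum_add_distrib]
  refine Finset.sum_le_sum fun q _ => ?_
  have hK := LG_K_nonneg k p q
  have hW := LG_Wf_nonneg p q
  have n1 : 0 ≤ (if (2 : ℝ) ^ (k + 3) < dist p q then LG_K k p q else 0) := by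
    split_ifs <;> simp [hK]
  have n2 : ∀ (s : Finset ℕ) (Z : ℕ → Prop) [DecidablePred Z], 0 ≤ ∑ i ∈ s,
      (if Z i then 2 / 2 ^ i * Wf p q else 0) := by
    intro s Z _
    refine Finset.sum_nonneg fun i _ => ?_
    split_ifs
    · positivity
    · exact le_refl 0
  have n3 := n2 (Finset.range (min (I0 + 1) (k + 4))) (fun i => X p q ∧ dist p q ≤ (2 : ℝ) ^ i)
  have n4 := n2 (Finset.Ico (I0 + 1) (k + 4))
    (fun i => (2 : ℝ) ^ i / 2 < dist p q ∧ dist p q ≤ (2 : ℝ) ^ i)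
  by_cases hX : X p q
  · rw [if_pos hX]
    by_cases ht : (2 : ℝ) ^ (k + 3) < dist p q
    · rw [if_pos ht]
      linarith
    · obtain ⟨i, hi, h1, h2⟩ := LG_shell k (dist p q) (not_lt.1 ht)
      have h3 := LG_K_le k i p q h2
      by_cases hiI : i < I0 + 1
      · have h4 : 2 / 2 ^ i * Wf p q ≤ ∑ i ∈ Finset.range (min (I0 + 1) (k + 4)),
            (if X p q ∧ dist p q ≤ (2 : ℝ) ^ i then 2 / 2 ^ i * Wf p q else 0) := by
          refine le_trans (le_of_eq ?_) (Finset.single_le_sum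
            (f := fun i => if X p q ∧ dist p q ≤ (2 : ℝ) ^ i then 2 / 2 ^ i * Wf p q else 0)
            (fun j _ => by
              show 0 ≤ (if X p q ∧ dist p q ≤ (2 : ℝ) ^ j then 2 / 2 ^ j * Wf p q else 0)
              split_ifs
              · positivity
              · exact le_refl 0)
            (Finset.mem_range.2 (lt_min hiI (by omega))))
          show _ = (if X p q ∧ dist p q ≤ (2 : ℝ) ^ i then 2 / 2 ^ i * Wf p q else 0)
          rw [if_pos ⟨hX, h1⟩]
        linarith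
      · have h5 : (2 : ℝ) ^ i / 2 < dist p q := by
          rcases h2 with h2 | h2
          · omega
          · exact h2
        have hmi : i ∈ Finset.Ico (I0 + 1) (k + 4) := Finset.mem_Ico.2 ⟨by omega, by omega⟩
        have h4 : 2 / 2 ^ i * Wf p q ≤ ∑ i ∈ Finset.Ico (I0 + 1) (k + 4),
            (if (2 : ℝ) ^ i / 2 < dist p q ∧ dist p q ≤ (2 : ℝ) ^ i then
              2 / 2 ^ i * Wf p q else 0) := by
          refine le_trans (le_of_eq ?_) (Finset.single_le_sum
            (f := fun i => if (2 : ℝ) ^ i / 2 < dist p q ∧ dist p q ≤ (2 : ℝ) ^ i then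
              2 / 2 ^ i * Wf p q else 0)
            (fun j _ => by
              show 0 ≤ (if (2 : ℝ) ^ j / 2 < dist p q ∧ dist p q ≤ (2 : ℝ) ^ j then
                2 / 2 ^ j * Wf p q else 0)
              split_ifs
              · positivity
              · exact le_refl 0)
            hmi)
          show _ = (if (2 : ℝ) ^ i / 2 < dist p q ∧ dist p q ≤ (2 : ℝ) ^ i then
            2 / 2 ^ i * Wf p q else 0)
          rw [if_pos ⟨h5, h1⟩]
        linarith
  · rw [if_neg hX]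
    linarith

/-- the threshold index -/
private theorem LG_thr (u : ℝ) (hu : 1 ≤ u) : ∃ I0 : ℕ, u ≤ (2 : ℝ) ^ ((I0 : ℝ) / 100) ∧
    ((I0 : ℝ) + 1) ≤ 200 * (1 + Real.log u) := by
  have hu0 : 0 < u := by linarith
  have hlog : 0 ≤ Real.log u := Real.log_nonneg hu
  have hl2 : (0.69 : ℝ) < Real.log 2 := by
    have := Real.log_two_gt_d9
    linarith
  refine ⟨⌈100 * (Real.log u / Real.log 2)⌉₊, ?_, ?_⟩
  · have h1 : 100 * (Real.log u / Real.log 2) ≤ (⌈100 * (Real.log u / Real.log 2)⌉₊ : ℝ) :=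
      Nat.le_ceil _
    have h2 : Real.log u ≤
        (⌈100 * (Real.log u / Real.log 2)⌉₊ : ℝ) / 100 * Real.log 2 := by
      have h3 : Real.log u = Real.log u / Real.log 2 * Real.log 2 := by
        field_simp
      refine h3.le.trans (mul_le_mul_of_nonneg_right ?_ (by linarith))
      linarith
    calc u = Real.exp (Real.log u) := (Real.exp_log hu0).symm
      _ ≤ Real.exp ((⌈100 * (Real.log u / Real.log 2)⌉₊ : ℝ) / 100 * Real.log 2) :=
          Real.exp_le_exp.2 h2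
      _ = (2 : ℝ) ^ ((⌈100 * (Real.log u / Real.log 2)⌉₊ : ℝ) / 100) := by
          rw [Real.rpow_def_of_pos (by norm_num), mul_comm]
  · have h1 : 0 ≤ 100 * (Real.log u / Real.log 2) := by positivity
    have h2 := (Nat.ceil_lt_add_one h1).le
    have h3 : Real.log u / Real.log 2 ≤ 1.5 * Real.log u := by
      rw [div_le_iff₀ (by linarith)]
      nlinarith
    linarith

/-- the geometric series -/
private theorem LG_geom : ∃ G : ℝ, 0 < G ∧ ∀ (I0 n : ℕ) (u : ℝ), 0 < u →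
    u ≤ (2 : ℝ) ^ ((I0 : ℝ) / 100) →
    ∑ i ∈ Finset.Ico (I0 + 1) n, 2 / 2 ^ i * (u * (((2 : ℝ) ^ ((i : ℝ) / 100)) ^ 99)) ≤ G := by
  set ρ : ℝ := (2 : ℝ) ^ (-(1 : ℝ) / 100) with hρ
  have hρ0 : 0 < ρ := by positivity
  have hρ1 : ρ < 1 := by
    rw [hρ]
    exact Real.rpow_lt_one_of_one_lt_of_neg (by norm_num) (by norm_num)
  refine ⟨2 * (1 - ρ)⁻¹, by
    have : 0 < 1 - ρ := by linarith
    positivity, ?_⟩
  intro I0 n u hu0 hu
  have hterm : ∀ i ∈ Finset.Ico (I0 + 1) n,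
      2 / 2 ^ i * (u * (((2 : ℝ) ^ ((i : ℝ) / 100)) ^ 99)) ≤ 2 * ρ ^ (i - I0) := by
    intro i hi
    have hi' := Finset.mem_Ico.1 hi
    have hx : (0 : ℝ) < (2 : ℝ) ^ ((i : ℝ) / 100) := by positivity
    have h1 : (2 : ℝ) ^ i = ((2 : ℝ) ^ ((i : ℝ) / 100)) ^ 100 := by
      rw [← Real.rpow_natCast ((2 : ℝ) ^ ((i : ℝ) / 100)) 100, ← Real.rpow_mul (by norm_num),
        ← Real.rpow_natCast 2 i]
      congr 1
      push_cast
      ring
    have h2 : 2 / 2 ^ i * (u * (((2 : ℝ) ^ ((i : ℝ) / 100)) ^ 99)) =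
        2 * (u / (2 : ℝ) ^ ((i : ℝ) / 100)) := by
      rw [h1]
      field_simp
    rw [h2]
    refine mul_le_mul_of_nonneg_left ?_ (by norm_num)
    have h3 : ρ ^ (i - I0) = (2 : ℝ) ^ ((I0 : ℝ) / 100) / (2 : ℝ) ^ ((i : ℝ) / 100) := by
      rw [hρ, ← Real.rpow_natCast, ← Real.rpow_mul (by norm_num),
        ← Real.rpow_sub (by norm_num)]
      congr 1
      rw [Nat.cast_sub (by omega)]
      ring
    rw [h3]
    exact div_le_div_of_nonneg_right hu hx.le
  refine (Finset.sum_le_sum hterm).trans ?_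
  rw [← Finset.mul_sum]
  refine mul_le_mul_of_nonneg_left ?_ (by norm_num)
  have h4 : ∑ i ∈ Finset.Ico (I0 + 1) n, ρ ^ (i - I0) ≤ ∑ j ∈ Finset.range n, ρ ^ j := by
    refine le_trans (le_of_eq (Finset.sum_image (s := Finset.Ico (I0 + 1) n)
      (g := fun i => i - I0) (f := fun j => ρ ^ j) ?_).symm) ?_
    · intro a ha b hb hab
      have ha' := Finset.mem_Ico.1 ha
      have hb' := Finset.mem_Ico.1 hb
      simp only at hab
      omega
    · refine Finset.sum_le_sum_of_subset_of_nonneg ?_ fun j _ _ => by positivity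
      intro j hj
      obtain ⟨i, hi, rfl⟩ := Finset.mem_image.1 hj
      have hi' := Finset.mem_Ico.1 hi
      exact Finset.mem_range.2 (by omega)
  refine h4.trans ?_
  have h5 := (summable_geometric_of_lt_one hρ0.le hρ1).sum_le_tsum (Finset.range n)
    (fun i _ => by positivity)
  rwa [tsum_geometric_of_lt_one hρ0.le hρ1] at h5

open scoped Classical in
/-- the far pairs of one scale -/
private theorem LG_far : ∃ C : ℝ, 0 < C ∧ ∀ (Y : Finset (E 3)) (R : Finset ℝ) (S : Finset (P 3))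
    (u : ℝ), Pool.LibTP53.Sep Y R → S ⊆ Y ×ˢ R → 1 ≤ u → DensT (Y ×ˢ R) u S → ∀ (k M : ℕ),
    1 ≤ M → √u ≤ M →
    ∑ p ∈ sc k S, ∑ q ∈ (sc k S).filter (fun q => M < Ac (fun _ => 0) (Rk k R) p.2 q.2),
      LG_K k p q ≤ C * (1 + Real.log u) * √u * ((sc k S).card : ℝ) := by
  obtain ⟨C1, hC1, hsh⟩ := shell_sum
  obtain ⟨C2, hC2, htl⟩ := row_tail
  obtain ⟨G, hG, hgeo⟩ := LG_geom
  refine ⟨4800 + C1 * G + 4 * C2, by positivity, ?_⟩
  intro Y R S u hYR hS hu hD k M hM1 hM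
  have hu0 : 0 < u := by linarith
  have hlog : 0 ≤ Real.log u := Real.log_nonneg hu
  have hsq1 : 1 ≤ √u := by
    rw [Real.one_le_sqrt]
    exact hu
  have hMp : (0 : ℝ) < M := by linarith
  have hcard : (0 : ℝ) ≤ ((sc k S).card : ℝ) := Nat.cast_nonneg _
  have hmem : ∀ p ∈ sc k S, p ∈ S ∧ (2 : ℝ) ^ k ≤ p.2 ∧ p.2 < (2 : ℝ) ^ (k + 1) := by
    intro p hp
    simp only [sc, Finset.mem_filter] at hp
    exact hp
  by_cases hbig : u ≤ 4 * 4 ^ k
  · obtain ⟨I0, hI1, hI2⟩ := LG_thr u hu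
    have hrow : ∀ p ∈ sc k S,
        ∑ q ∈ (sc k S).filter (fun q => M < Ac (fun _ => 0) (Rk k R) p.2 q.2), LG_K k p q ≤
        (4 * C2 + 4800 * (1 + Real.log u) * √u) +
        ∑ i ∈ Finset.Ico (I0 + 1) (k + 4), 2 / 2 ^ i *
          ∑ q ∈ (sc k S).filter (fun q => (2 : ℝ) ^ i / 2 < dist p q ∧ dist p q ≤ (2 : ℝ) ^ i),
            Wf p q := by
      intro p hp
      refine (LG_row (sc k S) k I0 (fun p q => M < Ac (fun _ => 0) (Rk k R) p.2 q.2) p).trans ?_
      have t1 : ∑ q ∈ (sc k S).filter (fun q => (2 : ℝ) ^ (k + 3) < dist p q), LG_K k p q ≤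
          4 * C2 := by
        have h1 := htl Y R S u hS hu0.le hD k p hp
        have h2 : C2 * u / 4 ^ k ≤ 4 * C2 := by
          rw [div_le_iff₀ (by positivity)]
          nlinarith
        exact h1.trans h2
      have t2 : ∑ i ∈ Finset.range (min (I0 + 1) (k + 4)), 2 / 2 ^ i *
          ∑ q ∈ (sc k S).filter (fun q => M < Ac (fun _ => 0) (Rk k R) p.2 q.2 ∧
            dist p q ≤ (2 : ℝ) ^ i), Wf p q ≤ 4800 * (1 + Real.log u) * √u := by
        have h1 : ∀ i ∈ Finset.range (min (I0 + 1) (k + 4)), 2 / 2 ^ i *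
            ∑ q ∈ (sc k S).filter (fun q => M < Ac (fun _ => 0) (Rk k R) p.2 q.2 ∧
            dist p q ≤ (2 : ℝ) ^ i), Wf p q ≤ 24 * √u := by
          intro i hi
          have hi' := lt_min_iff.1 (Finset.mem_range.1 hi)
          have h2 := row_near Y R S u hYR hS hD k i M (by omega) hM1 p hp
          have h3 : 12 * u * 2 ^ i / M ≤ 12 * √u * 2 ^ i := by
            rw [div_le_iff₀ hMp]
            have h4 : u ≤ √u * M := by
              calc u = √u * √u := (Real.mul_self_sqrt hu0.le).symm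
                _ ≤ √u * M := mul_le_mul_of_nonneg_left hM (by positivity)
            have h5 : (0 : ℝ) < 2 ^ i := by positivity
            nlinarith
          calc 2 / 2 ^ i * ∑ q ∈ (sc k S).filter (fun q => M < Ac (fun _ => 0) (Rk k R) p.2 q.2 ∧
              dist p q ≤ (2 : ℝ) ^ i), Wf p q ≤ 2 / 2 ^ i * (12 * √u * 2 ^ i) := by
                refine mul_le_mul_of_nonneg_left (h2.trans h3) (by positivity)
            _ = 24 * √u := by
                field_simp
                ring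
        refine (Finset.sum_le_sum h1).trans ?_
        rw [Finset.sum_const, nsmul_eq_mul, Finset.card_range]
        have h6 : ((min (I0 + 1) (k + 4) : ℕ) : ℝ) ≤ (I0 : ℝ) + 1 := by
          have := min_le_left (I0 + 1) (k + 4)
          exact_mod_cast this
        calc ((min (I0 + 1) (k + 4) : ℕ) : ℝ) * (24 * √u) ≤ (200 * (1 + Real.log u)) * (24 * √u) :=
              mul_le_mul_of_nonneg_right (h6.trans hI2) (by positivity)
          _ = _ := by ring
      linarith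
    have hlarge : ∑ p ∈ sc k S, ∑ i ∈ Finset.Ico (I0 + 1) (k + 4), 2 / 2 ^ i *
        ∑ q ∈ (sc k S).filter (fun q => (2 : ℝ) ^ i / 2 < dist p q ∧ dist p q ≤ (2 : ℝ) ^ i),
          Wf p q ≤ C1 * G * ((sc k S).card : ℝ) := by
      rw [Finset.sum_comm]
      have h1 : ∀ i ∈ Finset.Ico (I0 + 1) (k + 4), ∑ p ∈ sc k S, 2 / 2 ^ i *
          ∑ q ∈ (sc k S).filter (fun q => (2 : ℝ) ^ i / 2 < dist p q ∧ dist p q ≤ (2 : ℝ) ^ i),
            Wf p q ≤ C1 * ((sc k S).card : ℝ) *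
            (2 / 2 ^ i * (u * (((2 : ℝ) ^ ((i : ℝ) / 100)) ^ 99))) := by
        intro i hi
        have hi' := Finset.mem_Ico.1 hi
        rw [← Finset.mul_sum]
        have h2 := hsh Y R S u hYR hS hu hD k i (by omega)
        calc _ ≤ 2 / 2 ^ i * (C1 * u * (((2 : ℝ) ^ ((i : ℝ) / 100)) ^ 99) *
              ((sc k S).card : ℝ)) := mul_le_mul_of_nonneg_left h2 (by positivity)
          _ = _ := by ring
      refine (Finset.sum_le_sum h1).trans ?_
      rw [← Finset.mul_sum]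
      have h3 := hgeo I0 (k + 4) u hu0 hI1
      calc _ ≤ C1 * ((sc k S).card : ℝ) * G := mul_le_mul_of_nonneg_left h3 (by positivity)
        _ = _ := by ring
    refine (Finset.sum_le_sum hrow).trans ?_
    rw [Finset.sum_add_distrib, Finset.sum_const, nsmul_eq_mul]
    have hL : 1 ≤ (1 + Real.log u) * √u := by nlinarith
    have h7 : ((sc k S).card : ℝ) * (4 * C2 + 4800 * (1 + Real.log u) * √u) +
        C1 * G * ((sc k S).card : ℝ) ≤
        (4800 + C1 * G + 4 * C2) * (1 + Real.log u) * √u * ((sc k S).card : ℝ) := by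
      have e1 : (4800 + C1 * G + 4 * C2) * (1 + Real.log u) * √u * ((sc k S).card : ℝ) -
          (((sc k S).card : ℝ) * (4 * C2 + 4800 * (1 + Real.log u) * √u) +
            C1 * G * ((sc k S).card : ℝ)) =
          (C1 * G + 4 * C2) * ((sc k S).card : ℝ) * ((1 + Real.log u) * √u - 1) := by ring
      have e2 : 0 ≤ (C1 * G + 4 * C2) * ((sc k S).card : ℝ) * ((1 + Real.log u) * √u - 1) :=
        mul_nonneg (by positivity) (by linarith)
      linarith
    linarith
  · have h0 : ∀ p ∈ sc k S, ∀ q ∈ (sc k S).filter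
        (fun q => M < Ac (fun _ => 0) (Rk k R) p.2 q.2), False := by
      intro p hp q hq
      obtain ⟨hq1, hq2⟩ := Finset.mem_filter.1 hq
      have h1 := Ac_dist (fun _ => 0) (Rk k R) (by
        intro r hr s hs hrs
        simp only [Rk, Finset.mem_filter] at hr hs
        exact hYR.rsep r hr.1 s hs.1 hrs) p.2 q.2 M hq2
      have h2 := hmem p hp
      have h3 := hmem q hq1
      have h4 : |p.2 - q.2| < 2 ^ k := by
        have h5 : (2 : ℝ) ^ (k + 1) = 2 ^ k + 2 ^ k := by ring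
        rw [abs_lt]
        constructor <;> linarith [h2.2.1, h2.2.2, h3.2.1, h3.2.2]
      apply hbig
      have h6 : √u ≤ 2 * 2 ^ k := by linarith
      calc u = √u * √u := (Real.mul_self_sqrt hu0.le).symm
        _ ≤ (2 * 2 ^ k) * (2 * 2 ^ k) := mul_le_mul h6 h6 (by positivity) (by positivity)
        _ = 4 * 4 ^ k := by
            have : (4 : ℝ) ^ k = 2 ^ k * 2 ^ k := by
              rw [← mul_pow]
              norm_num
            rw [this]
            ring
    have h8 : ∑ p ∈ sc k S, ∑ q ∈ (sc k S).filter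
        (fun q => M < Ac (fun _ => 0) (Rk k R) p.2 q.2), LG_K k p q = 0 := by
      refine Finset.sum_eq_zero fun p hp => Finset.sum_eq_zero fun q hq => ?_
      exact (h0 p hp q hq).elim
    rw [h8]
    positivity

/-- the square function estimate inside one scale -/
theorem same_scaleT {H : Type} [NormedAddCommGroup H] [InnerProductSpace ℂ H] (C0 : ℝ)
    (v : P 3 → H) (hv : KerL 3 C0 v) : ∃ C : ℝ, 0 < C ∧
    ∀ (Y : Finset (E 3)) (R : Finset ℝ) (S : Finset (P 3)) (u : ℝ), Pool.LibTP53.Sep Y R → S ⊆ Y ×ˢ R →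
    1 ≤ u → DensT (Y ×ˢ R) u S → ∀ (k : ℕ) (γ : P 3 → ℂ), (∀ p, ‖γ p‖ ≤ 1) →
    ‖∑ p ∈ sc k S, γ p • v p‖ ^ 2 ≤
      C * (1 + Real.log u) * u ^ ((1 : ℝ) / 2) * 4 ^ k * ((sc k S).card : ℝ) := by
  classical
  obtain ⟨Cf, hCf, hfar⟩ := LG_far
  have hC0 := hv.pos
  refine ⟨16 * C0 + 2 * C0 * Cf, by positivity, ?_⟩
  intro Y R S u hYR hS hu hD k γ hγ
  have hu0 : 0 < u := by linarith
  have hlog : 0 ≤ Real.log u := Real.log_nonneg hu
  rw [← Real.sqrt_eq_rpow]
  have hsq1 : 1 ≤ √u := by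
    rw [Real.one_le_sqrt]
    exact hu
  set M : ℕ := ⌈√u⌉₊ with hMdef
  have hM1 : 1 ≤ M := Nat.one_le_ceil_iff.2 (by linarith)
  have hMl : √u ≤ (M : ℝ) := Nat.le_ceil _
  have hMu : (M : ℝ) ≤ 2 * √u := by
    have := (Nat.ceil_lt_add_one (show 0 ≤ √u by positivity)).le
    linarith
  have h2k : (1 : ℝ) ≤ 2 ^ k := one_le_pow₀ (by norm_num)
  have h4k : (4 : ℝ) ^ k = (2 ^ k) ^ 2 := by
    rw [← pow_mul, mul_comm, pow_mul]
    norm_num
  have hmem : ∀ p ∈ sc k S, p ∈ S ∧ (2 : ℝ) ^ k ≤ p.2 ∧ p.2 < (2 : ℝ) ^ (k + 1) := by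
    intro p hp
    simp only [sc, Finset.mem_filter] at hp
    exact hp
  have hYRm : ∀ p ∈ sc k S, p.1 ∈ Y ∧ p.2 ∈ R := by
    intro p hp
    exact Finset.mem_product.1 (hS (hmem p hp).1)
  have h2M : ∀ p ∈ sc k S, p.2 ≤ 2 * 2 ^ k := by
    intro p hp
    have := (hmem p hp).2.2.le
    rw [pow_succ] at this
    linarith
  have hmain := near_far (sc k S) (Prod.snd : P 3 → ℝ) (fun p => γ p • v p)
    (LG_near (Rk k R) M) (fun r s h => ⟨h.2, h.1⟩) (2 * M)
    (C0 * 4 ^ k * (2 * (Cf * (1 + Real.log u) * √u)))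
    (C0 * (2 * 2 ^ k) ^ (3 - 1)) (by positivity) (by positivity) ?_ ?_ ?_
  · refine hmain.trans ?_
    have hcard : (0 : ℝ) ≤ ((sc k S).card : ℝ) := Nat.cast_nonneg _
    refine mul_le_mul_of_nonneg_right ?_ hcard
    have e1 : ((2 : ℝ) * 2 ^ k) ^ (3 - 1) = 4 * 4 ^ k := by
      rw [h4k]
      ring
    rw [e1]
    have hG : (0 : ℝ) < 4 ^ k := by positivity
    have b1 : (M : ℝ) ≤ 2 * ((1 + Real.log u) * √u) := by nlinarith
    have b2 : 2 * (M : ℝ) * (C0 * (4 * 4 ^ k)) ≤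
        2 * (2 * ((1 + Real.log u) * √u)) * (C0 * (4 * 4 ^ k)) := by
      refine mul_le_mul_of_nonneg_right ?_ (by positivity)
      linarith
    calc 2 * (M : ℝ) * (C0 * (4 * 4 ^ k)) + C0 * 4 ^ k * (2 * (Cf * (1 + Real.log u) * √u))
        ≤ 2 * (2 * ((1 + Real.log u) * √u)) * (C0 * (4 * 4 ^ k)) +
          C0 * 4 ^ k * (2 * (Cf * (1 + Real.log u) * √u)) := by linarith
      _ = (16 * C0 + 2 * C0 * Cf) * (1 + Real.log u) * √u * 4 ^ k := by ring
  · intro r hr
    have hdeg := degree (fun _ => 0) (Rk k R) r 1 M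
    refine le_trans ?_ (hdeg.trans (le_of_eq (by push_cast; ring)))
    rw [Nat.cast_le]
    refine Finset.card_le_card ?_
    intro s hs
    obtain ⟨hs1, hs2⟩ := Finset.mem_filter.1 hs
    obtain ⟨p, hp, rfl⟩ := Finset.mem_image.1 hs1
    refine Finset.mem_filter.2 ⟨?_, by simp, hs2.1⟩
    simp only [Rk, Finset.mem_filter]
    exact ⟨(hYRm p hp).2, (hmem p hp).2⟩
  · intro r hr
    exact LG_fix hv.toKer (sc k S)
      (fun p hp q hq h => hYR.ysep p.1 (hYRm p hp).1 q.1 (hYRm q hq).1 h) (2 * 2 ^ k)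
      (fun p hp => h2k.trans (hmem p hp).2.1) h2M γ hγ r hr
  · have hin : ∀ p ∈ sc k S, ∀ q ∈ sc k S, ‖(inner ℂ (γ p • v p) (γ q • v q) : ℂ)‖ ≤
        C0 * 4 ^ k * LG_K k p q := by
      intro p hp q hq
      rw [inner_smul_left, inner_smul_right, norm_mul, norm_mul, RCLike.norm_conj]
      have h3 := hv.loc (2 ^ k) h2k p q (hmem p hp).2.1 (h2M p hp) (hmem q hq).2.1 (h2M q hq)
      have h4 : C0 * ((2 : ℝ) ^ k) ^ (3 - 1) * ((1 + dist p q) ^ (-nu 3) /
          (1 + dist p q / 2 ^ k) ^ (3 + 2) * Wf p q) = C0 * 4 ^ k * LG_K k p q := by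
        rw [h4k]
        rfl
      calc ‖γ p‖ * (‖γ q‖ * ‖(inner ℂ (v p) (v q) : ℂ)‖)
          ≤ 1 * (1 * ‖(inner ℂ (v p) (v q) : ℂ)‖) := by
            gcongr
            · exact hγ p
            · exact hγ q
        _ ≤ _ := by
            rw [one_mul, one_mul]
            exact h3.trans (le_of_eq h4)
    have hdbl := LG_double (sc k S) (LG_K k) (LG_K_nonneg k) (LG_K_comm k)
      (fun p q => M < Ac (fun _ => 0) (Rk k R) p.2 q.2)
      (fun p q => LG_near (Rk k R) M p.2 q.2)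
      (fun p q h => by
        by_contra hcon
        push Not at hcon
        exact h ⟨hcon.1, hcon.2⟩)
      (Cf * (1 + Real.log u) * √u * ((sc k S).card : ℝ)) (by
        have h9 := hfar Y R S u hYR hS hu hD k M hM1 hMl
        convert h9)
    calc ∑ p ∈ sc k S, ∑ q ∈ (sc k S).filter (fun q => ¬ LG_near (Rk k R) M p.2 q.2),
          ‖(inner ℂ (γ p • v p) (γ q • v q) : ℂ)‖
        ≤ ∑ p ∈ sc k S, ∑ q ∈ (sc k S).filter (fun q => ¬ LG_near (Rk k R) M p.2 q.2),
          C0 * 4 ^ k * LG_K k p q := by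
          refine Finset.sum_le_sum fun p hp => Finset.sum_le_sum fun q hq => ?_
          exact hin p hp q (Finset.mem_filter.1 hq).1
      _ = C0 * 4 ^ k * ∑ p ∈ sc k S,
          ∑ q ∈ (sc k S).filter (fun q => ¬ LG_near (Rk k R) M p.2 q.2), LG_K k p q := by
          simp only [Finset.mul_sum]
      _ ≤ C0 * 4 ^ k * (2 * (Cf * (1 + Real.log u) * √u * ((sc k S).card : ℝ))) := by
          refine mul_le_mul_of_nonneg_left hdbl ?_
          positivity
      _ = _ := by ring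

end Pool.LibTH93
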